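import Mathlib
import Pool.Agent.Lib.MP_1d980c_gt.ND
import Pool.Agent.Lib.MP_1d980c_gt.Quot

set_option autoImplicit false
open scoped UpperHalfPlane MatrixGroups Manifold ContDiff Matrix Topology
open Complex ComplexConjugate

namespace Pool.Agent.HypBundle

/-- The upper half plane as a subset of `ℂ`. -/
def HH : Set ℂ := {w | 0 < w.im}

/-- The holomorphic peak function of weight `N` attached to the point `γ⁻¹ • o`; on the upper half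
plane `‖ph N o γ w‖ * √(im w) ^ N = cosh (dist o (γ • w) / 2) ^ (-N)`. -/
noncomputable def ph (N : ℕ) (o : ℍ) (γ : SL(2, ℝ)) (w : ℂ) : ℂ :=
  (2 * Complex.I * (Real.sqrt o.im : ℂ) /
    (((γ 0 0 : ℝ) * w + (γ 0 1 : ℝ)) - conj (o : ℂ) * ((γ 1 0 : ℝ) * w + (γ 1 1 : ℝ)))) ^ N

/-- The automorphy factor `c w + d`. -/
noncomputable def jf (γ : SL(2, ℝ)) (w : ℂ) : ℂ := (γ 1 0 : ℝ) * w + (γ 1 1 : ℝ)

/-- The Poincare series with coefficients `A`. -/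
noncomputable def PS (Γ : Subgroup SL(2, ℝ)) (N : ℕ) (O : Finset ℍ) (A : ℍ → Γ → ℂ) (w : ℂ) : ℂ :=
  ∑ o ∈ O, ∑' γ : Γ, ph N o (γ : SL(2, ℝ)) w * A o γ

/-- `O` is an `r`-net modulo `Γ`: the points `γ⁻¹ • o` are `r`-separated and `r`-dense. -/
structure IsNet (Γ : Subgroup SL(2, ℝ)) (r : ℝ) (O : Finset ℍ) : Prop where
  sep : ∀ o ∈ O, ∀ o' ∈ O, ∀ γ : Γ, (o ≠ o' ∨ γ ≠ 1) → r ≤ dist o (γ • o')
  cover : ∀ w : ℍ, ∃ o ∈ O, ∃ γ : Γ, dist o (γ • w) ≤ r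

/-- The matrix with pencil `(P, Q)` where one factor of each monomial is replaced by the matrices
`Ep` (for `P`) and `Eq` (for `Q`). -/
noncomputable def LB (m : ℕ) (P Q : ℂ) (Ep Eq : Matrix (Fin (2 * m)) (Fin (2 * m)) ℂ) :
    Matrix (Fin m) (Fin (2 * m)) ℂ :=
  fun i => (Q ^ (TorusBundle.deg m i - 1)) • (TorusBundle.coef m i 0 ᵥ* Eq) +
    ∑ j ∈ Finset.Icc 1 (TorusBundle.deg m i),
      (P ^ (j - 1) * Q ^ (TorusBundle.deg m i - j)) • (TorusBundle.coef m i j ᵥ* Ep)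

end Pool.Agent.HypBundle
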