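import Mathlib
import Pool.Agent.Lib.MP_1d980c_gt.Hyp.Defs

set_option autoImplicit false
open scoped UpperHalfPlane MatrixGroups Manifold ContDiff Matrix Topology
open Complex ComplexConjugate

namespace Pool.Agent.HypBundle

theorem V_close {n : ℕ} (Γ : Subgroup SL(2, ℝ))
    (hcoc : ∃ K : Set ℍ, IsCompact K ∧ ∀ w : ℍ, ∃ γ : Γ, γ • w ∈ K)
    (ρ : Γ →* Matrix (Fin n) (Fin n) ℝ) (V : ℍ → Matrix (Fin n) (Fin n) ℝ) (hV : Continuous V)
    (hVu : ∀ w, IsUnit (V w)) (hVe : ∀ (γ : Γ) (w : ℍ), V (γ • w) * ρ γ = V w) {ε : ℝ} (hε : 0 < ε) :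
    ∃ η : ℝ, 0 < η ∧ ∀ x w : ℍ, dist x w ≤ η →
      ∀ i j, |(V x * (V w)⁻¹) i j - (1 : Matrix (Fin n) (Fin n) ℝ) i j| ≤ ε := by
  classical
  obtain ⟨K, hK, hcov⟩ := hcoc
  have hdet : ∀ w, (V w).det ≠ 0 := fun w => ((Matrix.isUnit_iff_isUnit_det _).1 (hVu w)).ne_zero
  have hinv : Continuous (fun w => (V w)⁻¹) := by
    have h : (fun w => (V w)⁻¹) = fun w => ((V w).det)⁻¹ • (V w).adjugate := by
      funext w
      rw [Matrix.inv_def, Ring.inverse_eq_inv']
    rw [h]
    exact (hV.matrix_det.inv₀ hdet).smul hV.matrix_adjugate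
  have hinvar : ∀ (γ : Γ) (x w : ℍ), V (γ • x) * (V (γ • w))⁻¹ = V x * (V w)⁻¹ := by
    intro γ x w
    have hρ : ρ γ * ρ γ⁻¹ = 1 := by rw [← map_mul, mul_inv_cancel, map_one]
    have hρ' : (ρ γ)⁻¹ = ρ γ⁻¹ := Matrix.inv_eq_right_inv hρ
    rw [← hVe γ x, ← hVe γ w, Matrix.mul_inv_rev, hρ', Matrix.mul_assoc, ← Matrix.mul_assoc (ρ γ),
      hρ, Matrix.one_mul]
  let G : ℍ × ℍ → (Fin n → Fin n → ℝ) := fun p i j => (V p.1 * (V p.2)⁻¹) i j
  have hG : Continuous G := by
    have h1 : Continuous (fun p : ℍ × ℍ => V p.1 * (V p.2)⁻¹) :=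
      (hV.comp continuous_fst).matrix_mul (hinv.comp continuous_snd)
    exact h1
  have hKK : IsCompact (Metric.cthickening 1 K ×ˢ Metric.cthickening 1 K) :=
    hK.cthickening.prod hK.cthickening
  have hu := hKK.uniformContinuousOn_of_continuous hG.continuousOn
  rw [Metric.uniformContinuousOn_iff] at hu
  obtain ⟨δ, hδ, hu⟩ := hu ε hε
  refine ⟨min (δ / 2) 1, lt_min (by positivity) one_pos, ?_⟩
  intro x w hxw i j
  obtain ⟨γ, hγ⟩ := hcov w
  have hd : dist (γ • x) (γ • w) = dist x w := dist_smul (γ : SL(2, ℝ)) x w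
  have hw1 : γ • w ∈ Metric.cthickening 1 K := Metric.self_subset_cthickening K hγ
  have hx1 : γ • x ∈ Metric.cthickening 1 K := by
    refine Metric.mem_cthickening_of_dist_le _ (γ • w) _ _ hγ ?_
    rw [hd]
    exact hxw.trans (min_le_right _ _)
  have h2 := hu (γ • x, γ • w) ⟨hx1, hw1⟩ (γ • w, γ • w) ⟨hw1, hw1⟩ (by
    rw [Prod.dist_eq]
    simp only [dist_self, hd]
    rw [max_eq_left dist_nonneg]
    have := min_le_left (δ / 2) 1
    linarith)
  have h3 : dist (G (γ • x, γ • w) i j) (G (γ • w, γ • w) i j) ≤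
      dist (G (γ • x, γ • w)) (G (γ • w, γ • w)) :=
    (dist_le_pi_dist (G (γ • x, γ • w) i) (G (γ • w, γ • w) i) j).trans
      (dist_le_pi_dist (G (γ • x, γ • w)) (G (γ • w, γ • w)) i)
  have h4 : G (γ • w, γ • w) i j = (1 : Matrix (Fin n) (Fin n) ℝ) i j := by
    simp only [G]
    rw [Matrix.mul_nonsing_inv _ ((Matrix.isUnit_iff_isUnit_det _).1 (hVu _))]
  have h5 : G (γ • x, γ • w) i j = (V x * (V w)⁻¹) i j := by
    simp only [G]
    rw [hinvar]
  rw [h4, h5, Real.dist_eq] at h3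
  linarith

/-- chains with steps of length at most `η` -/
def Ch (η : ℝ) (k : ℕ) (a b : ℍ) : Prop :=
  ∃ z : ℕ → ℍ, z 0 = a ∧ z k = b ∧ ∀ i < k, dist (z i) (z (i + 1)) ≤ η

lemma Ch.trans {η : ℝ} {k l : ℕ} {a b c : ℍ} (h1 : Ch η k a b) (h2 : Ch η l b c) :
    Ch η (k + l) a c := by
  obtain ⟨z, hz0, hzk, hz⟩ := h1
  obtain ⟨y, hy0, hyl, hy⟩ := h2
  refine ⟨fun i => if i ≤ k then z i else y (i - k), ?_, ?_, ?_⟩
  · simp [hz0]
  · by_cases hl : l = 0
    · subst hl
      simp [hzk, ← hyl, hy0]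
    · have : ¬ (k + l ≤ k) := by omega
      simp [this, hyl]
  · intro i hi
    by_cases h : i + 1 ≤ k
    · have h' : i ≤ k := by omega
      simp only [h, h', if_true]
      exact hz i (by omega)
    · by_cases h' : i = k
      · subst h'
        simp only [le_refl, if_true, h, if_false, Nat.add_sub_cancel_left]
        rw [hzk, ← hy0]
        exact hy 0 (by omega)
      · have h'' : ¬ i ≤ k := by omega
        simp only [h, h'', if_false]
        have h3 : i + 1 - k = (i - k) + 1 := by omega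
        rw [h3]
        exact hy _ (by omega)

lemma Ch.of_path {η L : ℝ} (hη : 0 < η) (hL : 0 ≤ L) (p : ℝ → ℍ)
    (hp : ∀ s t : ℝ, dist (p s) (p t) ≤ L * |s - t|) :
    ∃ k : ℕ, (k : ℝ) ≤ L / η + 1 ∧ Ch η k (p 0) (p 1) := by
  have hq : 0 ≤ L / η := div_nonneg hL hη.le
  refine ⟨max 1 ⌈L / η⌉₊, ?_, ?_⟩
  · rw [Nat.cast_max]
    refine max_le ?_ ?_
    · push_cast
      linarith
    · exact (Nat.ceil_lt_add_one hq).le
  · set k := max 1 ⌈L / η⌉₊ with hk
    have hk1 : (1 : ℝ) ≤ k := by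
      rw [hk]; exact_mod_cast le_max_left _ _
    have hk0 : (0 : ℝ) < k := by linarith
    have hkL : L / η ≤ k := by
      refine (Nat.le_ceil _).trans ?_
      rw [hk]; exact_mod_cast le_max_right _ _
    refine ⟨fun i => p ((i : ℝ) / k), by simp, ?_, ?_⟩
    · simp only
      rw [div_self hk0.ne']
    · intro i _
      refine (hp _ _).trans ?_
      have h1 : ((i : ℝ) / k - ((i + 1 : ℕ) : ℝ) / k) = - (1 / k) := by
        push_cast
        field_simp
        ring
      rw [h1, abs_neg, abs_of_pos (by positivity)]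
      rw [div_le_iff₀ hη] at hkL
      rw [mul_one_div, div_le_iff₀ hk0]
      linarith

lemma Ch.vert {η : ℝ} (hη : 0 < η) (a b : ℍ) (hab : a.re = b.re) :
    ∃ k : ℕ, (k : ℝ) ≤ dist a b / η + 1 ∧ Ch η k a b := by
  let p : ℝ → ℍ := fun t =>
    ⟨⟨a.re, Real.exp ((1 - t) * Real.log a.im + t * Real.log b.im)⟩, Real.exp_pos _⟩
  have hp0 : p 0 = a := by
    apply UpperHalfPlane.ext
    apply Complex.ext
    · rfl
    · change Real.exp ((1 - 0) * Real.log a.im + 0 * Real.log b.im) = a.im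
      rw [sub_zero, one_mul, zero_mul, add_zero, Real.exp_log a.im_pos]
  have hp1 : p 1 = b := by
    apply UpperHalfPlane.ext
    apply Complex.ext
    · exact hab
    · change Real.exp ((1 - 1) * Real.log a.im + 1 * Real.log b.im) = b.im
      rw [sub_self, one_mul, zero_mul, zero_add, Real.exp_log b.im_pos]
  have hd : dist a b = |Real.log a.im - Real.log b.im| := by
    rw [UpperHalfPlane.dist_of_re_eq hab, Real.dist_eq]
  have h := Ch.of_path hη (dist_nonneg (x := a) (y := b)) p (by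
    intro s t
    have h1 : (p s).re = (p t).re := rfl
    rw [UpperHalfPlane.dist_of_re_eq h1, Real.dist_eq]
    have h2 : ∀ u : ℝ, Real.log (p u).im = (1 - u) * Real.log a.im + u * Real.log b.im := by
      intro u
      change Real.log (Real.exp _) = _
      rw [Real.log_exp]
    rw [h2, h2, hd, ← abs_mul, ← abs_neg]
    apply le_of_eq
    congr 1
    ring)
  rw [hp0, hp1] at h
  exact h

lemma Ch.horiz {η : ℝ} (hη : 0 < η) (a b : ℍ) (hab : a.im = b.im) :
    ∃ k : ℕ, (k : ℝ) ≤ (|a.re - b.re| / a.im) / η + 1 ∧ Ch η k a b := by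
  let p : ℝ → ℍ := fun t => ⟨⟨(1 - t) * a.re + t * b.re, a.im⟩, a.im_pos⟩
  have hp0 : p 0 = a := by
    apply UpperHalfPlane.ext
    apply Complex.ext
    · change (1 - 0) * a.re + 0 * b.re = a.re
      ring
    · rfl
  have hp1 : p 1 = b := by
    apply UpperHalfPlane.ext
    apply Complex.ext
    · change (1 - 1) * a.re + 1 * b.re = b.re
      ring
    · exact hab
  have h := Ch.of_path hη (div_nonneg (abs_nonneg (a.re - b.re)) a.im_pos.le) p (by
    intro s t
    refine (UpperHalfPlane.dist_le_dist_coe_div_sqrt _ _).trans ?_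
    have h1 : (p s).im * (p t).im = a.im ^ 2 := by
      change a.im * a.im = _
      ring
    rw [h1, Real.sqrt_sq a.im_pos.le]
    have h2 : dist (p s : ℂ) (p t : ℂ) = |a.re - b.re| * |s - t| := by
      have h3 : (p s : ℂ).im = (p t : ℂ).im := rfl
      rw [Complex.dist_of_im_eq h3, Real.dist_eq, ← abs_mul, ← abs_neg]
      congr 1
      change -(((1 - s) * a.re + s * b.re) - ((1 - t) * a.re + t * b.re)) = _
      ring
    rw [h2]
    apply le_of_eq
    ring)
  rw [hp0, hp1] at h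
  exact h

/-- the hyperbolic plane is a length space, in discrete form -/
theorem chain (x w : ℍ) {η : ℝ} (hη : 0 < η) :
    ∃ (k : ℕ) (z : ℕ → ℍ), (k : ℝ) ≤ (2 * dist x w + 2) / η + 3 ∧ z 0 = x ∧ z k = w ∧
      ∀ i < k, dist (z i) (z (i + 1)) ≤ η := by
  have hx := x.im_pos
  have hw := w.im_pos
  set d := dist x w with hd
  have hd0 : 0 ≤ d := dist_nonneg
  set S : ℝ := √(x.im * w.im) with hS
  have hS0 : 0 < S := Real.sqrt_pos.2 (mul_pos hx hw)
  set Y : ℝ := S * Real.exp (d / 2) with hY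
  have hY0 : 0 < Y := by positivity
  have hlogS : Real.log S = (Real.log x.im + Real.log w.im) / 2 := by
    rw [hS, Real.log_sqrt (mul_pos hx hw).le, Real.log_mul hx.ne' hw.ne']
  have hlogY : Real.log Y = (Real.log x.im + Real.log w.im) / 2 + d / 2 := by
    rw [hY, Real.log_mul hS0.ne' (Real.exp_pos _).ne', Real.log_exp, hlogS]
  have hlog : |Real.log x.im - Real.log w.im| ≤ d := by
    have := UpperHalfPlane.dist_log_im_le x w
    rwa [Real.dist_eq] at this
  rw [abs_le] at hlog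
  let a : ℍ := ⟨⟨x.re, Y⟩, hY0⟩
  let b : ℍ := ⟨⟨w.re, Y⟩, hY0⟩
  have hxa : dist x a ≤ d := by
    have h1 : x.re = a.re := rfl
    rw [UpperHalfPlane.dist_of_re_eq h1, Real.dist_eq]
    change |Real.log x.im - Real.log Y| ≤ d
    rw [hlogY, abs_le]
    constructor <;> linarith [hlog.1, hlog.2]
  have hbw : dist b w ≤ d := by
    have h1 : b.re = w.re := rfl
    rw [UpperHalfPlane.dist_of_re_eq h1, Real.dist_eq]
    change |Real.log Y - Real.log w.im| ≤ d
    rw [hlogY, abs_le]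
    constructor <;> linarith [hlog.1, hlog.2]
  have hre : |x.re - w.re| ≤ Y := by
    have h1 : |x.re - w.re| ≤ dist (x : ℂ) (w : ℂ) := by
      rw [Complex.dist_eq]
      have := Complex.abs_re_le_norm ((x : ℂ) - (w : ℂ))
      simpa using this
    have h2 : dist (x : ℂ) (w : ℂ) = 2 * S * Real.sinh (d / 2) := by
      rw [hd, UpperHalfPlane.sinh_half_dist, ← hS]
      field_simp
    have h3 : 2 * Real.sinh (d / 2) ≤ Real.exp (d / 2) := by
      rw [Real.sinh_eq]
      have := Real.exp_pos (-(d / 2))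
      linarith
    calc |x.re - w.re| ≤ 2 * S * Real.sinh (d / 2) := h1.trans h2.le
      _ = S * (2 * Real.sinh (d / 2)) := by ring
      _ ≤ S * Real.exp (d / 2) := by gcongr
  obtain ⟨k1, hk1, hc1⟩ := Ch.vert hη x a rfl
  obtain ⟨k2, hk2, hc2⟩ := Ch.horiz hη a b rfl
  obtain ⟨k3, hk3, hc3⟩ := Ch.vert hη b w rfl
  obtain ⟨z, hz0, hzk, hz⟩ := (hc1.trans hc2).trans hc3
  refine ⟨k1 + k2 + k3, z, ?_, hz0, hzk, hz⟩
  have h2 : |a.re - b.re| / a.im ≤ 1 := by
    change |x.re - w.re| / Y ≤ 1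
    rw [div_le_one hY0]
    exact hre
  have e1 : dist x a / η ≤ d / η := by gcongr
  have e2 : (|a.re - b.re| / a.im) / η ≤ 1 / η := by gcongr
  have e3 : dist b w / η ≤ d / η := by gcongr
  have e4 : (2 * d + 2) / η = d / η + 1 / η + d / η + 1 / η := by ring
  have e5 : 0 < 1 / η := by positivity
  push_cast
  rw [e4]
  linarith

theorem V_growth {n : ℕ} (Γ : Subgroup SL(2, ℝ))
    (hcoc : ∃ K : Set ℍ, IsCompact K ∧ ∀ w : ℍ, ∃ γ : Γ, γ • w ∈ K)
    (ρ : Γ →* Matrix (Fin n) (Fin n) ℝ) (V : ℍ → Matrix (Fin n) (Fin n) ℝ) (hV : Continuous V)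
    (hVu : ∀ w, IsUnit (V w)) (hVe : ∀ (γ : Γ) (w : ℍ), V (γ • w) * ρ γ = V w) :
    ∃ C : ℝ, 0 < C ∧ ∀ x w : ℍ, ∀ i j, |(V x * (V w)⁻¹) i j| ≤ C * Real.exp (C * dist x w) := by
  classical
  obtain ⟨η, hη, hclose⟩ := V_close Γ hcoc ρ V hV hVu hVe
    (ε := 1 / ((n : ℝ) + 1)) (by positivity)
  have hrow1 : ∀ x w : ℍ, dist x w ≤ η → ∀ i, ∑ j, |(V x * (V w)⁻¹) i j| ≤ 2 := by
    intro x w hxw i
    have h1 : ∀ j, |(V x * (V w)⁻¹) i j| ≤ |(1 : Matrix (Fin n) (Fin n) ℝ) i j| +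
        1 / ((n : ℝ) + 1) := by
      intro j
      have h2 := hclose x w hxw i j
      have h3 := abs_sub_abs_le_abs_sub ((V x * (V w)⁻¹) i j) ((1 : Matrix (Fin n) (Fin n) ℝ) i j)
      linarith
    refine (Finset.sum_le_sum fun j _ => h1 j).trans ?_
    rw [Finset.sum_add_distrib]
    have h4 : ∑ j, |(1 : Matrix (Fin n) (Fin n) ℝ) i j| = 1 := by
      rw [Finset.sum_eq_single i]
      · simp
      · intro j _ hj
        rw [Matrix.one_apply_ne (Ne.symm hj), abs_zero]
      · intro h; exact absurd (Finset.mem_univ i) h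
    rw [h4, Finset.sum_const, Finset.card_univ, Fintype.card_fin, nsmul_eq_mul, mul_one_div]
    have : (n : ℝ) / (n + 1) ≤ 1 := by
      rw [div_le_one (by positivity)]
      linarith
    linarith
  have hcancel : ∀ x y w : ℍ, V x * (V w)⁻¹ = (V x * (V y)⁻¹) * (V y * (V w)⁻¹) := by
    intro x y w
    rw [Matrix.mul_assoc, ← Matrix.mul_assoc (V y)⁻¹,
      Matrix.nonsing_inv_mul _ ((Matrix.isUnit_iff_isUnit_det _).1 (hVu y)), Matrix.one_mul]
  have hrow : ∀ (k : ℕ) (z : ℕ → ℍ), (∀ i < k, dist (z i) (z (i + 1)) ≤ η) →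
      ∀ i, ∑ j, |(V (z 0) * (V (z k))⁻¹) i j| ≤ 2 ^ k := by
    intro k z
    induction k with
    | zero =>
      intro _ i
      rw [Matrix.mul_nonsing_inv _ ((Matrix.isUnit_iff_isUnit_det _).1 (hVu _)), pow_zero]
      apply le_of_eq
      rw [Finset.sum_eq_single i]
      · simp
      · intro j _ hj
        rw [Matrix.one_apply_ne (Ne.symm hj), abs_zero]
      · intro h; exact absurd (Finset.mem_univ i) h
    | succ k ih =>
      intro hz i
      have h1 := ih (fun i hi => hz i (by omega)) i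
      have h2 := hrow1 _ _ (hz k (by omega))
      rw [hcancel (z 0) (z k) (z (k + 1))]
      calc ∑ j, |((V (z 0) * (V (z k))⁻¹) * (V (z k) * (V (z (k + 1)))⁻¹)) i j|
          ≤ ∑ j, ∑ l, |(V (z 0) * (V (z k))⁻¹) i l| * |(V (z k) * (V (z (k + 1)))⁻¹) l j| := by
            apply Finset.sum_le_sum
            intro j _
            rw [Matrix.mul_apply]
            refine (Finset.abs_sum_le_sum_abs _ _).trans ?_
            simp_rw [abs_mul]
            exact le_rfl
        _ = ∑ l, |(V (z 0) * (V (z k))⁻¹) i l| * ∑ j, |(V (z k) * (V (z (k + 1)))⁻¹) l j| := by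
            rw [Finset.sum_comm]
            simp_rw [Finset.mul_sum]
        _ ≤ ∑ l, |(V (z 0) * (V (z k))⁻¹) i l| * 2 := by
            apply Finset.sum_le_sum
            intro l _
            exact mul_le_mul_of_nonneg_left (h2 l) (abs_nonneg _)
        _ = (∑ l, |(V (z 0) * (V (z k))⁻¹) i l|) * 2 := by rw [Finset.sum_mul]
        _ ≤ 2 ^ k * 2 := by gcongr
        _ = 2 ^ (k + 1) := by rw [pow_succ]
  refine ⟨Real.exp (2 / η + 3), Real.exp_pos _, ?_⟩
  intro x w i j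
  obtain ⟨k, z, hk, hz0, hzk, hz⟩ := chain x w hη
  have h1 : |(V x * (V w)⁻¹) i j| ≤ 2 ^ k := by
    have h2 := hrow k z hz i
    rw [hz0, hzk] at h2
    exact (Finset.single_le_sum (f := fun j => |(V x * (V w)⁻¹) i j|)
      (fun _ _ => abs_nonneg _) (Finset.mem_univ j)).trans h2
  refine h1.trans ?_
  have h3 : (2 : ℝ) ^ k ≤ Real.exp k := by
    rw [← Real.exp_one_pow]
    have : (2 : ℝ) ≤ Real.exp 1 := by
      have := Real.add_one_le_exp (1 : ℝ)
      linarith
    gcongr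
  refine h3.trans ?_
  rw [← Real.exp_add]
  apply Real.exp_le_exp.2
  refine hk.trans ?_
  have h4 : 2 / η + 3 + 1 ≤ Real.exp (2 / η + 3) := Real.add_one_le_exp _
  have h5 : 2 / η ≤ Real.exp (2 / η + 3) := by linarith
  have h6 : 2 / η * dist x w ≤ Real.exp (2 / η + 3) * dist x w := by
    gcongr
  have h7 : (2 * dist x w + 2) / η + 3 = 2 / η + 3 + 2 / η * dist x w := by ring
  rw [h7]
  gcongr

end Pool.Agent.HypBundle
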