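import Mathlib
import Pool.Agent.Lib.MP_1d980c_gt.Hyp.Defs

set_option autoImplicit false
open scoped UpperHalfPlane MatrixGroups Manifold ContDiff Matrix Topology
open Complex ComplexConjugate

namespace Pool.Agent.HypBundle

theorem exists_inj (Γ : Subgroup SL(2, ℝ)) [DiscreteTopology Γ]
    (hfree : ∀ γ : Γ, γ ≠ 1 → ∀ w : ℍ, γ • w ≠ w)
    (hcoc : ∃ K : Set ℍ, IsCompact K ∧ ∀ w : ℍ, ∃ γ : Γ, γ • w ∈ K) :
    ∃ ι₀ : ℝ, 0 < ι₀ ∧ ∀ γ : Γ, γ ≠ 1 → ∀ w : ℍ, ι₀ ≤ dist w (γ • w) := by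
  classical
  obtain ⟨K, hK, hcov⟩ := hcoc
  have hKne : K.Nonempty := by
    obtain ⟨γ, hγ⟩ := hcov UpperHalfPlane.I
    exact ⟨_, hγ⟩
  have hK' : IsCompact (Metric.cthickening 1 K) := hK.cthickening
  have hfin : Set.Finite {γ : Γ |
      ((γ • ·) '' Metric.cthickening 1 K ∩ Metric.cthickening 1 K).Nonempty} :=
    ProperlyDiscontinuousSMul.finite_disjoint_inter_image hK' hK'
  have hδ : ∀ γ : Γ, ∃ δ : ℝ, 0 < δ ∧ (γ ≠ 1 → ∀ w ∈ K, δ ≤ dist w (γ • w)) := by
    intro γ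
    by_cases h1 : γ = 1
    · exact ⟨1, one_pos, fun h => absurd h1 h⟩
    · have hc : Continuous (fun w : ℍ => dist w (γ • w)) :=
        continuous_id.dist (continuous_const_smul γ)
      obtain ⟨w₀, hw₀, hmin⟩ := hK.exists_isMinOn hKne hc.continuousOn
      refine ⟨dist w₀ (γ • w₀), dist_pos.2 (fun h => hfree γ h1 w₀ h.symm), fun _ w hw => ?_⟩
      exact hmin hw
  choose δ hδ0 hδ1 using hδ
  set T : Finset ℝ := insert 1 (hfin.toFinset.image δ) with hT
  have hTne : T.Nonempty := ⟨1, Finset.mem_insert_self _ _⟩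
  have key : ∀ γ : Γ, γ ≠ 1 → ∀ w ∈ K, T.min' hTne ≤ dist w (γ • w) := by
    intro γ hγ w hw
    by_cases hS : γ ∈ hfin.toFinset
    · exact (Finset.min'_le T _ (Finset.mem_insert_of_mem (Finset.mem_image_of_mem δ hS))).trans
        (hδ1 γ hγ w hw)
    · refine (Finset.min'_le T _ (Finset.mem_insert_self _ _)).trans ?_
      by_contra hlt
      push Not at hlt
      apply hS
      rw [Set.Finite.mem_toFinset, Set.mem_ofPred_eq]
      refine ⟨γ • w, ⟨w, ?_, rfl⟩, ?_⟩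
      · exact Metric.self_subset_cthickening K hw
      · exact Metric.mem_cthickening_of_dist_le _ w _ _ hw (by rw [dist_comm]; exact hlt.le)
  refine ⟨T.min' hTne, ?_, ?_⟩
  · have hmem := Finset.min'_mem T hTne
    generalize T.min' hTne = m at hmem ⊢
    rw [hT, Finset.mem_insert] at hmem
    rcases hmem with h | h
    · rw [h]; exact one_pos
    · obtain ⟨γ, -, h⟩ := Finset.mem_image.1 h
      rw [← h]; exact hδ0 γ
  · intro γ hγ w
    obtain ⟨γ₀, hγ₀⟩ := hcov w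
    have h1 : γ₀ * γ * γ₀⁻¹ ≠ 1 := by
      intro h
      apply hγ
      have : γ₀ * γ = γ₀ := mul_inv_eq_one.1 h
      exact mul_eq_left.1 this
    have h2 := key _ h1 _ hγ₀
    have h3 : (γ₀ * γ * γ₀⁻¹) • (γ₀ • w) = γ₀ • (γ • w) := by
      rw [← mul_smul, ← mul_smul]
      simp
    have h4 : dist (γ₀ • w) (γ₀ • γ • w) = dist w (γ • w) :=
      dist_smul (γ₀ : SL(2, ℝ)) w (γ • w)
    rw [h3, h4] at h2
    exact h2

theorem exists_net (Γ : Subgroup SL(2, ℝ)) [DiscreteTopology Γ]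
    (hcoc : ∃ K : Set ℍ, IsCompact K ∧ ∀ w : ℍ, ∃ γ : Γ, γ • w ∈ K)
    {ι₀ : ℝ} (hι : ∀ γ : Γ, γ ≠ 1 → ∀ w : ℍ, ι₀ ≤ dist w (γ • w)) {r : ℝ} (hr : 0 < r)
    (hr' : r ≤ ι₀) : ∃ O : Finset ℍ, IsNet Γ r O := by
  classical
  obtain ⟨K, hK, hcov⟩ := hcoc
  let P : Finset ℍ → Prop := fun O => (∀ o ∈ O, o ∈ K) ∧
    ∀ o ∈ O, ∀ o' ∈ O, o ≠ o' → ∀ γ : Γ, r ≤ dist o (γ • o')
  let A : Set ℕ := {k | ∃ O : Finset ℍ, P O ∧ O.card = k}
  have hAne : A.Nonempty := ⟨0, ∅, ⟨by simp, by simp⟩, rfl⟩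
  obtain ⟨t, ht, htK⟩ := Metric.totallyBounded_iff.1 hK.totallyBounded (r / 2) (by positivity)
  have hAb : BddAbove A := by
    refine ⟨ht.toFinset.card, ?_⟩
    rintro k ⟨O, hO, rfl⟩
    have hf : ∀ o ∈ O, ∃ y ∈ t, o ∈ Metric.ball y (r / 2) := by
      intro o ho
      have := htK (hO.1 o ho)
      simpa using this
    choose! f hf1 hf2 using hf
    apply Finset.card_le_card_of_injOn f
    · intro o ho
      simpa using hf1 o ho
    · intro o ho o' ho' hoo
      by_contra hne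
      have h1 := hO.2 o ho o' ho' hne 1
      rw [one_smul] at h1
      have h2 := Metric.mem_ball.1 (hf2 o ho)
      have h3 := Metric.mem_ball.1 (hf2 o' ho')
      rw [← hoo] at h3
      have := dist_triangle_right o o' (f o)
      linarith
  obtain ⟨O, hO, hcard⟩ := Nat.sSup_mem hAne hAb
  have hsm : ∀ (γ : Γ) (x y : ℍ), dist (γ • x) (γ • y) = dist x y := fun γ x y =>
    dist_smul (γ : SL(2, ℝ)) x y
  refine ⟨O, ⟨?_, ?_⟩⟩
  · intro o ho o' ho' γ h
    by_cases hoo : o = o'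
    · subst hoo
      have hγ : γ ≠ 1 := by
        rcases h with h | h
        · exact absurd rfl h
        · exact h
      exact hr'.trans (hι γ hγ o)
    · exact hO.2 o ho o' ho' hoo γ
  · intro w
    obtain ⟨γ₀, hγ₀⟩ := hcov w
    by_cases hmem : γ₀ • w ∈ O
    · exact ⟨_, hmem, γ₀, by rw [dist_self]; exact hr.le⟩
    · have hnP : ¬ P (insert (γ₀ • w) O) := by
        intro hP
        have h1 : (insert (γ₀ • w) O).card ∈ A := ⟨_, hP, rfl⟩
        have h2 := le_csSup hAb h1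
        rw [Finset.card_insert_of_notMem hmem, ← hcard] at h2
        omega
      have hK2 : ∀ o ∈ insert (γ₀ • w) O, o ∈ K := by
        intro o ho
        rcases Finset.mem_insert.1 ho with rfl | ho
        · exact hγ₀
        · exact hO.1 o ho
      have hex : ∃ o ∈ insert (γ₀ • w) O, ∃ o' ∈ insert (γ₀ • w) O, o ≠ o' ∧
          ∃ γ : Γ, dist o (γ • o') < r := by
        by_contra hcon
        push Not at hcon
        exact hnP ⟨hK2, fun o ho o' ho' hne γ => hcon o ho o' ho' hne γ⟩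
      obtain ⟨o, ho, o', ho', hne, γ, hlt⟩ := hex
      rcases Finset.mem_insert.1 ho with h1 | h1
      · rcases Finset.mem_insert.1 ho' with h2 | h2
        · exact absurd (h1.trans h2.symm) hne
        · refine ⟨o', h2, γ⁻¹ * γ₀, ?_⟩
          rw [mul_smul, ← h1, ← hsm γ, smul_inv_smul, dist_comm]
          exact hlt.le
      · rcases Finset.mem_insert.1 ho' with h2 | h2
        · refine ⟨o, h1, γ * γ₀, ?_⟩
          rw [mul_smul, ← h2]
          exact hlt.le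
        · exact absurd hlt (not_lt.2 (hO.2 o h1 o' h2 hne γ))

end Pool.Agent.HypBundle
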