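import Mathlib
import Pool.Agent.Lib.MP_1d980c_gt.Hyp.Defs

/-! # Rosenfeld's counting argument (task B of the blueprint of MP_1d980c_gt, hyperbolic base) -/

set_option autoImplicit false

namespace Pool.Agent.HypBundle

open Classical in
private theorem fibre_count {α Ω : Type} [DecidableEq α] [Fintype α] [Fintype Ω]
    (A : Finset (α → Ω)) (o : α) (Bo : Set (α → Ω)) (M : ℕ)
    (hA : ∀ f ∈ A, ∀ t, Function.update f o t ∈ A)
    (hM : ∀ f : α → Ω, Set.ncard {t : Ω | Function.update f o t ∈ Bo} ≤ M) :
    Fintype.card Ω * (A.filter (· ∈ Bo)).card ≤ M * A.card := by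
  have h1 : (A.sigma (fun f => Finset.univ.filter
      (fun t => Function.update f o t ∈ Bo))).card ≤ M * A.card := by
    rw [Finset.card_sigma, mul_comm]
    refine (Finset.sum_le_card_nsmul _ _ M ?_).trans_eq (by simp)
    intro f _
    have := hM f
    rwa [Set.ncard_eq_toFinset_card', Set.toFinset_ofPred] at this
  have h2 : ((A.filter (· ∈ Bo)) ×ˢ (Finset.univ : Finset Ω)).card ≤
      (A.sigma (fun f => Finset.univ.filter (fun t => Function.update f o t ∈ Bo))).card := by
    apply Finset.card_le_card_of_injOn (fun p => ⟨Function.update p.1 o p.2, p.1 o⟩)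
    · rintro ⟨g, s⟩ hg
      simp only [Finset.coe_product, Finset.coe_filter, Finset.coe_univ, Set.mem_prod,
        Set.mem_ofPred_eq, Set.mem_univ, and_true] at hg
      simp only [Finset.mem_coe, Finset.mem_sigma, Finset.mem_filter, Finset.mem_univ, true_and]
      refine ⟨hA g hg.1 s, ?_⟩
      simpa using hg.2
    · rintro ⟨g, s⟩ _ ⟨g', s'⟩ _ h
      simp only [Sigma.mk.injEq, heq_eq_eq] at h
      obtain ⟨h3, h4⟩ := h
      have hs : s = s' := by
        have := congrFun h3 o
        simpa using this
      have hg : g = g' := by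
        have h5 := congrArg (fun f => Function.update f o (g o)) h3
        simp only [Function.update_idem, Function.update_eq_self] at h5
        rw [h5, h4, Function.update_eq_self]
      rw [hs, hg]
  rw [Finset.card_product, Finset.card_univ, mul_comm] at h2
  exact h2.trans h1

open Classical in
private theorem counting_fin {α Ω : Type} [DecidableEq α] [Fintype α] [Fintype Ω] [Nonempty Ω]
    (B : α → Set (α → Ω)) (nb : α → Finset α)
    (hB : ∀ o, ∀ f g : α → Ω, (∀ a ∈ nb o, f a = g a) → (f ∈ B o → g ∈ B o))
    (hself : ∀ o, o ∈ nb o) (M D : ℕ)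
    (hM : ∀ o, ∀ f : α → Ω, Set.ncard {t : Ω | Function.update f o t ∈ B o} ≤ M)
    (hD : ∀ o, (Finset.univ.filter (fun o' => o ∈ nb o')).card ≤ D)
    (h4 : 4 * D * M ≤ Fintype.card Ω) : ∃ f : α → Ω, ∀ o, f ∉ B o := by
  set F : Finset α → Finset (α → Ω) := fun S =>
    Finset.univ.filter (fun f => ∀ o, nb o ⊆ S → f ∉ B o) with hF
  have memF : ∀ S f, f ∈ F S ↔ ∀ o, nb o ⊆ S → f ∉ B o := by
    intro S f; simp [hF]
  have hmono : ∀ S T, S ⊆ T → F T ⊆ F S := by
    intro S T hST f hf
    rw [memF] at hf ⊢
    exact fun o ho => hf o (ho.trans hST)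
  have hΩ : 0 < Fintype.card Ω := Fintype.card_pos
  have key : ∀ n : ℕ, ∀ S : Finset α, S.card = n → ∀ o, o ∉ S →
      (F S).card ≤ 2 * (F (insert o S)).card := by
    intro n
    induction n using Nat.strong_induction_on with
    | _ n ih =>
      intro S hS o ho
      -- the bad functions for one o'
      have hbad : ∀ o', nb o' ⊆ insert o S →
          Fintype.card Ω * ((F S).filter (· ∈ B o')).card ≤ M * (2 * (F S).card) := by
        intro o' ho'
        have hm := ho' (hself o')
        have h1 : (F (S.erase o')).card ≤ 2 * (F S).card := by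
          by_cases h : o' ∈ S
          · have h2 := ih (S.erase o').card (by
              rw [← hS]; exact Finset.card_erase_lt_of_mem h) (S.erase o') rfl o'
              (Finset.notMem_erase _ _)
            rwa [Finset.insert_erase h] at h2
          · rw [Finset.erase_eq_of_notMem h]
            omega
        have h2 : Fintype.card Ω * ((F (S.erase o')).filter (· ∈ B o')).card ≤
            M * (F (S.erase o')).card := by
          apply fibre_count _ o' (B o') M _ (hM o')
          intro f hf t
          rw [memF] at hf ⊢
          intro o'' ho'' hin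
          refine hf o'' ho'' (hB o'' _ _ ?_ hin)
          intro a ha
          have : a ≠ o' := fun h => Finset.notMem_erase o' S (h ▸ ho'' ha)
          rw [Function.update_of_ne this]
        have h3 : ((F S).filter (· ∈ B o')).card ≤ ((F (S.erase o')).filter (· ∈ B o')).card :=
          Finset.card_le_card (Finset.filter_subset_filter _ (hmono _ _ (Finset.erase_subset _ _)))
        calc Fintype.card Ω * ((F S).filter (· ∈ B o')).card
            ≤ Fintype.card Ω * ((F (S.erase o')).filter (· ∈ B o')).card :=
              Nat.mul_le_mul_left _ h3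
          _ ≤ M * (F (S.erase o')).card := h2
          _ ≤ M * (2 * (F S).card) := Nat.mul_le_mul_left _ h1
      -- the functions lost
      set T := Finset.univ.filter (fun o' => o ∈ nb o') with hT
      set T' := T.filter (fun o' => nb o' ⊆ insert o S) with hT'
      have hcov : F S ⊆ F (insert o S) ∪ T'.biUnion (fun o' => (F S).filter (· ∈ B o')) := by
        intro f hf
        by_cases h : f ∈ F (insert o S)
        · exact Finset.mem_union_left _ h
        · apply Finset.mem_union_right
          rw [memF] at h
          push Not at h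
          obtain ⟨o', ho', hin⟩ := h
          rw [Finset.mem_biUnion]
          refine ⟨o', ?_, ?_⟩
          · rw [hT', hT]
            simp only [Finset.mem_filter, Finset.mem_univ, true_and]
            refine ⟨?_, ho'⟩
            by_contra hcon
            have : nb o' ⊆ S := by
              intro a ha
              have := ho' ha
              rw [Finset.mem_insert] at this
              rcases this with h | h
              · exact absurd (h ▸ ha) hcon
              · exact h
            exact (memF _ _).1 hf o' this hin
          · rw [Finset.mem_filter]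
            exact ⟨hf, hin⟩
      have hT'D : T'.card ≤ D := (Finset.card_le_card (Finset.filter_subset _ _)).trans (hD o)
      have hsum : Fintype.card Ω * (T'.biUnion (fun o' => (F S).filter (· ∈ B o'))).card ≤
          D * (M * (2 * (F S).card)) := by
        calc Fintype.card Ω * (T'.biUnion (fun o' => (F S).filter (· ∈ B o'))).card
            ≤ Fintype.card Ω * ∑ o' ∈ T', ((F S).filter (· ∈ B o')).card :=
              Nat.mul_le_mul_left _ Finset.card_biUnion_le
          _ = ∑ o' ∈ T', Fintype.card Ω * ((F S).filter (· ∈ B o')).card := Finset.mul_sum _ _ _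
          _ ≤ ∑ _o' ∈ T', M * (2 * (F S).card) := by
              apply Finset.sum_le_sum
              intro o' ho'
              exact hbad o' (Finset.mem_filter.1 ho').2
          _ = T'.card * (M * (2 * (F S).card)) := by simp
          _ ≤ D * (M * (2 * (F S).card)) := Nat.mul_le_mul_right _ hT'D
      have hc := (Finset.card_le_card hcov).trans (Finset.card_union_le _ _)
      set b := (T'.biUnion (fun o' => (F S).filter (· ∈ B o'))).card
      set x := (F S).card
      set y := (F (insert o S)).card
      set W := Fintype.card Ω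
      -- x ≤ y + b, W * b ≤ 2 D M x, 4 D M ≤ W
      have h5 : W * (2 * b) ≤ W * x := by
        calc W * (2 * b) = 2 * (W * b) := by ring
          _ ≤ 2 * (D * (M * (2 * x))) := Nat.mul_le_mul_left _ hsum
          _ = (4 * D * M) * x := by ring
          _ ≤ W * x := Nat.mul_le_mul_right _ h4
      have h6 : 2 * b ≤ x := Nat.le_of_mul_le_mul_left h5 hΩ
      omega
  have hpos : ∀ S : Finset α, 0 < (F S).card := by
    intro S
    induction S using Finset.induction_on with
    | empty =>
      obtain ⟨t⟩ := (inferInstance : Nonempty Ω)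
      apply Finset.card_pos.2
      refine ⟨fun _ => t, ?_⟩
      rw [memF]
      intro o ho
      exact absurd (ho (hself o)) (Finset.notMem_empty o)
    | insert o S ho ih =>
      have := key S.card S rfl o ho
      omega
  obtain ⟨f, hf⟩ := Finset.card_pos.1 (hpos Finset.univ)
  exact ⟨f, fun o => (memF _ _).1 hf o (Finset.subset_univ _)⟩

theorem counting {α Ω : Type} [DecidableEq α] [Fintype Ω] [DecidableEq Ω] [Nonempty Ω]
    (O : Finset α) (B : α → Set (α → Ω)) (nb : α → Finset α)
    (hB : ∀ o ∈ O, ∀ f g : α → Ω, (∀ a ∈ nb o, f a = g a) → (f ∈ B o → g ∈ B o))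
    (hself : ∀ o ∈ O, o ∈ nb o) (M D : ℕ)
    (hM : ∀ o ∈ O, ∀ f : α → Ω, Set.ncard {t : Ω | Function.update f o t ∈ B o} ≤ M)
    (hD : ∀ o ∈ O, Set.ncard {o' : α | o' ∈ O ∧ o ∈ nb o'} ≤ D)
    (h4 : 4 * D * M ≤ Fintype.card Ω) : ∃ f : α → Ω, ∀ o ∈ O, f ∉ B o := by
  classical
  obtain ⟨x0⟩ := (inferInstance : Nonempty Ω)
  set ext : (O → Ω) → (α → Ω) := fun f a => if h : a ∈ O then f ⟨a, h⟩ else x0 with hext
  have ext_in : ∀ (f : O → Ω) (a : α) (h : a ∈ O), ext f a = f ⟨a, h⟩ := by
    intro f a h; simp [hext, h]
  have ext_out : ∀ (f : O → Ω) (a : α), a ∉ O → ext f a = x0 := by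
    intro f a h; simp [hext, h]
  have ext_update : ∀ (f : O → Ω) (o : O) (t : Ω),
      ext (Function.update f o t) = Function.update (ext f) o t := by
    intro f o t
    funext a
    by_cases h : a = o
    · subst h
      rw [ext_in _ _ o.2]
      simp
    · rw [Function.update_of_ne h]
      by_cases ha : a ∈ O
      · rw [ext_in _ _ ha, ext_in _ _ ha, Function.update_of_ne]
        intro hh
        exact h (congrArg Subtype.val hh)
      · rw [ext_out _ _ ha, ext_out _ _ ha]
  have : Nonempty Ω := ⟨x0⟩
  obtain ⟨f, hf⟩ := counting_fin (α := O) (Ω := Ω) (fun o => {f | ext f ∈ B o})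
    (fun o => Finset.univ.filter (fun a : O => (a : α) ∈ nb o))
    (by
      intro o f g hfg hin
      refine hB o o.2 _ _ ?_ hin
      intro a ha
      by_cases h : a ∈ O
      · rw [ext_in _ _ h, ext_in _ _ h]
        exact hfg ⟨a, h⟩ (by simpa using ha)
      · rw [ext_out _ _ h, ext_out _ _ h])
    (by intro o; simpa using hself o o.2) M D
    (by
      intro o f
      have h1 := hM o o.2 (ext f)
      have h3 : {t : Ω | Function.update f o t ∈ {f : O → Ω | ext f ∈ B o}} =
          {t : Ω | Function.update (ext f) (o : α) t ∈ B o} := by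
        ext t
        simp only [Set.mem_ofPred_eq, ext_update]
      rw [h3]
      exact h1)
    (by
      intro o
      refine le_trans ?_ (hD o o.2)
      rw [← Set.ncard_coe_finset, ← Set.ncard_image_of_injective _ Subtype.val_injective]
      apply Set.ncard_le_ncard
      · rintro _ ⟨o', ho', rfl⟩
        simp only [Finset.coe_filter, Finset.mem_filter, Finset.mem_univ, true_and,
          Set.mem_ofPred_eq] at ho'
        exact ⟨o'.2, ho'⟩
      · exact (Finset.finite_toSet O).subset (fun a ha => ha.1))
    h4
  exact ⟨ext f, fun o ho => hf ⟨o, ho⟩⟩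

end Pool.Agent.HypBundle
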