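import Mathlib

/-!
# Task A: packing in the hyperbolic plane
-/

set_option autoImplicit false
open scoped UpperHalfPlane
open Complex

namespace Pool.Agent.HypBundle

theorem sinh_le_mul_exp (t : ℝ) : Real.sinh t ≤ t * Real.exp t := by
  rw [Real.sinh_eq]
  have h1 : 1 - 2 * t ≤ Real.exp (-(2 * t)) := by
    have := Real.add_one_le_exp (-(2 * t))
    linarith
  have h2 : Real.exp (-t) = Real.exp t * Real.exp (-(2 * t)) := by
    rw [← Real.exp_add]
    congr 1
    ring
  have h3 := Real.exp_pos t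
  rw [h2]
  nlinarith [mul_le_mul_of_nonneg_left h1 h3.le]

theorem pack {ι : Type*} (x : ι → ℍ) {r R : ℝ} (hr : 0 < r) (hr1 : r ≤ 1) (hR : 0 ≤ R)
    (sep : ∀ i j, i ≠ j → r ≤ dist (x i) (x j)) (w : ℍ) (F : Finset ι)
    (hF : ∀ i ∈ F, dist (x i) w ≤ R) :
    (F.card : ℝ) ≤ 3 * (1 + 2 * R / r) ^ 2 * Real.exp (4 * R) := by
  classical
  have hdisj : (F : Set ι).PairwiseDisjoint
      (fun i => ((↑) : ℍ → ℂ) '' Metric.ball (x i) (r / 2)) := by
    intro i _ j _ hij
    rw [Function.onFun, Set.disjoint_image_iff UpperHalfPlane.coe_injective]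
    refine Metric.ball_disjoint_ball ?_
    linarith [sep i j hij]
  have hmeas : ∀ i ∈ F, MeasurableSet (((↑) : ℍ → ℂ) '' Metric.ball (x i) (r / 2)) := by
    intro i _
    rw [UpperHalfPlane.image_coe_ball]
    exact Metric.isOpen_ball.measurableSet
  have hsub : (⋃ i ∈ F, ((↑) : ℍ → ℂ) '' Metric.ball (x i) (r / 2)) ⊆
      ((↑) : ℍ → ℂ) '' Metric.ball w (R + r / 2) := by
    refine Set.iUnion₂_subset fun i hi => Set.image_mono ?_
    refine Metric.ball_subset_ball' ?_
    linarith [hF i hi]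
  have h1 := MeasureTheory.measure_mono (μ := MeasureTheory.volume) hsub
  rw [MeasureTheory.measure_biUnion_finset hdisj hmeas] at h1
  simp only [UpperHalfPlane.image_coe_ball, Complex.volume_ball] at h1
  have hs0 : 0 < Real.sinh (r / 2) := Real.sinh_pos_iff.2 (by linarith)
  have hS0 : 0 < Real.sinh (R + r / 2) := Real.sinh_pos_iff.2 (by linarith)
  set s := w.im / Real.exp R * Real.sinh (r / 2) with hs
  have hwim := w.im_pos
  have hspos : 0 < s := by positivity
  have h2 : ∑ i ∈ F, ENNReal.ofReal s ^ 2 * (NNReal.pi : ENNReal) ≤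
      ∑ i ∈ F, ENNReal.ofReal ((x i).im * Real.sinh (r / 2)) ^ 2 * (NNReal.pi : ENNReal) := by
    refine Finset.sum_le_sum fun i hi => ?_
    gcongr
    rw [hs]
    refine mul_le_mul_of_nonneg_right ?_ hs0.le
    have h3 := UpperHalfPlane.im_div_exp_dist_le w (x i)
    refine le_trans ?_ h3
    have h4 : dist w (x i) ≤ R := by
      rw [dist_comm]
      exact hF i hi
    gcongr
  have h3 := h2.trans h1
  rw [Finset.sum_const, nsmul_eq_mul, ← mul_assoc] at h3
  have hpi : (NNReal.pi : ENNReal) ≠ 0 := by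
    simp [NNReal.pi_ne_zero]
  have hpi' : (NNReal.pi : ENNReal) ≠ ⊤ := ENNReal.coe_ne_top
  have h4 : (F.card : ENNReal) * ENNReal.ofReal s ^ 2 ≤
      ENNReal.ofReal (w.im * Real.sinh (R + r / 2)) ^ 2 :=
    (ENNReal.mul_le_mul_iff_left hpi hpi').1 h3
  have h5 : (F.card : ℝ) * s ^ 2 ≤ (w.im * Real.sinh (R + r / 2)) ^ 2 := by
    rw [← ENNReal.ofReal_pow hspos.le, ← ENNReal.ofReal_pow (by positivity),
      ← ENNReal.ofReal_natCast, ← ENNReal.ofReal_mul (by positivity),
      ENNReal.ofReal_le_ofReal_iff (by positivity)] at h4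
    exact h4
  have h6 : r / 2 ≤ Real.sinh (r / 2) := Real.self_le_sinh_iff.2 (by linarith)
  have h7 : Real.sinh (R + r / 2) ≤ (R + r / 2) * Real.exp (R + r / 2) :=
    sinh_le_mul_exp _
  have h8 : w.im / Real.exp R * (r / 2) ≤ s := by
    rw [hs]
    gcongr
  have h9 : (F.card : ℝ) * (w.im / Real.exp R * (r / 2)) ^ 2 ≤
      (w.im * ((R + r / 2) * Real.exp (R + r / 2))) ^ 2 := by
    calc (F.card : ℝ) * (w.im / Real.exp R * (r / 2)) ^ 2 ≤ (F.card : ℝ) * s ^ 2 := by gcongr
      _ ≤ (w.im * Real.sinh (R + r / 2)) ^ 2 := h5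
      _ ≤ _ := by gcongr
  have h10 : (w.im * ((R + r / 2) * Real.exp (R + r / 2))) ^ 2 =
      ((1 + 2 * R / r) ^ 2 * Real.exp (4 * R + r)) * (w.im / Real.exp R * (r / 2)) ^ 2 := by
    have e1 : Real.exp (4 * R + r) = Real.exp (R + r / 2) ^ 2 * Real.exp R ^ 2 := by
      rw [← Real.exp_nat_mul, ← Real.exp_nat_mul, ← Real.exp_add]
      congr 1
      push_cast
      ring
    rw [e1]
    have := Real.exp_pos R
    field_simp
    ring
  rw [h10] at h9
  have h11 : 0 < (w.im / Real.exp R * (r / 2)) ^ 2 := by positivity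
  have h12 := le_of_mul_le_mul_right h9 h11
  refine h12.trans ?_
  rw [Real.exp_add]
  have h13 : Real.exp r ≤ 3 := by
    have h14 : Real.exp r ≤ Real.exp 1 := Real.exp_le_exp.2 hr1
    have := Real.exp_one_lt_d9
    linarith
  have h15 : 0 ≤ (1 + 2 * R / r) ^ 2 * Real.exp (4 * R) := by positivity
  nlinarith [mul_le_mul_of_nonneg_left h13 h15]

theorem expsum : ∃ C₁ : ℝ, 0 < C₁ ∧ ∀ {ι : Type} (x : ι → ℍ) (r l : ℝ), 0 < r → r ≤ 1 / 16 →
    1 / 2 ≤ l * r → (∀ i j, i ≠ j → r ≤ dist (x i) (x j)) → ∀ w : ℍ,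
      Summable (fun i => Real.exp (-l * dist (x i) w)) ∧
      ∑' i, Real.exp (-l * dist (x i) w) ≤ C₁ := by
  classical
  set q := Real.exp (-(1 / 4)) with hq
  have hq0 : 0 < q := Real.exp_pos _
  have hq1 : q < 1 := Real.exp_lt_one_iff.2 (by norm_num)
  set a : ℕ → ℝ := fun k => 3 * (2 * (k : ℝ) + 3) ^ 2 * Real.exp (1 / 4) * q ^ k with ha
  have ha0 : ∀ k, 0 < a k := fun k => by
    simp only [ha]
    positivity
  have hsum : Summable a := by
    have h2 := summable_pow_mul_geometric_of_norm_lt_one (R := ℝ) 2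
      (r := q) (by rw [Real.norm_eq_abs, abs_of_pos hq0]; exact hq1)
    have h1 := summable_pow_mul_geometric_of_norm_lt_one (R := ℝ) 1
      (r := q) (by rw [Real.norm_eq_abs, abs_of_pos hq0]; exact hq1)
    have h0 := summable_pow_mul_geometric_of_norm_lt_one (R := ℝ) 0
      (r := q) (by rw [Real.norm_eq_abs, abs_of_pos hq0]; exact hq1)
    have := ((h2.mul_left 12).add ((h1.mul_left 36).add (h0.mul_left 27))).mul_left
      (Real.exp (1 / 4))
    refine this.congr fun k => ?_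
    simp only [ha]
    ring
  refine ⟨∑' k, a k, hsum.tsum_pos (fun k => (ha0 k).le) 0 (ha0 0), ?_⟩
  intro ι x r l hr hr16 hlr sep w
  have hl : 0 < l := by
    by_contra hcon
    push Not at hcon
    nlinarith
  have key : ∀ F : Finset ι, ∑ i ∈ F, Real.exp (-l * dist (x i) w) ≤ ∑' k, a k := by
    intro F
    set κ : ι → ℕ := fun i => ⌊dist (x i) w / r⌋₊ with hκ
    have hκ1 : ∀ i, (κ i : ℝ) * r ≤ dist (x i) w := by
      intro i
      have h1 : (κ i : ℝ) ≤ dist (x i) w / r := Nat.floor_le (by positivity)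
      rwa [le_div_iff₀ hr] at h1
    have hκ2 : ∀ i, dist (x i) w ≤ ((κ i : ℝ) + 1) * r := by
      intro i
      have h1 : dist (x i) w / r < (κ i : ℝ) + 1 := Nat.lt_floor_add_one _
      rw [div_lt_iff₀ hr] at h1
      exact h1.le
    have hterm : ∀ i, Real.exp (-l * dist (x i) w) ≤ Real.exp (-((κ i : ℝ) / 2)) := by
      intro i
      refine Real.exp_le_exp.2 ?_
      have h1 := mul_le_mul_of_nonneg_left (hκ1 i) hl.le
      have h2 : (κ i : ℝ) * (1 / 2) ≤ (κ i : ℝ) * (l * r) :=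
        mul_le_mul_of_nonneg_left hlr (by positivity)
      nlinarith
    have hcard : ∀ k : ℕ, ((F.filter (fun i => κ i = k)).card : ℝ) ≤
        3 * (2 * (k : ℝ) + 3) ^ 2 * Real.exp (((k : ℝ) + 1) / 4) := by
      intro k
      have h1 := pack x hr (by linarith) (R := ((k : ℝ) + 1) * r) (by positivity) sep w
        (F.filter (fun i => κ i = k)) (by
          intro i hi
          have := hκ2 i
          rw [(Finset.mem_filter.1 hi).2] at this
          exact this)
      have h2 : 1 + 2 * (((k : ℝ) + 1) * r) / r = 2 * (k : ℝ) + 3 := by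
        field_simp
        ring
      rw [h2] at h1
      refine h1.trans ?_
      refine mul_le_mul_of_nonneg_left (Real.exp_le_exp.2 ?_) (by positivity)
      have h3 : ((k : ℝ) + 1) * r ≤ ((k : ℝ) + 1) * (1 / 16) :=
        mul_le_mul_of_nonneg_left hr16 (by positivity)
      linarith
    calc ∑ i ∈ F, Real.exp (-l * dist (x i) w)
        ≤ ∑ i ∈ F, Real.exp (-((κ i : ℝ) / 2)) := Finset.sum_le_sum fun i _ => hterm i
      _ = ∑ k ∈ F.image κ, ∑ i ∈ F.filter (fun i => κ i = k), Real.exp (-((κ i : ℝ) / 2)) :=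
          (Finset.sum_fiberwise_of_maps_to (fun i hi => Finset.mem_image_of_mem κ hi) _).symm
      _ ≤ ∑ k ∈ F.image κ, a k := by
          refine Finset.sum_le_sum fun k _ => ?_
          have h1 : ∑ i ∈ F.filter (fun i => κ i = k), Real.exp (-((κ i : ℝ) / 2)) =
              (F.filter (fun i => κ i = k)).card * Real.exp (-((k : ℝ) / 2)) := by
            rw [← nsmul_eq_mul, ← Finset.sum_const]
            refine Finset.sum_congr rfl fun i hi => ?_
            rw [(Finset.mem_filter.1 hi).2]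
          rw [h1]
          refine (mul_le_mul_of_nonneg_right (hcard k) (Real.exp_pos _).le).trans (le_of_eq ?_)
          simp only [ha, hq]
          have e : Real.exp (((k : ℝ) + 1) / 4) * Real.exp (-((k : ℝ) / 2)) =
              Real.exp (1 / 4) * Real.exp (k * -(1 / 4)) := by
            rw [← Real.exp_add, ← Real.exp_add]
            congr 1
            ring
          rw [← Real.exp_nat_mul, mul_assoc _ (Real.exp (((k : ℝ) + 1) / 4)), e, ← mul_assoc]
      _ ≤ ∑' k, a k := hsum.sum_le_tsum _ fun k _ => (ha0 k).le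
  have hnn : ∀ i, 0 ≤ Real.exp (-l * dist (x i) w) := fun i => (Real.exp_pos _).le
  have hs : Summable (fun i => Real.exp (-l * dist (x i) w)) := summable_of_sum_le hnn key
  exact ⟨hs, hs.tsum_le_of_sum_le key⟩

theorem one_add_le_cosh (t : ℝ) : 1 + t ^ 2 / 2 ≤ Real.cosh t := by
  have h1 : Real.cosh t = 1 + 2 * Real.sinh (t / 2) ^ 2 := by
    have h2 := Real.cosh_two_mul (t / 2)
    have h3 := Real.cosh_sq (t / 2)
    have h4 : 2 * (t / 2) = t := by ring
    rw [h4] at h2
    linarith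
  have h2 : (t / 2) ^ 2 ≤ Real.sinh (t / 2) ^ 2 := by
    rw [sq_le_sq]
    rcases le_total 0 (t / 2) with h | h
    · rw [abs_of_nonneg h, abs_of_nonneg (Real.sinh_nonneg_iff.2 h)]
      exact Real.self_le_sinh_iff.2 h
    · rw [abs_of_nonpos h, abs_of_nonpos (Real.sinh_nonpos_iff.2 h)]
      linarith [Real.sinh_le_self_iff.2 h]
  rw [h1]
  linarith

theorem cosh_pow_le {N : ℕ} (hN : 45 ≤ N) {d : ℝ} (hd : 0 ≤ d) :
    ((Real.cosh (d / 2))⁻¹) ^ N ≤ Real.exp 3 * Real.exp (-Real.sqrt N * d) := by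
  have hN0 : (45 : ℝ) ≤ N := by exact_mod_cast hN
  set s := Real.sqrt N with hs
  have hs2 : s ^ 2 = N := Real.sq_sqrt (by linarith)
  have hs0 : 0 ≤ s := Real.sqrt_nonneg _
  have hs1 : 20 / 3 ≤ s := by
    apply Real.le_sqrt_of_sq_le
    norm_num
    linarith
  set t := d / 2 with ht
  have ht0 : 0 ≤ t := by positivity
  have hd2 : d = 2 * t := by rw [ht]; ring
  have key : ∀ c : ℝ, Real.exp c ≤ Real.cosh t → 2 * s * t - 3 ≤ N * c →
      ((Real.cosh t)⁻¹) ^ N ≤ Real.exp 3 * Real.exp (-s * d) := by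
    intro c hc hle
    have h1 : (Real.cosh t)⁻¹ ≤ (Real.exp c)⁻¹ := inv_anti₀ (Real.exp_pos _) hc
    have h2 : ((Real.cosh t)⁻¹) ^ N ≤ ((Real.exp c)⁻¹) ^ N :=
      pow_le_pow_left₀ (inv_nonneg.2 (Real.cosh_pos t).le) h1 N
    refine h2.trans ?_
    rw [← Real.exp_neg, ← Real.exp_nat_mul, ← Real.exp_add]
    refine Real.exp_le_exp.2 ?_
    rw [hd2]
    linarith
  rcases le_total t 1 with h | h
  · refine key (t ^ 2 / 3) ?_ ?_
    · refine le_trans ?_ (one_add_le_cosh t)
      have h1 : 0 ≤ t ^ 2 / 3 := by positivity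
      have h2 : t ^ 2 ≤ 1 := by nlinarith
      have h3 := Real.abs_exp_sub_one_sub_id_le (x := t ^ 2 / 3)
        (by rw [abs_of_nonneg h1]; linarith)
      have h4 := (abs_le.1 h3).2
      have h5 : (t ^ 2 / 3) ^ 2 ≤ t ^ 2 / 9 := by nlinarith [sq_nonneg t]
      linarith
    · rw [← hs2]
      nlinarith [sq_nonneg (s * t - 3)]
  · refine key (3 / 10 * t) ?_ ?_
    · rw [Real.cosh_eq]
      have h1 : (2 : ℝ) ≤ Real.exp (7 / 10 * t) := by
        rw [← Real.log_le_iff_le_exp (by norm_num)]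
        have := Real.log_two_lt_d9
        linarith
      have h2 : Real.exp t = Real.exp (7 / 10 * t) * Real.exp (3 / 10 * t) := by
        rw [← Real.exp_add]
        congr 1
        ring
      have h3 := Real.exp_pos (-t)
      have h4 := mul_le_mul_of_nonneg_right h1 (Real.exp_pos (3 / 10 * t)).le
      linarith
    · rw [← hs2]
      have h1 : 2 * s ≤ s ^ 2 * (3 / 10) := by nlinarith
      have h2 := mul_le_mul_of_nonneg_right h1 ht0
      linarith

end Pool.Agent.HypBundle
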