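import Mathlib
import Pool.Agent.Lib.MP_1d980c_gt.Hyp.Defs

/-! # The peak functions (task E1 of the blueprint of MP_1d980c_gt, hyperbolic base) -/

set_option autoImplicit false
open scoped UpperHalfPlane MatrixGroups Manifold ContDiff Matrix Topology
open Complex ComplexConjugate

namespace Pool.Agent.HypBundle

lemma jf_ne {γ : SL(2, ℝ)} {w : ℂ} (hw : w ∈ HH) : jf γ w ≠ 0 := by
  intro h
  unfold jf at h
  have him := congrArg Complex.im h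
  have hre := congrArg Complex.re h
  simp at him hre
  have hw' : w.im ≠ 0 := ne_of_gt hw
  rcases him with h0 | h0
  · rw [h0] at hre
    simp at hre
    have hdet := γ.det_coe
    rw [Matrix.det_fin_two, h0, hre] at hdet
    simp at hdet
  · exact hw' h0

private lemma coe_smul_eq (γ : SL(2, ℝ)) (w : ℍ) :
    ((γ • w : ℍ) : ℂ) = ((γ 0 0 : ℝ) * w + (γ 0 1 : ℝ)) / jf γ w :=
  UpperHalfPlane.coe_specialLinearGroup_apply γ w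

private lemma coe_smul_mul (γ : SL(2, ℝ)) (w : ℍ) :
    ((γ • w : ℍ) : ℂ) * jf γ w = ((γ 0 0 : ℝ) * w + (γ 0 1 : ℝ)) := by
  rw [coe_smul_eq, div_mul_cancel₀]
  exact jf_ne w.im_pos

private lemma den_eq (o : ℍ) (γ : SL(2, ℝ)) (w : ℍ) :
    (((γ 0 0 : ℝ) * (w : ℂ) + (γ 0 1 : ℝ)) - conj (o : ℂ) * ((γ 1 0 : ℝ) * (w : ℂ) + (γ 1 1 : ℝ)) : ℂ)
      = (((γ • w : ℍ) : ℂ) - conj (o : ℂ)) * jf γ w := by
  rw [← coe_smul_mul, sub_mul]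
  rfl

private lemma sub_conj_ne (z o : ℍ) : ((z : ℂ) - conj (o : ℂ)) ≠ 0 := by
  intro h
  have him := congrArg Complex.im h
  simp at him
  have h1 := z.im_pos
  have h2 := o.im_pos
  linarith

lemma den_ne {o : ℍ} {γ : SL(2, ℝ)} {w : ℂ} (hw : w ∈ HH) :
    (((γ 0 0 : ℝ) * w + (γ 0 1 : ℝ)) - conj (o : ℂ) * ((γ 1 0 : ℝ) * w + (γ 1 1 : ℝ)) : ℂ) ≠ 0 := by
  have := den_eq o γ ⟨w, hw⟩
  rw [show ((⟨w, hw⟩ : ℍ) : ℂ) = w from rfl] at this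
  rw [this]
  exact mul_ne_zero (sub_conj_ne _ _) (jf_ne hw)

private lemma sqrt_im_ne (o : ℍ) : ((Real.sqrt o.im : ℝ) : ℂ) ≠ 0 := by
  rw [Ne, Complex.ofReal_eq_zero]
  exact (Real.sqrt_pos.2 o.im_pos).ne'

lemma ph_ne (N : ℕ) {o : ℍ} {γ : SL(2, ℝ)} {w : ℂ} (hw : w ∈ HH) : ph N o γ w ≠ 0 := by
  unfold ph
  refine pow_ne_zero _ (div_ne_zero (mul_ne_zero (mul_ne_zero two_ne_zero Complex.I_ne_zero) ?_)
    (den_ne hw))
  exact sqrt_im_ne o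

lemma differentiableOn_ph (N : ℕ) (o : ℍ) (γ : SL(2, ℝ)) : DifferentiableOn ℂ (ph N o γ) HH := by
  unfold ph
  refine DifferentiableOn.pow (DifferentiableOn.div (differentiableOn_const _) ?_ ?_) N
  · fun_prop
  · intro w hw
    exact den_ne hw

private lemma im_smul_mul (γ : SL(2, ℝ)) (w : ℍ) :
    (γ • w).im * ‖jf γ w‖ ^ 2 = w.im := by
  have h := UpperHalfPlane.im_smul_eq_div_normSq (Matrix.SpecialLinearGroup.mapGL ℝ γ) w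
  have h2 : (γ • w : ℍ) = (Matrix.SpecialLinearGroup.mapGL ℝ γ) • w := rfl
  have h3 : UpperHalfPlane.denom (Matrix.SpecialLinearGroup.mapGL ℝ γ) w = jf γ w := rfl
  rw [h2, h, h3, Complex.normSq_eq_norm_sq]
  have h4 : ‖jf γ w‖ ≠ 0 := by
    rw [norm_ne_zero_iff]; exact jf_ne w.im_pos
  have h5 : |(Matrix.SpecialLinearGroup.mapGL ℝ γ).det.val| = 1 := by
    simp
  rw [h5]
  field_simp

lemma norm_ph (N : ℕ) (o : ℍ) (γ : SL(2, ℝ)) (w : ℍ) :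
    ‖ph N o γ w‖ * Real.sqrt w.im ^ N = ((Real.cosh (dist o (γ • w) / 2))⁻¹) ^ N := by
  unfold ph
  rw [norm_pow, ← mul_pow]
  congr 1
  rw [den_eq, dist_comm, UpperHalfPlane.cosh_half_dist, norm_div, norm_mul, norm_mul, norm_mul,
    Complex.dist_eq]
  have h1 : 0 < ‖jf γ w‖ := by
    rw [norm_pos_iff]; exact jf_ne w.im_pos
  have h2 : 0 < ‖((γ • w : ℍ) : ℂ) - conj (o : ℂ)‖ := by
    rw [norm_pos_iff]; exact sub_conj_ne _ _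
  have h3 : Real.sqrt w.im = Real.sqrt (γ • w).im * ‖jf γ w‖ := by
    rw [← im_smul_mul γ w, Real.sqrt_mul (γ • w).im_pos.le, Real.sqrt_sq h1.le]
  rw [h3, Real.sqrt_mul (γ • w).im_pos.le, Complex.norm_real, Real.norm_eq_abs,
    abs_of_nonneg (Real.sqrt_nonneg _)]
  simp only [Complex.norm_ofNat, Complex.norm_I]
  field_simp

private lemma smul_lin (γ δ : SL(2, ℝ)) (w : ℍ) (i : Fin 2) :
    ((γ i 0 : ℝ) * ((δ • w : ℍ) : ℂ) + (γ i 1 : ℝ) : ℂ) * jf δ w =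
      (((γ * δ) i 0 : ℝ) : ℂ) * w + (((γ * δ) i 1 : ℝ) : ℂ) := by
  rw [add_mul, mul_assoc, coe_smul_mul]
  simp only [Matrix.SpecialLinearGroup.coe_mul, Matrix.mul_apply, Fin.sum_univ_two, jf]
  push_cast
  ring

lemma jf_mul (γ δ : SL(2, ℝ)) (w : ℍ) : jf (γ * δ) w = jf γ ((δ • w : ℍ) : ℂ) * jf δ w := by
  exact (smul_lin γ δ w 1).symm

lemma ph_smul (N : ℕ) (o : ℍ) (γ δ : SL(2, ℝ)) (w : ℍ) :
    ph N o γ ((δ • w : ℍ) : ℂ) = ph N o (γ * δ) w * jf δ w ^ N := by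
  unfold ph
  rw [← mul_pow]
  congr 1
  have h0 := smul_lin γ δ w 0
  have h1 := smul_lin γ δ w 1
  rw [← h0, ← h1]
  have hj : jf δ w ≠ 0 := jf_ne w.im_pos
  have hd : (((γ 0 0 : ℝ) * ((δ • w : ℍ) : ℂ) + (γ 0 1 : ℝ)) -
      conj (o : ℂ) * ((γ 1 0 : ℝ) * ((δ • w : ℍ) : ℂ) + (γ 1 1 : ℝ)) : ℂ) ≠ 0 :=
    den_ne (δ • w).im_pos
  have he : (((γ 0 0 : ℝ) * ((δ • w : ℍ) : ℂ) + (γ 0 1 : ℝ)) * jf δ w -
      conj (o : ℂ) * (((γ 1 0 : ℝ) * ((δ • w : ℍ) : ℂ) + (γ 1 1 : ℝ)) * jf δ w) : ℂ) =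
      (((γ 0 0 : ℝ) * ((δ • w : ℍ) : ℂ) + (γ 0 1 : ℝ)) -
      conj (o : ℂ) * ((γ 1 0 : ℝ) * ((δ • w : ℍ) : ℂ) + (γ 1 1 : ℝ))) * jf δ w := by ring
  rw [he, div_mul_eq_mul_div, mul_comm _ (jf δ w), mul_comm _ (jf δ w), mul_div_mul_left _ _ hj]

end Pool.Agent.HypBundle
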