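import Mathlib
import Pool.Agent.Lib.MP_1d980c_gt.Hyp.Pack
import Pool.Agent.Lib.MP_1d980c_gt.Hyp.Peak

set_option autoImplicit false
open scoped UpperHalfPlane MatrixGroups Manifold ContDiff Matrix Topology
open Complex ComplexConjugate

namespace Pool.Agent.HypBundle

/-- constant -/
noncomputable def CE : ℝ := Real.exp 3 * Classical.choose expsum

lemma CE_pos : 0 < CE := mul_pos (Real.exp_pos 3) (Classical.choose_spec expsum).1

section PS

variable {Γ : Subgroup SL(2, ℝ)} {N : ℕ} {O : Finset ℍ}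

lemma e2_dist (γ : Γ) (z w : ℍ) : dist (γ • z) (γ • w) = dist z w := by
  rw [Subgroup.smul_def, Subgroup.smul_def]
  exact dist_smul _ _ _

lemma e2_dist_inv (γ : Γ) (z w : ℍ) : dist (γ⁻¹ • z) w = dist z (γ • w) := by
  rw [← e2_dist γ, smul_inv_smul]

lemma e2_sqrt (hN : 256 ≤ N) : 16 ≤ Real.sqrt N := by
  have h : (256 : ℝ) ≤ N := by exact_mod_cast hN
  rw [show (16 : ℝ) = Real.sqrt 256 by
    rw [show (256 : ℝ) = 16 ^ 2 by norm_num, Real.sqrt_sq (by norm_num)]]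
  exact Real.sqrt_le_sqrt h

/-- the exponential sum over all pairs -/
lemma e2_exp (hN : 256 ≤ N) (hO : IsNet Γ (1 / Real.sqrt N) O) (w : ℍ) :
    Summable (fun x : O × Γ => Real.exp (-(Real.sqrt N / 2) * dist (x.1 : ℍ) (x.2 • w))) ∧
    Real.exp 3 * ∑' x : O × Γ, Real.exp (-(Real.sqrt N / 2) * dist (x.1 : ℍ) (x.2 • w)) ≤ CE := by
  have hs := e2_sqrt hN
  have hs0 : Real.sqrt N ≠ 0 := by positivity
  have h := (Classical.choose_spec expsum).2 (fun x : O × Γ => x.2⁻¹ • (x.1 : ℍ))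
    (1 / Real.sqrt N) (Real.sqrt N / 2) (by positivity) (one_div_le_one_div_of_le (by norm_num) hs)
    (le_of_eq (by field_simp))
    (fun i j hij => by
      rw [e2_dist_inv, smul_smul]
      refine hO.sep _ i.1.2 _ j.1.2 _ ?_
      by_contra hcon
      push Not at hcon
      refine hij (Prod.ext (Subtype.ext hcon.1) ?_)
      exact mul_inv_eq_one.mp hcon.2) w
  simp only [e2_dist_inv] at h
  exact ⟨h.1, mul_le_mul_of_nonneg_left h.2 (Real.exp_pos 3).le⟩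

/-- the pointwise bound of the terms -/
lemma e2_term (hN : 256 ≤ N) {C d : ℝ} (hC2 : 2 * C ≤ Real.sqrt N) (hd : 0 ≤ d) :
    ((Real.cosh (d / 2))⁻¹) ^ N * Real.exp (C * d) ≤
      Real.exp 3 * Real.exp (-(Real.sqrt N / 2) * d) := by
  calc ((Real.cosh (d / 2))⁻¹) ^ N * Real.exp (C * d)
      ≤ (Real.exp 3 * Real.exp (-Real.sqrt N * d)) * Real.exp (C * d) :=
        mul_le_mul_of_nonneg_right (cosh_pow_le (by omega) hd) (Real.exp_pos _).le
    _ = Real.exp 3 * Real.exp (-Real.sqrt N * d + C * d) := by rw [Real.exp_add]; ring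
    _ ≤ Real.exp 3 * Real.exp (-(Real.sqrt N / 2) * d) := by
        refine mul_le_mul_of_nonneg_left (Real.exp_le_exp.mpr ?_) (Real.exp_pos 3).le
        nlinarith

/-- summability over all pairs `(o, γ)`, with exponential weights -/
theorem summable_all (hN : 256 ≤ N) (hO : IsNet Γ (1 / Real.sqrt N) O) {C : ℝ} (hC : 0 ≤ C)
    (hC2 : 2 * C ≤ Real.sqrt N) (w : ℍ) :
    Summable (fun x : O × Γ => ((Real.cosh (dist (x.1 : ℍ) (x.2 • w) / 2))⁻¹) ^ N *
      Real.exp (C * dist (x.1 : ℍ) (x.2 • w))) ∧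
    ∑' x : O × Γ, ((Real.cosh (dist (x.1 : ℍ) (x.2 • w) / 2))⁻¹) ^ N *
      Real.exp (C * dist (x.1 : ℍ) (x.2 • w)) ≤ CE := by
  obtain ⟨h1, h2⟩ := e2_exp hN hO w
  have h3 := h1.mul_left (Real.exp 3)
  have h4 : Summable (fun x : O × Γ => ((Real.cosh (dist (x.1 : ℍ) (x.2 • w) / 2))⁻¹) ^ N *
      Real.exp (C * dist (x.1 : ℍ) (x.2 • w))) := by
    refine Summable.of_nonneg_of_le (fun x => ?_) (fun x => e2_term hN hC2 dist_nonneg) h3
    have := Real.cosh_pos (dist (x.1 : ℍ) (x.2 • w) / 2)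
    positivity
  refine ⟨h4, le_trans ?_ h2⟩
  rw [← tsum_mul_left]
  exact h4.tsum_le_tsum (fun x => e2_term hN hC2 dist_nonneg) h3

theorem summable_PS (hN : 256 ≤ N) (hO : IsNet Γ (1 / Real.sqrt N) O) {A : ℍ → Γ → ℂ} {B C : ℝ}
    (hC : 0 ≤ C) (hC2 : 2 * C ≤ Real.sqrt N) (w : ℍ)
    (hA : ∀ o ∈ O, ∀ γ : Γ, ‖A o γ‖ ≤ B * Real.exp (C * dist o (γ • w))) {o : ℍ} (ho : o ∈ O) :
    Summable (fun γ : Γ => ph N o (γ : SL(2, ℝ)) w * A o γ) := by
  have h1 := (summable_all hN hO hC hC2 w).1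
  have h2 : Summable (fun γ : Γ => ((Real.cosh (dist o (γ • w) / 2))⁻¹) ^ N *
      Real.exp (C * dist o (γ • w))) :=
    h1.comp_injective (i := fun γ : Γ => ((⟨o, ho⟩ : O), γ)) (fun a b h => by simpa using h)
  have hw : 0 < Real.sqrt w.im ^ N := by
    have := w.im_pos
    positivity
  refine Summable.of_norm_bounded (g := fun γ : Γ => (B / Real.sqrt w.im ^ N) *
    (((Real.cosh (dist o (γ • w) / 2))⁻¹) ^ N * Real.exp (C * dist o (γ • w))))
    (h2.mul_left _) (fun γ => ?_)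
  have h3 := norm_ph N o (γ : SL(2, ℝ)) w
  have h4 : ((Real.cosh (dist o (γ • w) / 2))⁻¹) ^ N =
      ‖ph N o (γ : SL(2, ℝ)) w‖ * Real.sqrt w.im ^ N := h3.symm
  rw [norm_mul, h4]
  calc ‖ph N o (γ : SL(2, ℝ)) w‖ * ‖A o γ‖
      ≤ ‖ph N o (γ : SL(2, ℝ)) w‖ * (B * Real.exp (C * dist o (γ • w))) :=
        mul_le_mul_of_nonneg_left (hA o ho γ) (norm_nonneg _)
    _ = _ := by field_simp

/-- general bound -/
lemma e2_main (hN : 256 ≤ N) (hO : IsNet Γ (1 / Real.sqrt N) O) {A : ℍ → Γ → ℂ} {D : ℝ}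
    (hD : 0 ≤ D) (w : ℍ)
    (hA : ∀ o ∈ O, ∀ γ : Γ, ((Real.cosh (dist o (γ • w) / 2))⁻¹) ^ N * ‖A o γ‖ ≤
      D * (Real.exp 3 * Real.exp (-(Real.sqrt N / 2) * dist o (γ • w)))) :
    ‖PS Γ N O A w‖ * Real.sqrt w.im ^ N ≤ CE * D := by
  obtain ⟨h1, h2⟩ := e2_exp hN hO w
  set E : O × Γ → ℝ := fun x => D * (Real.exp 3 * Real.exp (-(Real.sqrt N / 2) *
    dist (x.1 : ℍ) (x.2 • w))) with hE
  have hEs : Summable E := (h1.mul_left _).mul_left _
  have hEt : ∑' x, E x ≤ CE * D := by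
    rw [hE, tsum_mul_left, tsum_mul_left, mul_comm]
    exact mul_le_mul_of_nonneg_right h2 hD
  have hw : 0 < Real.sqrt w.im ^ N := by
    have := w.im_pos
    positivity
  have hb : ∀ (x : O × Γ), ‖ph N (x.1 : ℍ) (x.2 : SL(2, ℝ)) w * A x.1 x.2‖ *
      Real.sqrt w.im ^ N ≤ E x := by
    intro x
    have h3 : ((Real.cosh (dist (x.1 : ℍ) (x.2 • w) / 2))⁻¹) ^ N =
        ‖ph N (x.1 : ℍ) (x.2 : SL(2, ℝ)) w‖ * Real.sqrt w.im ^ N :=
      (norm_ph N (x.1 : ℍ) (x.2 : SL(2, ℝ)) w).symm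
    have h4 := hA x.1 x.1.2 x.2
    rw [h3] at h4
    rw [norm_mul]
    calc _ = ‖ph N (x.1 : ℍ) (x.2 : SL(2, ℝ)) w‖ * Real.sqrt w.im ^ N * ‖A x.1 x.2‖ := by ring
      _ ≤ _ := h4
  have hs : Summable (fun x : O × Γ => ‖ph N (x.1 : ℍ) (x.2 : SL(2, ℝ)) w * A x.1 x.2‖) := by
    refine Summable.of_nonneg_of_le (fun x => norm_nonneg _)
      (fun x => (le_div_iff₀ hw).mpr (hb x)) (hEs.div_const _)
  have h5 : ‖PS Γ N O A w‖ ≤ ∑' x : O × Γ, ‖ph N (x.1 : ℍ) (x.2 : SL(2, ℝ)) w * A x.1 x.2‖ := by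
    rw [hs.tsum_prod, tsum_fintype]
    unfold PS
    rw [← Finset.sum_coe_sort O]
    refine (norm_sum_le _ _).trans (Finset.sum_le_sum fun o _ => ?_)
    exact norm_tsum_le_tsum_norm (hs.prod_factor o)
  calc ‖PS Γ N O A w‖ * Real.sqrt w.im ^ N
      ≤ (∑' x : O × Γ, ‖ph N (x.1 : ℍ) (x.2 : SL(2, ℝ)) w * A x.1 x.2‖) *
          Real.sqrt w.im ^ N := mul_le_mul_of_nonneg_right h5 hw.le
    _ = ∑' x : O × Γ, ‖ph N (x.1 : ℍ) (x.2 : SL(2, ℝ)) w * A x.1 x.2‖ *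
          Real.sqrt w.im ^ N := tsum_mul_right.symm
    _ ≤ ∑' x, E x := (hs.mul_right _).tsum_le_tsum hb hEs
    _ ≤ CE * D := hEt

theorem norm_PS_le (hN : 256 ≤ N) (hO : IsNet Γ (1 / Real.sqrt N) O) {A : ℍ → Γ → ℂ} {B C : ℝ}
    (hB : 0 ≤ B) (hC : 0 ≤ C) (hC2 : 2 * C ≤ Real.sqrt N) (w : ℍ)
    (hA : ∀ o ∈ O, ∀ γ : Γ, ‖A o γ‖ ≤ B * Real.exp (C * dist o (γ • w))) :
    ‖PS Γ N O A w‖ * Real.sqrt w.im ^ N ≤ CE * B := by
  refine e2_main hN hO hB w fun o ho γ => ?_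
  have h1 := e2_term hN hC2 (dist_nonneg (x := o) (y := γ • w))
  have h2 : 0 ≤ ((Real.cosh (dist o (γ • w) / 2))⁻¹) ^ N := by
    have := Real.cosh_pos (dist o (γ • w) / 2)
    positivity
  calc _ ≤ ((Real.cosh (dist o (γ • w) / 2))⁻¹) ^ N * (B * Real.exp (C * dist o (γ • w))) :=
        mul_le_mul_of_nonneg_left (hA o ho γ) h2
    _ = B * (((Real.cosh (dist o (γ • w) / 2))⁻¹) ^ N * Real.exp (C * dist o (γ • w))) := by ring
    _ ≤ _ := mul_le_mul_of_nonneg_left h1 hB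

/-- if moreover the coefficients are small near `w`, then the series is small -/
theorem norm_PS_le_small (hN : 256 ≤ N) (hO : IsNet Γ (1 / Real.sqrt N) O) {A : ℍ → Γ → ℂ}
    {B C ε η : ℝ} (hB : 0 ≤ B) (hε : 0 ≤ ε) (hη : 0 ≤ η)
    (hC : 0 ≤ C) (hC4 : 4 * C ≤ Real.sqrt N) (w : ℍ)
    (hA : ∀ o ∈ O, ∀ γ : Γ, ‖A o γ‖ ≤ B * Real.exp (C * dist o (γ • w)))
    (hA' : ∀ o ∈ O, ∀ γ : Γ, dist o (γ • w) ≤ η → ‖A o γ‖ ≤ ε) :
    ‖PS Γ N O A w‖ * Real.sqrt w.im ^ N ≤ CE * (ε + B * Real.exp (-(Real.sqrt N / 4) * η)) := by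
  have hs := e2_sqrt hN
  refine e2_main hN hO (by positivity) w fun o ho γ => ?_
  set d := dist o (γ • w) with hd
  have hd0 : 0 ≤ d := dist_nonneg
  have h2 : 0 ≤ ((Real.cosh (d / 2))⁻¹) ^ N := by
    have := Real.cosh_pos (d / 2)
    positivity
  have h0 : 0 ≤ Real.exp 3 * Real.exp (-(Real.sqrt N / 2) * d) := by positivity
  rw [add_mul]
  rcases le_or_gt d η with h | h
  · have h1 := e2_term hN (C := 0) (by linarith) hd0
    rw [zero_mul, Real.exp_zero, mul_one] at h1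
    have h3 : 0 ≤ B * Real.exp (-(Real.sqrt N / 4) * η) *
        (Real.exp 3 * Real.exp (-(Real.sqrt N / 2) * d)) := by positivity
    calc _ ≤ ((Real.cosh (d / 2))⁻¹) ^ N * ε := mul_le_mul_of_nonneg_left (hA' o ho γ h) h2
      _ = ε * ((Real.cosh (d / 2))⁻¹) ^ N := mul_comm _ _
      _ ≤ ε * (Real.exp 3 * Real.exp (-(Real.sqrt N / 2) * d)) :=
          mul_le_mul_of_nonneg_left h1 hε
      _ ≤ _ := by linarith
  · have h3 : 0 ≤ ε * (Real.exp 3 * Real.exp (-(Real.sqrt N / 2) * d)) := by positivity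
    calc _ ≤ ((Real.cosh (d / 2))⁻¹) ^ N * (B * Real.exp (C * d)) :=
          mul_le_mul_of_nonneg_left (hA o ho γ) h2
      _ ≤ (Real.exp 3 * Real.exp (-Real.sqrt N * d)) * (B * Real.exp (C * d)) :=
          mul_le_mul_of_nonneg_right (cosh_pow_le (by omega) hd0) (by positivity)
      _ = B * Real.exp 3 * Real.exp (-Real.sqrt N * d + C * d) := by rw [Real.exp_add]; ring
      _ ≤ B * Real.exp 3 * Real.exp (-(Real.sqrt N / 4) * η + -(Real.sqrt N / 2) * d) := by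
          refine mul_le_mul_of_nonneg_left (Real.exp_le_exp.mpr ?_) (by positivity)
          nlinarith
      _ = B * Real.exp (-(Real.sqrt N / 4) * η) *
            (Real.exp 3 * Real.exp (-(Real.sqrt N / 2) * d)) := by rw [Real.exp_add]; ring
      _ ≤ _ := by linarith

/-- automorphy (no convergence needed) -/
theorem PS_smul (A : ℍ → Γ → ℂ) (δ : Γ) (w : ℍ) :
    PS Γ N O A ((δ • w : ℍ) : ℂ) = jf (δ : SL(2, ℝ)) w ^ N *
      PS Γ N O (fun o γ => A o (γ * δ⁻¹)) w := by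
  unfold PS
  rw [Finset.mul_sum]
  refine Finset.sum_congr rfl fun o _ => ?_
  rw [← tsum_mul_left]
  refine Eq.trans (tsum_congr fun γ => ?_) ((Equiv.mulRight δ).tsum_eq _)
  simp only [Equiv.coe_mulRight, mul_inv_cancel_right]
  have h := ph_smul N o (γ : SL(2, ℝ)) (δ : SL(2, ℝ)) w
  have h1 : ((δ • w : ℍ) : ℂ) = (((δ : SL(2, ℝ)) • w : ℍ) : ℂ) := rfl
  rw [h1, h, Subgroup.coe_mul]
  ring

theorem differentiableOn_PS (hN : 256 ≤ N) (hO : IsNet Γ (1 / Real.sqrt N) O) {A : ℍ → Γ → ℂ}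
    {B C : ℝ} (hC : 0 ≤ C) (hC2 : 2 * C ≤ Real.sqrt N) (w₀ : ℍ)
    (hA : ∀ o ∈ O, ∀ γ : Γ, ‖A o γ‖ ≤ B * Real.exp (C * dist o (γ • w₀))) :
    DifferentiableOn ℂ (PS Γ N O A) HH := by
  intro z₁ hz₁
  set w₁ : ℍ := ⟨z₁, hz₁⟩ with hw₁
  set U : Set ℂ := (fun w : ℍ => (w : ℂ)) '' Metric.ball w₁ 1 with hU
  have hUo : IsOpen U := UpperHalfPlane.isOpenEmbedding_coe.isOpenMap _ Metric.isOpen_ball
  have hzU : z₁ ∈ U := ⟨w₁, Metric.mem_ball_self one_pos, rfl⟩
  have hUH : U ⊆ HH := by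
    rintro _ ⟨w, _, rfl⟩
    exact w.im_pos
  have key : DifferentiableOn ℂ (PS Γ N O A) U := by
    unfold PS
    refine DifferentiableOn.fun_sum fun o ho => ?_
    -- the constants
    set M : ℝ := dist w₀ w₁ + 1 with hM
    have hs1 := (e2_exp hN hO w₀).1
    have hs2 : Summable (fun γ : Γ => Real.exp (-(Real.sqrt N / 2) * dist o (γ • w₀))) :=
      hs1.comp_injective (i := fun γ : Γ => ((⟨o, ho⟩ : O), γ)) (fun a b h => by simpa using h)
    set q : ℝ := Real.sqrt (w₁.im / Real.exp 1) ^ N with hq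
    have hq0 : 0 < q := by
      have := w₁.im_pos
      positivity
    refine Complex.differentiableOn_tsum_of_summable_norm
      (u := fun γ : Γ => (Real.exp 3 * Real.exp (Real.sqrt N * M) * B / q) *
        Real.exp (-(Real.sqrt N / 2) * dist o (γ • w₀)))
      (hs2.mul_left _) (fun γ => ?_) hUo (fun γ w hw => ?_)
    · exact ((differentiableOn_ph N o _).mono hUH).mul_const _
    · obtain ⟨w, hw, rfl⟩ := hw
      have hwd : dist w w₁ < 1 := hw
      have h1 := norm_ph N o (γ : SL(2, ℝ)) w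
      have h2 : q ≤ Real.sqrt w.im ^ N := by
        rw [hq]
        refine pow_le_pow_left₀ (Real.sqrt_nonneg _) (Real.sqrt_le_sqrt ?_) _
        refine le_trans ?_ (UpperHalfPlane.im_div_exp_dist_le w₁ w)
        refine div_le_div_of_nonneg_left w₁.im_pos.le (Real.exp_pos _) (Real.exp_le_exp.mpr ?_)
        rw [dist_comm]
        exact hwd.le
      have h3 : dist o (γ • w₀) - M ≤ dist o (γ • w) := by
        have h4 : dist o (γ • w₀) ≤ dist o (γ • w) + dist (γ • w) (γ • w₀) := dist_triangle _ _ _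
        rw [e2_dist] at h4
        have h5 : dist w w₀ ≤ dist w w₁ + dist w₁ w₀ := dist_triangle _ _ _
        rw [dist_comm w₁ w₀] at h5
        linarith
      have h6 : ((Real.cosh (dist o (γ • w) / 2))⁻¹) ^ N ≤
          Real.exp 3 * Real.exp (-Real.sqrt N * dist o (γ • w)) :=
        cosh_pow_le (by omega) dist_nonneg
      have h7 : ‖ph N o (γ : SL(2, ℝ)) w‖ * q ≤
          Real.exp 3 * Real.exp (-Real.sqrt N * dist o (γ • w)) := by
        refine le_trans (mul_le_mul_of_nonneg_left h2 (norm_nonneg _)) ?_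
        rw [h1]
        exact h6
      have hs := e2_sqrt hN
      have hAo := hA o ho γ
      have hB0 : 0 ≤ B * Real.exp (C * dist o (γ • w₀)) := (norm_nonneg _).trans hAo
      rw [norm_mul, div_mul_eq_mul_div, le_div_iff₀ hq0]
      calc ‖ph N o (γ : SL(2, ℝ)) w‖ * ‖A o γ‖ * q
          = ‖ph N o (γ : SL(2, ℝ)) w‖ * q * ‖A o γ‖ := by ring
        _ ≤ (Real.exp 3 * Real.exp (-Real.sqrt N * dist o (γ • w))) *
              (B * Real.exp (C * dist o (γ • w₀))) :=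
            mul_le_mul h7 hAo (norm_nonneg _) (by positivity)
        _ = Real.exp 3 * (B * (Real.exp (-Real.sqrt N * dist o (γ • w)) *
              Real.exp (C * dist o (γ • w₀)))) := by ring
        _ = Real.exp 3 * (B * Real.exp (-Real.sqrt N * dist o (γ • w) +
              C * dist o (γ • w₀))) := by rw [Real.exp_add]
        _ ≤ Real.exp 3 * (B * Real.exp (Real.sqrt N * M +
              -(Real.sqrt N / 2) * dist o (γ • w₀))) := by
            have hB : 0 ≤ B := by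
              by_contra hneg
              push Not at hneg
              have : B * Real.exp (C * dist o (γ • w₀)) < 0 :=
                mul_neg_of_neg_of_pos hneg (Real.exp_pos _)
              linarith
            refine mul_le_mul_of_nonneg_left (mul_le_mul_of_nonneg_left
              (Real.exp_le_exp.mpr ?_) hB) (Real.exp_pos 3).le
            have hd0 : 0 ≤ dist o (γ • w₀) := dist_nonneg
            nlinarith
        _ = Real.exp 3 * Real.exp (Real.sqrt N * M) * B *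
              Real.exp (-(Real.sqrt N / 2) * dist o (γ • w₀)) := by rw [Real.exp_add]; ring
  exact ((key z₁ hzU).differentiableAt (hUo.mem_nhds hzU)).differentiableWithinAt

end PS
end Pool.Agent.HypBundle
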