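import Mathlib
import Pool.Agent.Lib.MP_1d980c_gt.Hyp.Poincare
import Pool.Agent.Lib.MP_1d980c_gt.Hyp.Count

set_option autoImplicit false
open scoped UpperHalfPlane MatrixGroups Manifold ContDiff Matrix Topology
open Complex ComplexConjugate

namespace Pool.Agent.HypBundle

/-! ### counting lattice points -/

lemma pen_card_int (n : ℕ) (x : ℝ) : Set.ncard {k : Fin n | |(k : ℝ) + x| < 1} ≤ 2 := by
  have hsub : ((fun k : Fin n => ((k : ℕ) : ℤ)) '' {k : Fin n | |(k : ℝ) + x| < 1}) ⊆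
      ((Finset.Icc ⌈-x - 1⌉ ⌊-x + 1⌋ : Finset ℤ) : Set ℤ) ∩ {z | |(z : ℝ) + x| < 1} := by
    rintro _ ⟨k, hk, rfl⟩
    simp only [Set.mem_ofPred_eq] at hk
    have h := abs_lt.1 hk
    refine ⟨?_, ?_⟩
    · rw [Finset.mem_coe, Finset.mem_Icc]
      constructor
      · rw [Int.ceil_le]; push_cast; linarith
      · rw [Int.le_floor]; push_cast; linarith
    · simpa using hk
  have hsub2 : (((Finset.Icc ⌈-x - 1⌉ ⌊-x + 1⌋ : Finset ℤ) : Set ℤ) ∩ {z | |(z : ℝ) + x| < 1}) ⊆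
      {⌊-x⌋, ⌊-x⌋ + 1} := by
    rintro z ⟨-, hz⟩
    simp only [Set.mem_ofPred_eq] at hz
    have h := abs_lt.1 hz
    have h1 : (z : ℝ) < ⌊-x⌋ + 1 + 1 := by
      have := Int.lt_floor_add_one (-x); linarith
    have h2 : (⌊-x⌋ : ℝ) - 1 < z := by
      have := Int.floor_le (-x); linarith
    have h1' : z < ⌊-x⌋ + 1 + 1 := by exact_mod_cast h1
    have h2' : ⌊-x⌋ - 1 < z := by exact_mod_cast h2
    simp only [Set.mem_insert_iff, Set.mem_singleton_iff]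
    omega
  have hinj : Function.Injective (fun k : Fin n => ((k : ℕ) : ℤ)) := by
    intro a b h
    apply Fin.ext
    simpa using h
  calc Set.ncard {k : Fin n | |(k : ℝ) + x| < 1}
      = Set.ncard ((fun k : Fin n => ((k : ℕ) : ℤ)) '' {k : Fin n | |(k : ℝ) + x| < 1}) :=
        (Set.ncard_image_of_injective _ hinj).symm
    _ ≤ Set.ncard ({⌊-x⌋, ⌊-x⌋ + 1} : Set ℤ) :=
        Set.ncard_le_ncard (hsub.trans hsub2) (by simp)
    _ ≤ 2 := Set.ncard_insert_le _ _ |>.trans (by simp)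

/-- The grid value. -/
noncomputable def pen_val (n : ℕ) (k : Fin n × Fin n) : ℂ :=
  ((k.1 : ℝ) : ℂ) / n + ((k.2 : ℝ) : ℂ) / n * Complex.I

lemma pen_val_norm {n : ℕ} (k : Fin n × Fin n) : ‖pen_val n k‖ ≤ 2 := by
  have hn : (0 : ℝ) < n := by
    have := k.1.pos; exact_mod_cast this
  have h : ∀ j : Fin n, ‖(((j : ℝ) : ℂ)) / n‖ ≤ 1 := by
    intro j
    rw [norm_div, Complex.norm_natCast, Complex.norm_real, Real.norm_eq_abs,
      abs_of_nonneg (by positivity), div_le_one hn]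
    exact_mod_cast j.isLt.le
  calc ‖pen_val n k‖ ≤ ‖(((k.1 : ℝ) : ℂ)) / n‖ + ‖(((k.2 : ℝ) : ℂ)) / n * Complex.I‖ := norm_add_le _ _
    _ ≤ 1 + 1 := by
        refine add_le_add (h _) ?_
        rw [norm_mul, Complex.norm_I, mul_one]
        exact h _
    _ = 2 := by norm_num

lemma pen_card_val {n : ℕ} (hn : 0 < n) (c : ℂ) :
    Set.ncard {k : Fin n × Fin n | ‖pen_val n k + c‖ < 1 / n} ≤ 4 := by
  have hn' : (0 : ℝ) < n := by exact_mod_cast hn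
  have hsub : {k : Fin n × Fin n | ‖pen_val n k + c‖ < 1 / n} ⊆
      {k : Fin n | |(k : ℝ) + n * c.re| < 1} ×ˢ {k : Fin n | |(k : ℝ) + n * c.im| < 1} := by
    rintro ⟨k, l⟩ h
    simp only [Set.mem_ofPred_eq] at h
    have hre : (pen_val n (k, l) + c).re = ((k : ℝ) + n * c.re) / n := by
      simp [pen_val]
      field_simp
    have him : (pen_val n (k, l) + c).im = ((l : ℝ) + n * c.im) / n := by
      simp [pen_val]
      field_simp
    have h1 := (Complex.abs_re_le_norm _).trans_lt h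
    have h2 := (Complex.abs_im_le_norm _).trans_lt h
    rw [hre, abs_div, abs_of_pos hn', div_lt_div_iff_of_pos_right hn'] at h1
    rw [him, abs_div, abs_of_pos hn', div_lt_div_iff_of_pos_right hn'] at h2
    exact ⟨h1, h2⟩
  calc _ ≤ _ := Set.ncard_le_ncard hsub (Set.toFinite _)
    _ = _ := Set.ncard_prod
    _ ≤ 2 * 2 := Nat.mul_le_mul (pen_card_int n _) (pen_card_int n _)
    _ = 4 := rfl

/-! ### geometry -/

lemma pen_geo {o : ℍ} {r : ℝ} (hr : 0 < r) (hr1 : r ≤ 1 / 16) {z : ℂ}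
    (hz : ‖z - o‖ ≤ 3 * r * o.im) : ∃ z' : ℍ, (z' : ℂ) = z ∧ dist o z' ≤ 4 * r := by
  have ho := o.im_pos
  have h1 : |z.im - o.im| ≤ 3 * r * o.im := by
    have := Complex.abs_im_le_norm (z - o)
    rw [Complex.sub_im, UpperHalfPlane.coe_im] at this
    exact this.trans hz
  have h2 : (13 / 16) * o.im ≤ z.im := by
    have := (abs_le.1 h1).1
    nlinarith
  have hz0 : 0 < z.im := by nlinarith
  refine ⟨⟨z, hz0⟩, rfl, ?_⟩
  have h3 := UpperHalfPlane.dist_le_dist_coe_div_sqrt o ⟨z, hz0⟩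
  refine h3.trans ?_
  have h4 : (3 / 4) * o.im ≤ Real.sqrt (o.im * UpperHalfPlane.im ⟨z, hz0⟩) := by
    apply Real.le_sqrt_of_sq_le
    change ((3 / 4) * o.im) ^ 2 ≤ o.im * z.im
    nlinarith
  rw [div_le_iff₀ (by nlinarith)]
  have h5 : dist (o : ℂ) ((⟨z, hz0⟩ : ℍ) : ℂ) ≤ 3 * r * o.im := by
    rw [dist_comm, Complex.dist_eq]
    exact hz
  calc dist (o : ℂ) ((⟨z, hz0⟩ : ℍ) : ℂ) ≤ 3 * r * o.im := h5
    _ = 4 * r * ((3 / 4) * o.im) := by ring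
    _ ≤ _ := by gcongr

lemma pen_ph {N : ℕ} (hN : 256 ≤ N) {o z : ℍ} (hz : dist o z ≤ 4 / Real.sqrt N) :
    Real.exp (-2) ≤ ‖ph N o 1 z‖ * Real.sqrt z.im ^ N := by
  have hN0 : (0 : ℝ) < N := by
    have : 0 < N := by omega
    exact_mod_cast this
  have hs : 0 < Real.sqrt N := Real.sqrt_pos.2 hN0
  rw [norm_ph, one_smul, inv_pow]
  have h1 : Real.cosh (dist o z / 2) ≤ Real.exp (2 / N) := by
    have h2 : |dist o z / 2| ≤ |2 / Real.sqrt N| := by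
      rw [abs_of_nonneg (by positivity), abs_of_nonneg (by positivity)]
      rw [div_le_iff₀ (by norm_num)]
      calc dist o z ≤ 4 / Real.sqrt N := hz
        _ = 2 / Real.sqrt N * 2 := by ring
    refine (Real.cosh_le_cosh.2 h2).trans ((Real.cosh_le_exp_half_sq _).trans (le_of_eq ?_))
    congr 1
    rw [div_pow, Real.sq_sqrt hN0.le]
    ring
  have h3 : Real.cosh (dist o z / 2) ^ N ≤ Real.exp 2 := by
    calc Real.cosh (dist o z / 2) ^ N ≤ Real.exp (2 / N) ^ N :=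
          pow_le_pow_left₀ (Real.cosh_pos _).le h1 N
      _ = Real.exp 2 := by
          rw [← Real.exp_nat_mul]
          congr 1
          field_simp
  rw [Real.exp_neg]
  exact inv_anti₀ (pow_pos (Real.cosh_pos _) N) h3

lemma pen_inv {N : ℕ} (hN : 256 ≤ N) {o z : ℍ} (hz : dist o z ≤ 4 / Real.sqrt N) {X : ℂ} {K : ℝ}
    (hX : ‖X‖ * Real.sqrt z.im ^ N ≤ K) : ‖X / ph N o 1 z‖ ≤ K * Real.exp 2 := by
  have hs : 0 < Real.sqrt z.im ^ N := pow_pos (Real.sqrt_pos.2 z.im_pos) N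
  have h1 := pen_ph hN hz
  have h2 : 0 < ‖ph N o 1 z‖ * Real.sqrt z.im ^ N := (Real.exp_pos _).trans_le h1
  have h3 : 0 ≤ K := (mul_nonneg (norm_nonneg _) hs.le).trans hX
  rw [norm_div]
  have h4 : ‖X‖ / ‖ph N o 1 z‖ = (‖X‖ * Real.sqrt z.im ^ N) / (‖ph N o 1 z‖ * Real.sqrt z.im ^ N) := by
    rw [mul_div_mul_right _ _ hs.ne']
  rw [h4, div_le_iff₀ h2]
  calc ‖X‖ * Real.sqrt z.im ^ N ≤ K := hX
    _ = K * Real.exp 2 * Real.exp (-2) := by
        rw [mul_assoc, ← Real.exp_add]; norm_num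
    _ ≤ _ := by gcongr

/-! ### truncation -/

open scoped Classical in
/-- truncated coefficients -/
noncomputable def trc (Γ : Subgroup SL(2, ℝ)) (R : ℝ) (o : ℍ) (a : ℍ → ℂ) : ℍ → Γ → ℂ :=
  fun o' γ => if dist o' (γ • o) ≤ R then a o' else 0

/-- the neighbours -/
noncomputable def nbs (Γ : Subgroup SL(2, ℝ)) (R : ℝ) (O : Finset ℍ) (o : ℍ) : Finset ℍ :=
  @Finset.filter _ (fun o' => ∃ γ : Γ, dist o' (γ • o) ≤ R) (Classical.decPred _) O

lemma mem_nbs {Γ : Subgroup SL(2, ℝ)} {R : ℝ} {O : Finset ℍ} {o o' : ℍ} :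
    o' ∈ nbs Γ R O o ↔ o' ∈ O ∧ ∃ γ : Γ, dist o' (γ • o) ≤ R :=
  @Finset.mem_filter _ _ (Classical.decPred _) _ _

section Trunc

variable {Γ : Subgroup SL(2, ℝ)} {N : ℕ} {O : Finset ℍ} {R : ℝ}

lemma pen_dep {o : ℍ} {a b : ℍ → ℂ} (h : ∀ o' ∈ nbs Γ R O o, a o' = b o') (t : ℂ) :
    PS Γ N O (trc Γ R o a) t = PS Γ N O (trc Γ R o b) t := by
  unfold PS
  refine Finset.sum_congr rfl fun o' ho' => ?_
  congr 1
  funext γ
  unfold trc
  split_ifs with h1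
  · rw [h o' (mem_nbs.2 ⟨ho', γ, h1⟩)]
  · rfl

open scoped Classical in
lemma pen_upd {o : ℍ} (ho : o ∈ O) {ι₀ : ℝ} (hι : ∀ γ : Γ, γ ≠ 1 → ∀ w : ℍ, ι₀ ≤ dist w (γ • w))
    (hR : R < ι₀) (hR0 : 0 ≤ R) (a : ℍ → ℂ) (x : ℂ) (t : ℂ) :
    PS Γ N O (trc Γ R o (Function.update a o x)) t =
      ph N o 1 t * x + PS Γ N O (trc Γ R o (Function.update a o 0)) t := by
  unfold PS
  rw [← Finset.add_sum_erase O _ ho, ← Finset.add_sum_erase O _ ho, ← add_assoc]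
  have key : ∀ y : ℂ, (∑' γ : Γ, ph N o (γ : SL(2, ℝ)) t * trc Γ R o (Function.update a o y) o γ) =
      ph N o 1 t * y := by
    intro y
    rw [tsum_eq_single (1 : Γ)]
    · unfold trc
      rw [one_smul, dist_self, if_pos hR0, Function.update_self, Subgroup.coe_one]
    · intro γ hγ
      unfold trc
      rw [if_neg, mul_zero]
      have := hι γ hγ o
      linarith
  rw [key, key, mul_zero, add_zero]
  congr 1
  refine Finset.sum_congr rfl fun o' ho' => ?_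
  have hne : o' ≠ o := (Finset.mem_erase.1 ho').1
  congr 1
  funext γ
  unfold trc
  rw [Function.update_of_ne hne, Function.update_of_ne hne]

end Trunc

lemma pen_dist_smul {Γ : Subgroup SL(2, ℝ)} (γ : Γ) (x y : ℍ) : dist (γ • x) (γ • y) = dist x y :=
  dist_smul (γ : SL(2, ℝ)) x y

/-! ### counting neighbours -/

lemma pen_nb {Γ : Subgroup SL(2, ℝ)} {r R : ℝ} {O : Finset ℍ} (hr : 0 < r) (hr1 : r ≤ 1)
    (hR : 0 ≤ R) (hO : IsNet Γ r O) (o : ℍ) {D : ℕ}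
    (hD : 3 * (1 + 2 * R / r) ^ 2 * Real.exp (4 * R) ≤ D) :
    Set.ncard {o' : ℍ | o' ∈ O ∧ o ∈ nbs Γ R O o'} ≤ D := by
  have hfin : {o' : ℍ | o' ∈ O ∧ o ∈ nbs Γ R O o'}.Finite :=
    O.finite_toSet.subset fun o' h => h.1
  have hch : ∀ o' : hfin.toFinset, ∃ γ : Γ, dist (o : ℍ) (γ • (o' : ℍ)) ≤ R := by
    rintro ⟨o', ho'⟩
    rw [Set.Finite.mem_toFinset] at ho'
    exact (mem_nbs.1 ho'.2).2
  choose γ hγ using hch
  have hmem : ∀ o' : hfin.toFinset, (o' : ℍ) ∈ O := by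
    rintro ⟨o', ho'⟩
    rw [Set.Finite.mem_toFinset] at ho'
    exact ho'.1
  have h := pack (fun o' : hfin.toFinset => γ o' • (o' : ℍ)) hr hr1 hR ?_ o Finset.univ ?_
  · rw [Set.ncard_eq_toFinset_card _ hfin]
    rw [Finset.card_univ, Fintype.card_coe] at h
    exact_mod_cast h.trans hD
  · intro i j hij
    have e : dist (γ i • (i : ℍ)) (γ j • (j : ℍ)) = dist (i : ℍ) (((γ i)⁻¹ * γ j) • (j : ℍ)) := by
      rw [mul_smul, ← pen_dist_smul (γ i) (i : ℍ), smul_inv_smul]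
    rw [e]
    exact hO.sep _ (hmem i) _ (hmem j) _ (Or.inl fun h => hij (Subtype.ext h))
  · intro i _
    rw [dist_comm]
    exact hγ i

/-! ### tails -/

section Tail

variable {Γ : Subgroup SL(2, ℝ)} {N : ℕ} {O : Finset ℍ}

lemma pen_summable (hN : 256 ≤ N) (hO : IsNet Γ (1 / Real.sqrt N) O) {A : ℍ → Γ → ℂ}
    (hA : ∀ o γ, ‖A o γ‖ ≤ 2) (w : ℍ) {o : ℍ} (ho : o ∈ O) :
    Summable (fun γ : Γ => ph N o (γ : SL(2, ℝ)) w * A o γ) := by
  refine summable_PS (B := 2) (C := 0) hN hO le_rfl (by simp) w ?_ ho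
  intro o _ γ
  rw [zero_mul, Real.exp_zero, mul_one]
  exact hA o γ

lemma pen_sub (hN : 256 ≤ N) (hO : IsNet Γ (1 / Real.sqrt N) O) {A B : ℍ → Γ → ℂ}
    (hA : ∀ o γ, ‖A o γ‖ ≤ 2) (hB : ∀ o γ, ‖B o γ‖ ≤ 2) (w : ℍ) :
    PS Γ N O A w - PS Γ N O B w = PS Γ N O (fun o γ => A o γ - B o γ) w := by
  unfold PS
  rw [← Finset.sum_sub_distrib]
  refine Finset.sum_congr rfl fun o ho => ?_
  rw [← (pen_summable hN hO hA w ho).tsum_sub (pen_summable hN hO hB w ho)]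
  congr 1
  funext γ
  ring

lemma trc_norm {R : ℝ} {o : ℍ} {a : ℍ → ℂ} (ha : ∀ o, ‖a o‖ ≤ 2) (o' : ℍ) (γ : Γ) :
    ‖trc Γ R o a o' γ‖ ≤ 2 := by
  unfold trc
  split_ifs
  · exact ha _
  · simp

lemma pen_tail (hN : 256 ≤ N) (hO : IsNet Γ (1 / Real.sqrt N) O) {a : ℍ → ℂ}
    (ha : ∀ o, ‖a o‖ ≤ 2) {o t : ℍ} (hot : dist o t ≤ 4 / Real.sqrt N) {D : ℝ} (hD : 0 ≤ D) :
    ‖PS Γ N O (fun o' _ => a o') t - PS Γ N O (trc Γ ((D + 4) / Real.sqrt N) o a) t‖ *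
      Real.sqrt t.im ^ N ≤ CE * (2 * Real.exp (-(D / 4))) := by
  have hN0 : (0 : ℝ) < N := by
    have : 0 < N := by omega
    exact_mod_cast this
  have hs : 0 < Real.sqrt N := Real.sqrt_pos.2 hN0
  rw [pen_sub hN hO (fun o _ => ha o) (fun o γ => trc_norm ha o γ) t]
  have h := norm_PS_le_small (A := fun o' γ => a o' - trc Γ ((D + 4) / Real.sqrt N) o a o' γ)
    (B := 2) (C := 0) (ε := 0) (η := D / Real.sqrt N) hN hO (by norm_num) le_rfl (by positivity)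
    le_rfl (by simp) t ?_ ?_
  · refine h.trans (le_of_eq ?_)
    rw [zero_add]
    congr 3
    field_simp
  · intro o' _ γ
    rw [zero_mul, Real.exp_zero, mul_one]
    unfold trc
    split_ifs
    · simp
    · simpa using ha o'
  · intro o' _ γ hd
    unfold trc
    rw [if_pos]
    · simp
    · calc dist o' (γ • o) ≤ dist o' (γ • t) + dist (γ • t) (γ • o) := dist_triangle _ _ _
        _ ≤ D / Real.sqrt N + 4 / Real.sqrt N := by
            rw [pen_dist_smul, dist_comm t o]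
            exact add_le_add hd hot
        _ = (D + 4) / Real.sqrt N := by ring

/-! ### Lipschitz estimate -/

/-- the constant -/
noncomputable def K0 : ℝ := CE * 2 * Real.exp 2

lemma K0_pos : 0 < K0 := by
  unfold K0
  have := CE_pos
  positivity

/-- the normalised series near `o` -/
noncomputable def FF (Γ : Subgroup SL(2, ℝ)) (N : ℕ) (O : Finset ℍ) (a : ℍ → ℂ) (o : ℍ) (z : ℂ) : ℂ :=
  PS Γ N O (fun o' _ => a o') z / ph N o 1 z

lemma pen_diff (hN : 256 ≤ N) (hO : IsNet Γ (1 / Real.sqrt N) O) {a : ℍ → ℂ}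
    (ha : ∀ o, ‖a o‖ ≤ 2) (o : ℍ) : DifferentiableOn ℂ (FF Γ N O a o) HH := by
  have h1 : DifferentiableOn ℂ (PS Γ N O (fun o' _ => a o')) HH := by
    refine differentiableOn_PS (B := 2) (C := 0) hN hO le_rfl (by simp) UpperHalfPlane.I ?_
    intro o _ γ
    rw [zero_mul, Real.exp_zero, mul_one]
    exact ha o
  exact h1.div (differentiableOn_ph N o 1) fun z hz => ph_ne N hz

lemma pen_isOpen_HH : IsOpen HH := isOpen_lt continuous_const Complex.continuous_im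

lemma pen_r {N : ℕ} (hN : 256 ≤ N) : 0 < 1 / Real.sqrt N ∧ 1 / Real.sqrt N ≤ 1 / 16 := by
  have h16 : (16 : ℝ) ≤ Real.sqrt N := by
    apply Real.le_sqrt_of_sq_le
    have : (256 : ℝ) ≤ N := by exact_mod_cast hN
    linarith
  constructor
  · have : 0 < Real.sqrt N := by linarith
    positivity
  · exact one_div_le_one_div_of_le (by norm_num) h16

lemma pen_bound (hN : 256 ≤ N) (hO : IsNet Γ (1 / Real.sqrt N) O) {a : ℍ → ℂ}
    (ha : ∀ o, ‖a o‖ ≤ 2) {o : ℍ} {z : ℂ} (hz : ‖z - o‖ ≤ 3 * (1 / Real.sqrt N) * o.im) :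
    z ∈ HH ∧ ‖FF Γ N O a o z‖ ≤ K0 := by
  obtain ⟨hr, hr1⟩ := pen_r hN
  obtain ⟨z', rfl, hz'⟩ := pen_geo hr hr1 hz
  refine ⟨z'.im_pos, ?_⟩
  refine pen_inv hN (by rw [show (4 : ℝ) / Real.sqrt N = 4 * (1 / Real.sqrt N) by ring]; exact hz') ?_
  refine norm_PS_le (B := 2) (C := 0) hN hO (by norm_num) le_rfl (by simp) z' ?_
  intro o _ γ
  rw [zero_mul, Real.exp_zero, mul_one]
  exact ha o

lemma pen_lip (hN : 256 ≤ N) (hO : IsNet Γ (1 / Real.sqrt N) O) {a : ℍ → ℂ}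
    (ha : ∀ o, ‖a o‖ ≤ 2) {o : ℍ} {z t : ℂ} (hz : ‖z - o‖ ≤ 2 * (1 / Real.sqrt N) * o.im)
    (ht : ‖t - o‖ ≤ 2 * (1 / Real.sqrt N) * o.im) :
    ‖FF Γ N O a o z - FF Γ N O a o t‖ ≤ K0 / (1 / Real.sqrt N * o.im) * ‖z - t‖ := by
  obtain ⟨hr, hr1⟩ := pen_r hN
  set r := 1 / Real.sqrt N with hrdef
  have ho := o.im_pos
  have hro : 0 < r * o.im := mul_pos hr ho
  have hs : Convex ℝ (Metric.closedBall (o : ℂ) (2 * r * o.im)) := convex_closedBall _ _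
  have hsub : ∀ x ∈ Metric.closedBall (o : ℂ) (2 * r * o.im), ∀ y ∈ Metric.closedBall x (r * o.im),
      y ∈ HH ∧ ‖FF Γ N O a o y‖ ≤ K0 := by
    intro x hx y hy
    apply pen_bound hN hO ha
    rw [Metric.mem_closedBall, Complex.dist_eq] at hx hy
    calc ‖y - o‖ = ‖(y - x) + (x - o)‖ := by congr 1; ring
      _ ≤ ‖y - x‖ + ‖x - o‖ := norm_add_le _ _
      _ ≤ r * o.im + 2 * r * o.im := add_le_add hy hx
      _ = 3 * (1 / Real.sqrt N) * o.im := by rw [← hrdef]; ring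
  have hdiff : ∀ x ∈ Metric.closedBall (o : ℂ) (2 * r * o.im), DifferentiableAt ℂ (FF Γ N O a o) x := by
    intro x hx
    have := (hsub x hx x (Metric.mem_closedBall_self hro.le)).1
    exact (pen_diff hN hO ha o).differentiableAt (pen_isOpen_HH.mem_nhds this)
  refine Convex.norm_image_sub_le_of_norm_deriv_le hdiff ?_ hs ?_ ?_
  · intro x hx
    refine Complex.norm_deriv_le_of_forall_mem_sphere_norm_le hro ?_ ?_
    · refine DifferentiableOn.diffContOnCl ?_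
      rw [closure_ball x hro.ne']
      exact (pen_diff hN hO ha o).mono fun y hy => (hsub x hx y hy).1
    · intro y hy
      exact (hsub x hx y (Metric.sphere_subset_closedBall hy)).2
  · rw [Metric.mem_closedBall, Complex.dist_eq]; exact ht
  · rw [Metric.mem_closedBall, Complex.dist_eq]; exact hz

end Tail

/-! ### the events -/

section Events

variable (Γ : Subgroup SL(2, ℝ)) (N : ℕ) (O : Finset ℍ) (R : ℝ) (n n₁ : ℕ)

/-- the test points -/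
noncomputable def tp (o : ℍ) (s : ℤ × ℤ) : ℂ :=
  (o : ℂ) + ((1 / Real.sqrt N * o.im / n₁ : ℝ) : ℂ) * (((s.1 : ℝ) : ℂ) + ((s.2 : ℝ) : ℂ) * Complex.I)

/-- indices of test points -/
noncomputable def SS : Finset (ℤ × ℤ) := Finset.Icc (-(2 * n₁ : ℤ)) (2 * n₁) ×ˢ Finset.Icc (-(2 * n₁ : ℤ)) (2 * n₁)

lemma card_SS : (SS n₁).card = (4 * n₁ + 1) ^ 2 := by
  unfold SS
  rw [Finset.card_product, Int.card_Icc, sq]
  have : (2 * (n₁ : ℤ) + 1 - -(2 * (n₁ : ℤ))).toNat = 4 * n₁ + 1 := by omega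
  rw [this]

/-- the value at a test point -/
noncomputable def GG (a : ℍ → ℂ) (o : ℍ) (z : ℂ) : ℂ := PS Γ N O (trc Γ R o a) z / ph N o 1 z

/-- the bad event -/
def Bad (o : ℍ) : Set (ℍ → (Fin n × Fin n) × (Fin n × Fin n)) :=
  {f | ∃ s ∈ SS n₁, ‖GG Γ N O R (fun x => pen_val n (f x).1) o (tp N n₁ o s)‖ < 1 / n ∧
    ‖GG Γ N O R (fun x => pen_val n (f x).2) o (tp N n₁ o s)‖ < 1 / n}

variable {Γ N O R n n₁}

lemma tp_dist (hN : 256 ≤ N) (hn₁ : 0 < n₁) (o : ℍ) {s : ℤ × ℤ} (hs : s ∈ SS n₁) :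
    ‖tp N n₁ o s - o‖ ≤ 3 * (1 / Real.sqrt N) * o.im := by
  obtain ⟨hr, hr1⟩ := pen_r hN
  have ho := o.im_pos
  have hn : (0 : ℝ) < n₁ := by exact_mod_cast hn₁
  unfold SS at hs
  rw [Finset.mem_product, Finset.mem_Icc, Finset.mem_Icc] at hs
  obtain ⟨⟨h1, h2⟩, h3, h4⟩ := hs
  have h1' : (-(2 * n₁) : ℝ) ≤ s.1 := by exact_mod_cast h1
  have h2' : (s.1 : ℝ) ≤ 2 * n₁ := by exact_mod_cast h2
  have h3' : (-(2 * n₁) : ℝ) ≤ s.2 := by exact_mod_cast h3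
  have h4' : (s.2 : ℝ) ≤ 2 * n₁ := by exact_mod_cast h4
  unfold tp
  rw [add_sub_cancel_left, norm_mul, Complex.norm_real, Real.norm_eq_abs,
    abs_of_nonneg (by positivity)]
  have h5 : ‖(((s.1 : ℝ) : ℂ) + ((s.2 : ℝ) : ℂ) * Complex.I)‖ ≤ 3 * n₁ := by
    rw [Complex.norm_add_mul_I, Real.sqrt_le_iff]
    constructor
    · positivity
    · nlinarith [mul_nonneg (sub_nonneg.2 h2') (by linarith : (0:ℝ) ≤ (s.1 : ℝ) + 2 * n₁),
        mul_nonneg (sub_nonneg.2 h4') (by linarith : (0:ℝ) ≤ (s.2 : ℝ) + 2 * n₁)]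
  calc 1 / Real.sqrt N * o.im / n₁ * ‖(((s.1 : ℝ) : ℂ) + ((s.2 : ℝ) : ℂ) * Complex.I)‖
      ≤ 1 / Real.sqrt N * o.im / n₁ * (3 * n₁) := by gcongr
    _ = 3 * (1 / Real.sqrt N) * o.im := by field_simp

open scoped Classical in
lemma pen_GG {o : ℍ} (ho : o ∈ O) {ι₀ : ℝ} (hι : ∀ γ : Γ, γ ≠ 1 → ∀ w : ℍ, ι₀ ≤ dist w (γ • w))
    (hR : R < ι₀) (hR0 : 0 ≤ R) (a : ℍ → ℂ) (x : ℂ) {t : ℂ} (ht : t ∈ HH) :
    GG Γ N O R (Function.update a o x) o t = x + GG Γ N O R (Function.update a o 0) o t := by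
  unfold GG
  rw [pen_upd ho hι hR hR0, add_div, mul_div_cancel_left₀ _ (ph_ne N ht)]

open scoped Classical in
lemma pen_M (hN : 256 ≤ N) (hn : 0 < n) (hn₁ : 0 < n₁) {o : ℍ} (ho : o ∈ O) {ι₀ : ℝ}
    (hι : ∀ γ : Γ, γ ≠ 1 → ∀ w : ℍ, ι₀ ≤ dist w (γ • w)) (hR : R < ι₀) (hR0 : 0 ≤ R)
    (f : ℍ → (Fin n × Fin n) × (Fin n × Fin n)) :
    Set.ncard {t | Function.update f o t ∈ Bad Γ N O R n n₁ o} ≤
      16 * (4 * n₁ + 1) ^ 2 := by
  obtain ⟨hr, hr1⟩ := pen_r hN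
  have hHH : ∀ s ∈ SS n₁, tp N n₁ o s ∈ HH := by
    intro s hs
    obtain ⟨z', hz', -⟩ := pen_geo hr hr1 (tp_dist hN hn₁ o hs)
    rw [← hz']
    exact z'.im_pos
  have hsub : {t | Function.update f o t ∈ Bad Γ N O R n n₁ o} ⊆
      ⋃ s ∈ SS n₁,
        {k : Fin n × Fin n | ‖pen_val n k +
          GG Γ N O R (Function.update (fun x => pen_val n (f x).1) o 0) o (tp N n₁ o s)‖ < 1 / n} ×ˢ
        {k : Fin n × Fin n | ‖pen_val n k +
          GG Γ N O R (Function.update (fun x => pen_val n (f x).2) o 0) o (tp N n₁ o s)‖ < 1 / n} := by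
    rintro t ⟨s, hs, h1, h2⟩
    simp only [Set.mem_iUnion]
    refine ⟨s, hs, ?_⟩
    have e1 : (fun x => pen_val n ((Function.update f o t) x).1) =
        Function.update (fun x => pen_val n (f x).1) o (pen_val n t.1) := by
      funext x
      by_cases hx : x = o
      · subst hx; simp
      · simp [Function.update_of_ne hx]
    have e2 : (fun x => pen_val n (Function.update f o t x).2) =
        Function.update (fun x => pen_val n (f x).2) o (pen_val n t.2) := by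
      funext x
      by_cases hx : x = o
      · subst hx; simp
      · simp [Function.update_of_ne hx]
    rw [e1, pen_GG ho hι hR hR0 _ _ (hHH s hs)] at h1
    rw [e2, pen_GG ho hι hR hR0 _ _ (hHH s hs)] at h2
    exact ⟨h1, h2⟩
  calc _ ≤ _ := Set.ncard_le_ncard hsub (Set.toFinite _)
    _ ≤ _ := Finset.set_ncard_biUnion_le _ _
    _ ≤ ∑ s ∈ SS n₁, 16 := by
        refine Finset.sum_le_sum fun s _ => ?_
        rw [Set.ncard_prod]
        calc _ ≤ 4 * 4 := Nat.mul_le_mul (pen_card_val hn _) (pen_card_val hn _)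
          _ = 16 := rfl
    _ = 16 * (4 * n₁ + 1) ^ 2 := by
        rw [Finset.sum_const, card_SS, smul_eq_mul, mul_comm]

end Events

/-! ### choice of the parameters -/

lemma pen_poly {C D : ℕ} (hC : 1 ≤ C) (hD : 1320 * C ≤ D) :
    4 * (9 * (2 * D + 9) ^ 2) * (16 * (4 * (C * D ^ 2) + 1) ^ 2) ≤ (D ^ 2) ^ 4 := by
  have hD1 : 1 ≤ D := by omega
  have h1 : 2 * D + 9 ≤ 11 * D := by omega
  have h2 : 4 * (C * D ^ 2) + 1 ≤ 5 * (C * D ^ 2) := by
    have : 1 ≤ C * D ^ 2 := Nat.one_le_iff_ne_zero.2 (by positivity)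
    omega
  calc 4 * (9 * (2 * D + 9) ^ 2) * (16 * (4 * (C * D ^ 2) + 1) ^ 2)
      ≤ 4 * (9 * (11 * D) ^ 2) * (16 * (5 * (C * D ^ 2)) ^ 2) := by gcongr
    _ = (1320 * C) ^ 2 * D ^ 6 := by ring
    _ ≤ D ^ 2 * D ^ 6 := by gcongr
    _ = (D ^ 2) ^ 4 := by ring

lemma pen_exp (K : ℝ) : ∃ D₀ : ℕ, ∀ D : ℕ, D₀ ≤ D → K * (D : ℝ) ^ 2 * Real.exp (-((D : ℝ) / 4)) ≤ 1 := by
  have h1 : Filter.Tendsto (fun D : ℕ => (D : ℝ) / 4) Filter.atTop Filter.atTop :=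
    Filter.Tendsto.atTop_div_const (by norm_num) tendsto_natCast_atTop_atTop
  have h2 := (Real.tendsto_pow_mul_exp_neg_atTop_nhds_zero 2).comp h1
  have h3 : Filter.Tendsto (fun D : ℕ => K * 16 * (((D : ℝ) / 4) ^ 2 * Real.exp (-((D : ℝ) / 4))))
      Filter.atTop (𝓝 (K * 16 * 0)) := h2.const_mul _
  rw [mul_zero] at h3
  have h4 := h3.eventually (ge_mem_nhds (show (0 : ℝ) < 1 by norm_num))
  obtain ⟨D₀, hD₀⟩ := Filter.eventually_atTop.1 h4
  refine ⟨D₀, fun D hD => ?_⟩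
  have h5 := hD₀ D hD
  calc _ = K * 16 * (((D : ℝ) / 4) ^ 2 * Real.exp (-((D : ℝ) / 4))) := by ring
    _ ≤ 1 := h5

/-- rounding -/
lemma pen_round {n₁ : ℕ} (hn₁ : 2 ≤ n₁) {x : ℝ} (hx : |x| ≤ 3 / 2) :
    ∃ k : ℤ, k ∈ Finset.Icc (-(2 * n₁ : ℤ)) (2 * n₁) ∧ |x - k / n₁| ≤ 1 / 2 / n₁ := by
  have hn : (0 : ℝ) < n₁ := by
    have : 0 < n₁ := by omega
    exact_mod_cast this
  have hn2 : (2 : ℝ) ≤ n₁ := by exact_mod_cast hn₁
  refine ⟨round (x * n₁), ?_, ?_⟩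
  · have h := abs_le.1 (abs_sub_round (x * n₁))
    have hx' := abs_le.1 hx
    rw [Finset.mem_Icc]
    constructor
    · have : ((-(2 * n₁ : ℤ) : ℤ) : ℝ) ≤ round (x * n₁) := by
        push_cast
        nlinarith
      exact_mod_cast this
    · have : (round (x * n₁) : ℝ) ≤ ((2 * n₁ : ℤ) : ℝ) := by
        push_cast
        nlinarith
      exact_mod_cast this
  · have h := abs_sub_round (x * n₁)
    have e : x - (round (x * n₁) : ℝ) / n₁ = (x * n₁ - round (x * n₁)) / n₁ := by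
      field_simp
    rw [e, abs_div, abs_of_pos hn]
    gcongr

lemma pen_near {N n₁ : ℕ} (hN : 256 ≤ N) (hn₁ : 2 ≤ n₁) {o : ℍ} {w : ℍ}
    (hw : dist o w ≤ 1 / Real.sqrt N) :
    ‖(w : ℂ) - o‖ ≤ 2 * (1 / Real.sqrt N) * o.im ∧ ∃ s ∈ SS n₁,
      ‖tp N n₁ o s - o‖ ≤ 2 * (1 / Real.sqrt N) * o.im ∧
      ‖(w : ℂ) - tp N n₁ o s‖ ≤ 1 / Real.sqrt N * o.im / n₁ := by
  obtain ⟨hr, hr1⟩ := pen_r hN
  set r := 1 / Real.sqrt N with hrdef
  have ho := o.im_pos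
  have hn : (0 : ℝ) < n₁ := by
    have : 0 < n₁ := by omega
    exact_mod_cast this
  have hn2 : (2 : ℝ) ≤ n₁ := by exact_mod_cast hn₁
  have hro : 0 < r * o.im := mul_pos hr ho
  have h1 : ‖(w : ℂ) - o‖ ≤ (3 / 2) * (r * o.im) := by
    have h2 := UpperHalfPlane.dist_coe_le w o
    rw [Complex.dist_eq, dist_comm] at h2
    refine h2.trans ?_
    have h3 : Real.exp (dist o w) ≤ Real.exp r := Real.exp_le_exp.2 hw
    have h4 : Real.exp r ≤ 1 + (3 / 2) * r := by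
      have h5 := Real.exp_bound' hr.le (by linarith) (n := 2) (by norm_num)
      simp [Finset.sum_range_succ] at h5
      nlinarith
    nlinarith
  have hx : |((w : ℂ) - o).re / (r * o.im)| ≤ 3 / 2 := by
    rw [abs_div, abs_of_pos hro, div_le_iff₀ hro]
    exact (Complex.abs_re_le_norm _).trans h1
  have hy : |((w : ℂ) - o).im / (r * o.im)| ≤ 3 / 2 := by
    rw [abs_div, abs_of_pos hro, div_le_iff₀ hro]
    exact (Complex.abs_im_le_norm _).trans h1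
  obtain ⟨k, hk, hk'⟩ := pen_round hn₁ hx
  obtain ⟨l, hl, hl'⟩ := pen_round hn₁ hy
  have h5 : ‖(w : ℂ) - tp N n₁ o (k, l)‖ ≤ r * o.im / n₁ := by
    have e : (w : ℂ) - tp N n₁ o (k, l) = ((r * o.im : ℝ) : ℂ) *
        (((((w : ℂ) - o).re / (r * o.im) - k / n₁ : ℝ) : ℂ) +
          ((((w : ℂ) - o).im / (r * o.im) - l / n₁ : ℝ) : ℂ) * Complex.I) := by
      have hro' : ((r * o.im : ℝ) : ℂ) ≠ 0 := by
        rw [Complex.ofReal_ne_zero]; exact hro.ne'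
      have hdec : (w : ℂ) - o = ((((w : ℂ) - o).re : ℝ) : ℂ) + ((((w : ℂ) - o).im : ℝ) : ℂ) * Complex.I :=
        (Complex.re_add_im _).symm
      have hnc : (n₁ : ℂ) ≠ 0 := by exact_mod_cast hn.ne'
      have hr' : (r : ℂ) ≠ 0 := Complex.ofReal_ne_zero.2 hr.ne'
      have ho' : ((o.im : ℝ) : ℂ) ≠ 0 := Complex.ofReal_ne_zero.2 ho.ne'
      unfold tp
      rw [← hrdef]
      have e1 : (w : ℂ) - ((o : ℂ) + ((r * o.im / n₁ : ℝ) : ℂ) * (((((k, l) : ℤ × ℤ).1 : ℝ) : ℂ) +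
          ((((k, l) : ℤ × ℤ).2 : ℝ) : ℂ) * Complex.I)) = ((w : ℂ) - o) -
          ((r * o.im / n₁ : ℝ) : ℂ) * (((k : ℝ) : ℂ) + ((l : ℝ) : ℂ) * Complex.I) := by ring
      rw [e1]
      conv_lhs => rw [hdec]
      push_cast
      field_simp
      ring
    rw [e, norm_mul, Complex.norm_real, Real.norm_eq_abs, abs_of_pos hro,
      div_eq_mul_one_div (r * o.im) (n₁ : ℝ)]
    refine mul_le_mul_of_nonneg_left ?_ hro.le
    refine (norm_add_le _ _).trans ?_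
    rw [norm_mul, Complex.norm_I, mul_one, Complex.norm_real, Complex.norm_real, Real.norm_eq_abs,
      Real.norm_eq_abs]
    calc _ ≤ 1 / 2 / (n₁ : ℝ) + 1 / 2 / n₁ := add_le_add hk' hl'
      _ = 1 / n₁ := by ring
  refine ⟨by nlinarith, (k, l), ?_, ?_, h5⟩
  · unfold SS
    rw [Finset.mem_product]
    exact ⟨hk, hl⟩
  · calc ‖tp N n₁ o (k, l) - o‖ = ‖((w : ℂ) - o) - (w - tp N n₁ o (k, l))‖ := by congr 1; ring
      _ ≤ ‖(w : ℂ) - o‖ + ‖(w : ℂ) - tp N n₁ o (k, l)‖ := norm_sub_le _ _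
      _ ≤ (3 / 2) * (r * o.im) + r * o.im / n₁ := add_le_add h1 h5
      _ ≤ (3 / 2) * (r * o.im) + r * o.im / 2 := by gcongr
      _ = 2 * r * o.im := by ring

lemma pen_im (γ : SL(2, ℝ)) (w : ℍ) : ‖jf γ w‖ * Real.sqrt (γ • w).im = Real.sqrt w.im := by
  have h1 : (γ • w).im * ‖jf γ w‖ ^ 2 = w.im := by
    have h := UpperHalfPlane.im_smul_eq_div_normSq (Matrix.SpecialLinearGroup.mapGL ℝ γ) w
    have h2 : (γ • w : ℍ) = (Matrix.SpecialLinearGroup.mapGL ℝ γ) • w := rfl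
    have h3 : UpperHalfPlane.denom (Matrix.SpecialLinearGroup.mapGL ℝ γ) w = jf γ w := rfl
    rw [h2, h, h3, Complex.normSq_eq_norm_sq]
    have h4 : ‖jf γ w‖ ≠ 0 := by
      rw [norm_ne_zero_iff]; exact jf_ne w.im_pos
    have h5 : |(Matrix.SpecialLinearGroup.mapGL ℝ γ).det.val| = 1 := by
      simp
    rw [h5]
    field_simp
  rw [← h1, Real.sqrt_mul (γ • w).im_pos.le, Real.sqrt_sq (norm_nonneg _), mul_comm]

lemma pen_aut {Γ : Subgroup SL(2, ℝ)} {N : ℕ} {O : Finset ℍ} (a : ℍ → ℂ) (δ : Γ) (w : ℍ) :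
    ‖PS Γ N O (fun o _ => a o) ((δ • w : ℍ) : ℂ)‖ * Real.sqrt (δ • w).im ^ N =
      ‖PS Γ N O (fun o _ => a o) w‖ * Real.sqrt w.im ^ N := by
  rw [PS_smul, norm_mul, norm_pow]
  have hj : ‖jf (δ : SL(2, ℝ)) w‖ * Real.sqrt (δ • w).im = Real.sqrt w.im := pen_im _ w
  rw [← hj, mul_pow]
  ring

theorem pencils (Γ : Subgroup SL(2, ℝ)) {ι₀ : ℝ} (hι0 : 0 < ι₀)
    (hι : ∀ γ : Γ, γ ≠ 1 → ∀ w : ℍ, ι₀ ≤ dist w (γ • w)) :
    ∃ (c : ℝ) (N₀ : ℕ), 0 < c ∧ ∀ N : ℕ, N₀ ≤ N → ∀ O : Finset ℍ, IsNet Γ (1 / Real.sqrt N) O →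
      ∃ a b : ℍ → ℂ, (∀ o, ‖a o‖ ≤ 2) ∧ (∀ o, ‖b o‖ ≤ 2) ∧ ∀ w : ℍ,
        c ≤ max (‖PS Γ N O (fun o _ => a o) w‖ * Real.sqrt w.im ^ N)
          (‖PS Γ N O (fun o _ => b o) w‖ * Real.sqrt w.im ^ N) := by
  classical
  -- the constants
  obtain ⟨C₀, hC₀⟩ := exists_nat_ge (4 * K0 + 2)
  have hK0 := K0_pos
  have hCE := CE_pos
  have hC₀2 : 2 ≤ C₀ := by
    have : (2 : ℝ) ≤ C₀ := by linarith
    exact_mod_cast this
  obtain ⟨D₁, hD₁⟩ := pen_exp (8 * (CE * Real.exp 2))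
  obtain ⟨D, hD⟩ : ∃ D, D = max (1320 * C₀) D₁ := ⟨_, rfl⟩
  have hDC : 1320 * C₀ ≤ D := by rw [hD]; exact le_max_left _ _
  have hDe := hD₁ D (by rw [hD]; exact le_max_right _ _)
  have hD1 : 1 ≤ D := by omega
  have hDr : (1 : ℝ) ≤ D := by exact_mod_cast hD1
  set n := D ^ 2 with hn
  set n₁ := C₀ * n with hn₁
  have hn0 : 0 < n := by positivity
  have hn1 : 1 ≤ n := hn0
  have hn₁2 : 2 ≤ n₁ := by
    calc 2 = 2 * 1 := rfl
      _ ≤ C₀ * n := Nat.mul_le_mul hC₀2 hn1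
  have hnr : (0 : ℝ) < n := by exact_mod_cast hn0
  have hn₁r : (0 : ℝ) < n₁ := by
    have : 0 < n₁ := by omega
    exact_mod_cast this
  -- the threshold for `N`
  obtain ⟨N₀, hN₀⟩ := exists_nat_ge (256 + (4 * (D + 4)) ^ 2 + ((D + 4) / ι₀ + 1) ^ 2 : ℝ)
  refine ⟨1 / (2 * n) * Real.exp (-2), N₀, by positivity, ?_⟩
  intro N hN O hO
  have hNr : (256 + (4 * (D + 4)) ^ 2 + ((D + 4) / ι₀ + 1) ^ 2 : ℝ) ≤ N :=
    hN₀.trans (by exact_mod_cast hN)
  have hN256 : 256 ≤ N := by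
    have : (256 : ℝ) ≤ N := by nlinarith [sq_nonneg (4 * ((D : ℝ) + 4)), sq_nonneg (((D : ℝ) + 4) / ι₀ + 1)]
    exact_mod_cast this
  obtain ⟨hr, hr1⟩ := pen_r hN256
  have hs : 0 < Real.sqrt N := by
    have := hr; rw [one_div, inv_pos] at this; exact this
  have hs1 : 4 * ((D : ℝ) + 4) ≤ Real.sqrt N := by
    apply Real.le_sqrt_of_sq_le
    nlinarith [sq_nonneg (4 * ((D : ℝ) + 4)), sq_nonneg (((D : ℝ) + 4) / ι₀ + 1)]
  have hs2 : ((D : ℝ) + 4) / ι₀ + 1 ≤ Real.sqrt N := by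
    apply Real.le_sqrt_of_sq_le
    nlinarith [sq_nonneg (4 * ((D : ℝ) + 4)), sq_nonneg (((D : ℝ) + 4) / ι₀ + 1)]
  set R : ℝ := ((D : ℝ) + 4) / Real.sqrt N with hR
  have hR0 : 0 ≤ R := by positivity
  have hRι : R < ι₀ := by
    rw [hR, div_lt_iff₀ hs]
    have h1 : ((D : ℝ) + 4) / ι₀ < Real.sqrt N := by linarith
    rw [div_lt_iff₀ hι0] at h1
    linarith
  have hR4 : 4 * R ≤ 1 := by
    rw [hR, ← mul_div_assoc, div_le_one hs]
    exact hs1
  -- the number of neighbours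
  have hDn : 3 * (1 + 2 * R / (1 / Real.sqrt N)) ^ 2 * Real.exp (4 * R) ≤ ((9 * (2 * D + 9) ^ 2 : ℕ) : ℝ) := by
    have e1 : 1 + 2 * R / (1 / Real.sqrt N) = 2 * D + 9 := by
      rw [hR]; field_simp; ring
    rw [e1]
    have e2 : Real.exp (4 * R) ≤ 3 :=
      (Real.exp_le_exp.2 hR4).trans (by have := Real.exp_one_lt_d9; linarith)
    push_cast
    have : (0 : ℝ) ≤ (2 * D + 9) ^ 2 := sq_nonneg _
    nlinarith
  have : Nonempty ((Fin n × Fin n) × (Fin n × Fin n)) := ⟨((⟨0, hn0⟩, ⟨0, hn0⟩), (⟨0, hn0⟩, ⟨0, hn0⟩))⟩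
  obtain ⟨f, hf⟩ := counting (α := ℍ) (Ω := (Fin n × Fin n) × (Fin n × Fin n)) O
    (fun o => Bad Γ N O R n n₁ o) (fun o => nbs Γ R O o)
    (by
      rintro o ho f g hfg ⟨s, hs, h1, h2⟩
      refine ⟨s, hs, ?_, ?_⟩
      · have e : GG Γ N O R (fun x => pen_val n (g x).1) o (tp N n₁ o s) =
            GG Γ N O R (fun x => pen_val n (f x).1) o (tp N n₁ o s) := by
          unfold GG
          rw [pen_dep (a := fun x => pen_val n (g x).1) (b := fun x => pen_val n (f x).1)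
            (fun o' ho' => by simp only [hfg o' ho'])]
        rw [e]; exact h1
      · have e : GG Γ N O R (fun x => pen_val n (g x).2) o (tp N n₁ o s) =
            GG Γ N O R (fun x => pen_val n (f x).2) o (tp N n₁ o s) := by
          unfold GG
          rw [pen_dep (a := fun x => pen_val n (g x).2) (b := fun x => pen_val n (f x).2)
            (fun o' ho' => by simp only [hfg o' ho'])]
        rw [e]; exact h2)
    (fun o ho => mem_nbs.2 ⟨ho, 1, by rw [one_smul, dist_self]; exact hR0⟩)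
    (16 * (4 * n₁ + 1) ^ 2) (9 * (2 * D + 9) ^ 2)
    (fun o ho f => by
      have h := pen_M (n₁ := n₁) hN256 hn0 (by omega) ho hι hRι hR0 f
      convert h)
    (fun o _ => pen_nb hr (by linarith) hR0 hO o hDn)
    (by
      rw [Fintype.card_prod, Fintype.card_prod, Fintype.card_fin]
      calc _ ≤ (D ^ 2) ^ 4 := pen_poly (by omega) hDC
        _ = n * n * (n * n) := by rw [← hn]; ring)
  refine ⟨fun x => pen_val n (f x).1, fun x => pen_val n (f x).2, fun o => pen_val_norm _,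
    fun o => pen_val_norm _, fun w => ?_⟩
  obtain ⟨o, ho, γ₀, hγ₀⟩ := hO.cover w
  rw [← pen_aut _ γ₀ w, ← pen_aut _ γ₀ w]
  set w' := γ₀ • w with hw'
  obtain ⟨hw1, s, hs', hs1', hs2'⟩ := pen_near hN256 hn₁2 hγ₀
  -- the general estimate
  have key : ∀ a : ℍ → ℂ, (∀ o, ‖a o‖ ≤ 2) → 1 / (n : ℝ) ≤ ‖GG Γ N O R a o (tp N n₁ o s)‖ →
      1 / (2 * n) * Real.exp (-2) ≤ ‖PS Γ N O (fun o _ => a o) w'‖ * Real.sqrt w'.im ^ N := by
    intro a ha hG
    obtain ⟨t, ht, hot⟩ := pen_geo hr hr1 (tp_dist hN256 (by omega) o hs')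
    have hot' : dist o t ≤ 4 / Real.sqrt N := by rw [div_eq_mul_one_div]; exact hot
    -- truncation
    have h1 : ‖FF Γ N O a o (tp N n₁ o s) - GG Γ N O R a o (tp N n₁ o s)‖ ≤ 1 / (4 * n) := by
      have h2 := pen_tail hN256 hO ha hot' (D := (D : ℝ)) (by positivity)
      rw [← hR] at h2
      have h3 := pen_inv hN256 hot' h2
      rw [sub_div] at h3
      unfold FF GG
      rw [← ht]
      refine h3.trans ?_
      rw [le_div_iff₀ (by positivity)]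
      calc CE * (2 * Real.exp (-((D : ℝ) / 4))) * Real.exp 2 * (4 * n)
          = 8 * (CE * Real.exp 2) * (D : ℝ) ^ 2 * Real.exp (-((D : ℝ) / 4)) := by
            rw [hn]; push_cast; ring
        _ ≤ 1 := hDe
    -- Lipschitz
    have h4 : ‖FF Γ N O a o w' - FF Γ N O a o (tp N n₁ o s)‖ ≤ 1 / (4 * n) := by
      refine (pen_lip hN256 hO ha hw1 hs1').trans ?_
      have hro : 0 < 1 / Real.sqrt N * o.im := mul_pos hr o.im_pos
      calc K0 / (1 / Real.sqrt N * o.im) * ‖(w' : ℂ) - tp N n₁ o s‖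
          ≤ K0 / (1 / Real.sqrt N * o.im) * (1 / Real.sqrt N * o.im / n₁) := by
            exact mul_le_mul_of_nonneg_left hs2' (by positivity)
        _ = K0 / n₁ := by field_simp
        _ ≤ 1 / (4 * n) := by
            rw [div_le_div_iff₀ hn₁r (by positivity), one_mul, hn₁]
            push_cast
            nlinarith
    have h5 : 1 / (2 * (n : ℝ)) ≤ ‖FF Γ N O a o w'‖ := by
      have h6 : ‖GG Γ N O R a o (tp N n₁ o s)‖ ≤ ‖FF Γ N O a o w'‖ +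
          ‖FF Γ N O a o w' - FF Γ N O a o (tp N n₁ o s)‖ +
          ‖FF Γ N O a o (tp N n₁ o s) - GG Γ N O R a o (tp N n₁ o s)‖ := by
        calc ‖GG Γ N O R a o (tp N n₁ o s)‖ = ‖FF Γ N O a o w' -
            (FF Γ N O a o w' - FF Γ N O a o (tp N n₁ o s)) -
            (FF Γ N O a o (tp N n₁ o s) - GG Γ N O R a o (tp N n₁ o s))‖ := by congr 1; ring
          _ ≤ _ := (norm_sub_le _ _).trans (add_le_add_left (norm_sub_le _ _) _)
      have h7 : 1 / (n : ℝ) = 1 / (2 * n) + 1 / (4 * n) + 1 / (4 * n) := by field_simp; norm_num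
      linarith
    -- conclusion
    have hww : dist o w' ≤ 4 / Real.sqrt N := by
      refine hγ₀.trans ?_
      gcongr
      norm_num
    have h8 := pen_ph hN256 hww
    have h9 : ‖PS Γ N O (fun o _ => a o) w'‖ = ‖FF Γ N O a o w'‖ * ‖ph N o 1 w'‖ := by
      rw [← norm_mul]
      unfold FF
      rw [div_mul_cancel₀ _ (ph_ne N w'.im_pos)]
    rw [h9, mul_assoc]
    exact mul_le_mul h5 h8 (Real.exp_pos _).le (norm_nonneg _)
  have hnot := hf o ho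
  have hor : 1 / (n : ℝ) ≤ ‖GG Γ N O R (fun x => pen_val n (f x).1) o (tp N n₁ o s)‖ ∨
      1 / (n : ℝ) ≤ ‖GG Γ N O R (fun x => pen_val n (f x).2) o (tp N n₁ o s)‖ := by
    by_contra hcon
    push Not at hcon
    exact hnot ⟨s, hs', hcon.1, hcon.2⟩
  rcases hor with h | h
  · exact (key _ (fun o => pen_val_norm _) h).trans (le_max_left _ _)
  · exact (key _ (fun o => pen_val_norm _) h).trans (le_max_right _ _)

end Pool.Agent.HypBundle
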