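import Mathlib
import Pool.Agent.Lib.MP_1d980c_gt.Hyp.Defs

set_option autoImplicit false
open scoped ContDiff Topology Convolution
open Complex MeasureTheory Set Filter

namespace Pool.Agent.HypBundle

/-- the Cauchy-Riemann operator -/
noncomputable def dbar (u : ℂ → ℂ) (w : ℂ) : ℂ :=
  (1 / 2) * (fderiv ℝ u w 1 + Complex.I * fderiv ℝ u w Complex.I)

lemma dbar_add {u v : ℂ → ℂ} {w : ℂ} (hu : DifferentiableAt ℝ u w) (hv : DifferentiableAt ℝ v w) :
    dbar (fun z => u z + v z) w = dbar u w + dbar v w := by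
  have h : fderiv ℝ (fun z => u z + v z) w = fderiv ℝ u w + fderiv ℝ v w := fderiv_add hu hv
  simp only [dbar, h, add_apply]
  ring

lemma dbar_sub {u v : ℂ → ℂ} {w : ℂ} (hu : DifferentiableAt ℝ u w) (hv : DifferentiableAt ℝ v w) :
    dbar (fun z => u z - v z) w = dbar u w - dbar v w := by
  have h : fderiv ℝ (fun z => u z - v z) w = fderiv ℝ u w - fderiv ℝ v w := fderiv_sub hu hv
  simp only [dbar, h, sub_apply]
  ring

lemma dbar_of_holo {u : ℂ → ℂ} {w : ℂ} (hu : DifferentiableAt ℂ u w) : dbar u w = 0 := by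
  have h := (differentiableAt_complex_iff_differentiableAt_real.1 hu).2
  rw [dbar, h, smul_eq_mul, ← mul_assoc, Complex.I_mul_I]
  ring

lemma holo_of_dbar {u : ℂ → ℂ} {w : ℂ} (hu : DifferentiableAt ℝ u w) (h : dbar u w = 0) :
    DifferentiableAt ℂ u w := by
  refine differentiableAt_complex_iff_differentiableAt_real.2 ⟨hu, ?_⟩
  rw [dbar] at h
  have h2 : fderiv ℝ u w 1 + Complex.I * fderiv ℝ u w Complex.I = 0 := by
    rcases mul_eq_zero.1 h with h | h
    · norm_num at h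
    · exact h
  rw [smul_eq_mul]
  have : fderiv ℝ u w I = -(I * (I * fderiv ℝ u w I)) := by
    rw [← mul_assoc, Complex.I_mul_I]; ring
  rw [this, eq_neg_of_add_eq_zero_left h2]
  ring

lemma dbar_congr {u v : ℂ → ℂ} {w : ℂ} (h : u =ᶠ[𝓝 w] v) : dbar u w = dbar v w := by
  rw [dbar, dbar, h.fderiv_eq]

namespace DbarAux

lemma locallyIntegrable_inv : LocallyIntegrable (fun z : ℂ => z⁻¹) := by
  have h1 : LocallyIntegrable (fun z : ℂ => ‖z‖⁻¹) := by
    intro x
    refine ⟨Metric.ball 0 (‖x‖ + 1), ?_, ?_⟩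
    · apply Metric.isOpen_ball.mem_nhds
      simp
    · rw [integrableOn_fun_norm_addHaar volume (f := fun y : ℝ => y⁻¹)]
      have h3 : Module.finrank ℝ ℂ - 1 = 1 := by simp
      rw [h3]
      have : IntegrableOn (fun _ : ℝ => (1 : ℝ)) (Set.Ioo 0 (‖x‖ + 1)) :=
        (continuous_const.integrableOn_Icc).mono_set Set.Ioo_subset_Icc_self
      apply this.congr_fun _ measurableSet_Ioo
      intro y hy
      have hy0 : y ≠ 0 := hy.1.ne'
      simp [hy0]
  refine h1.mono (measurable_inv.aestronglyMeasurable) ?_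
  filter_upwards with z
  simp

/-- the Cauchy transform -/
noncomputable def cauchyT (g : ℂ → ℂ) (w : ℂ) : ℂ := ∫ t, t⁻¹ * g (w - t)

lemma cauchyT_eq (g : ℂ → ℂ) :
    cauchyT g = (fun z : ℂ => z⁻¹) ⋆[ContinuousLinearMap.mul ℝ ℂ] g := by
  ext w
  simp [cauchyT, convolution_def]

lemma contDiff_cauchyT {g : ℂ → ℂ} (hg : ContDiff ℝ ∞ g) (hc : HasCompactSupport g) :
    ContDiff ℝ ∞ (cauchyT g) := by
  rw [cauchyT_eq]
  exact hc.contDiff_convolution_right _ locallyIntegrable_inv hg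

lemma fderiv_cauchyT {g : ℂ → ℂ} (hg : ContDiff ℝ ∞ g) (hc : HasCompactSupport g) (w v : ℂ) :
    fderiv ℝ (cauchyT g) w v = cauchyT (fun z => fderiv ℝ g z v) w := by
  have h1 : ContDiff ℝ 1 g := hg.of_le (by exact_mod_cast le_top)
  have h2 := hc.hasFDerivAt_convolution_right (ContinuousLinearMap.mul ℝ ℂ)
    locallyIntegrable_inv h1 w
  rw [cauchyT_eq, h2.fderiv, cauchyT_eq]
  exact convolution_precompR_apply _ locallyIntegrable_inv (hc.fderiv ℝ)
    (h1.continuous_fderiv one_ne_zero) w v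

lemma integrable_kernel {g : ℂ → ℂ} (hg : Continuous g) (hc : HasCompactSupport g) (w : ℂ) :
    Integrable (fun t : ℂ => t⁻¹ * g (w - t)) :=
  hc.convolutionExists_right (ContinuousLinearMap.mul ℝ ℂ) locallyIntegrable_inv hg w


lemma smul_I (D : ℂ →L[ℝ] ℂ) (z : ℂ) : D z = z.re * D 1 + z.im * D Complex.I := by
  conv_lhs => rw [← Complex.re_add_im z]
  have h1 : ((z.re : ℂ) + (z.im : ℂ) * Complex.I) = z.re • (1 : ℂ) + z.im • Complex.I := by
    simp
  rw [h1, map_add, map_smul, map_smul]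
  simp

lemma polar_id (D : ℂ →L[ℝ] ℂ) (θ : ℝ) :
    D (cexp (θ * I)) + I * D (I * cexp (θ * I)) = (D 1 + I * D I) * cexp (-(θ * I)) := by
  rw [smul_I D (cexp (θ * I)), smul_I D (I * cexp (θ * I))]
  have h1 : (cexp (θ * I)).re = Real.cos θ := by rw [Complex.exp_ofReal_mul_I_re]
  have h2 : (cexp (θ * I)).im = Real.sin θ := by rw [Complex.exp_ofReal_mul_I_im]
  have h3 : cexp (-(θ * I)) = Real.cos θ - Real.sin θ * I := by
    have : -((θ : ℂ) * I) = ((-θ : ℝ) : ℂ) * I := by push_cast; ring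
    rw [this, Complex.exp_mul_I, ← Complex.ofReal_cos, ← Complex.ofReal_sin, Real.cos_neg,
      Real.sin_neg]
    push_cast; ring
  simp only [Complex.mul_re, Complex.mul_im, Complex.I_re, Complex.I_im, h1, h2, h3]
  push_cast
  linear_combination (Complex.sin θ * D I) * Complex.I_sq

/-- the point on the circle -/
noncomputable def E (θ : ℝ) : ℂ := cexp (θ * I)

lemma continuous_E : Continuous E := by unfold E; fun_prop

lemma norm_E (θ : ℝ) : ‖E θ‖ = 1 := by rw [E, Complex.norm_exp_ofReal_mul_I]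

lemma hasDerivAt_E (θ : ℝ) : HasDerivAt E (I * E θ) θ := by
  unfold E
  have h1 : HasDerivAt (fun θ : ℝ => (θ : ℂ) * I) (1 * I) θ :=
    (Complex.ofRealCLM.hasDerivAt (x := θ)).mul_const I
  have := h1.cexp
  convert this using 1
  ring

section polar

variable {g : ℂ → ℂ} (hg : ContDiff ℝ ∞ g) (w : ℂ)

include hg in
lemma hasDerivAt_r (r θ : ℝ) :
    HasDerivAt (fun r : ℝ => g (w - r * E θ)) (-(fderiv ℝ g (w - r * E θ) (E θ))) r := by
  have h1 : HasFDerivAt g (fderiv ℝ g (w - r * E θ)) (w - r * E θ) :=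
    ((hg.differentiable (by simp)) _).hasFDerivAt
  have h2 : HasDerivAt (fun r : ℝ => w - (r : ℂ) * E θ) (-(1 * E θ)) r :=
    ((Complex.ofRealCLM.hasDerivAt (x := r)).mul_const (E θ)).const_sub w
  have h3 := h1.comp_hasDerivAt r h2
  refine h3.congr_deriv ?_
  rw [one_mul, map_neg]

include hg in
lemma hasDerivAt_θ (r θ : ℝ) :
    HasDerivAt (fun θ : ℝ => g (w - r * E θ)) (-(r * fderiv ℝ g (w - r * E θ) (I * E θ))) θ := by
  have h1 : HasFDerivAt g (fderiv ℝ g (w - r * E θ)) (w - r * E θ) :=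
    ((hg.differentiable (by simp)) _).hasFDerivAt
  have h2 : HasDerivAt (fun θ : ℝ => w - (r : ℂ) * E θ) (-((r : ℂ) * (I * E θ))) θ :=
    ((hasDerivAt_E θ).const_mul (r : ℂ)).const_sub w
  have h3 := h1.comp_hasDerivAt θ h2
  refine h3.congr_deriv ?_
  have h4 : -((r : ℂ) * (I * E θ)) = (-r) • (I * E θ) := by simp
  rw [h4, map_smul]
  simp

include hg in
lemma continuous_A : Continuous (fun p : ℝ × ℝ => fderiv ℝ g (w - p.1 * E p.2) (E p.2)) := by
  have h1 : Continuous (fderiv ℝ g) := hg.continuous_fderiv (by simp)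
  have h2 : Continuous (fun p : ℝ × ℝ => fderiv ℝ g (w - p.1 * E p.2)) := by
    apply h1.comp
    have := continuous_E
    fun_prop
  exact h2.clm_apply (continuous_E.comp continuous_snd)

include hg in
lemma continuous_B : Continuous (fun p : ℝ × ℝ => fderiv ℝ g (w - p.1 * E p.2) (I * E p.2)) := by
  have h1 : Continuous (fderiv ℝ g) := hg.continuous_fderiv (by simp)
  have h2 : Continuous (fun p : ℝ × ℝ => fderiv ℝ g (w - p.1 * E p.2)) := by
    apply h1.comp
    have := continuous_E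
    fun_prop
  exact h2.clm_apply (continuous_const.mul (continuous_E.comp continuous_snd))

variable (hc : HasCompactSupport g)

include hc in
lemma exists_R : ∃ R : ℝ, 0 < R ∧ ∀ r θ : ℝ, R ≤ r →
    g (w - r * E θ) = 0 ∧ fderiv ℝ g (w - r * E θ) = 0 := by
  obtain ⟨R, hR⟩ := hc.isCompact.isBounded.subset_ball w
  refine ⟨max R 1, by positivity, fun r θ hr => ?_⟩
  have h1 : w - r * E θ ∉ tsupport g := by
    intro h
    have := hR h
    rw [Metric.mem_ball, dist_eq_norm] at this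
    have h3 : ‖w - r * E θ - w‖ = |r| := by
      have : w - r * E θ - w = -(r * E θ) := by ring
      rw [this, norm_neg, norm_mul, norm_E, Complex.norm_real, Real.norm_eq_abs, mul_one]
    rw [h3] at this
    have h4 := le_abs_self r
    have h5 := le_max_left R 1
    linarith
  refine ⟨image_eq_zero_of_notMem_tsupport h1, ?_⟩
  have := tsupport_fderiv_subset ℝ (f := g)
  exact image_eq_zero_of_notMem_tsupport (fun h => h1 (this h))

lemma integrableOn_polar {F : ℝ × ℝ → ℂ} (hF : Continuous F) {R : ℝ}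
    (hR : ∀ r θ : ℝ, R ≤ r → F (r, θ) = 0) :
    IntegrableOn F (Ioi (0 : ℝ) ×ˢ Ioo (-Real.pi) Real.pi) := by
  have h1 : IntegrableOn F (Icc 0 R ×ˢ Icc (-Real.pi) Real.pi) :=
    hF.continuousOn.integrableOn_compact (isCompact_Icc.prod isCompact_Icc)
  refine h1.of_forall_sdiff_eq_zero (measurableSet_Ioi.prod measurableSet_Ioo) ?_
  rintro ⟨r, θ⟩ ⟨⟨h2, h3⟩, h4⟩
  apply hR
  by_contra hlt
  push Not at hlt
  apply h4
  exact ⟨⟨le_of_lt h2, hlt.le⟩, ⟨h3.1.le, h3.2.le⟩⟩

include hg hc in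
lemma integral_A : ∫ p in Ioi (0 : ℝ) ×ˢ Ioo (-Real.pi) Real.pi,
    fderiv ℝ g (w - p.1 * E p.2) (E p.2) = 2 * Real.pi * g w := by
  obtain ⟨R, hR0, hR⟩ := exists_R w hc
  have hI : IntegrableOn (fun p : ℝ × ℝ => fderiv ℝ g (w - p.1 * E p.2) (E p.2))
      (Ioi (0 : ℝ) ×ˢ Ioo (-Real.pi) Real.pi) :=
    integrableOn_polar (continuous_A hg w) (R := R) (fun r θ h => by simp [(hR r θ h).2])
  have hI2 : IntegrableOn (fun p : ℝ × ℝ => fderiv ℝ g (w - p.2 * E p.1) (E p.1))
      (Ioo (-Real.pi) Real.pi ×ˢ Ioi (0 : ℝ)) := hI.swap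
  have e1 : ∫ p in Ioi (0 : ℝ) ×ˢ Ioo (-Real.pi) Real.pi, fderiv ℝ g (w - p.1 * E p.2) (E p.2)
      = ∫ p in Ioo (-Real.pi) Real.pi ×ˢ Ioi (0 : ℝ), fderiv ℝ g (w - p.2 * E p.1) (E p.1) := by
    rw [Measure.volume_eq_prod]
    exact setIntegral_prod_swap (μ := volume) (ν := volume) (Ioo (-Real.pi) Real.pi) (Ioi (0 : ℝ))
      (fun p : ℝ × ℝ => fderiv ℝ g (w - p.2 * E p.1) (E p.1))
  rw [e1, Measure.volume_eq_prod, setIntegral_prod _ hI2]
  have e2 : ∀ θ : ℝ, ∫ r in Ioi (0 : ℝ), fderiv ℝ g (w - r * E θ) (E θ) = g w := by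
    intro θ
    have hcont : Continuous (fun r : ℝ => fderiv ℝ g (w - r * E θ) (E θ)) :=
      (continuous_A hg w).comp (f := fun r : ℝ => (r, θ)) (by fun_prop)
    have hint : IntegrableOn (fun r : ℝ => fderiv ℝ g (w - r * E θ) (E θ)) (Ioi 0) := by
      have h1 : IntegrableOn (fun r : ℝ => fderiv ℝ g (w - r * E θ) (E θ)) (Icc 0 R) :=
        hcont.integrableOn_Icc
      refine h1.of_forall_sdiff_eq_zero measurableSet_Ioi ?_
      rintro r ⟨h2, h3⟩
      have : R ≤ r := by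
        by_contra hlt
        push Not at hlt
        exact h3 ⟨le_of_lt h2, hlt.le⟩
      simp [(hR r θ this).2]
    have hd : ∀ r ∈ Ici (0 : ℝ), HasDerivAt (fun r : ℝ => -g (w - r * E θ))
        (fderiv ℝ g (w - r * E θ) (E θ)) r := by
      intro r _
      exact (hasDerivAt_r hg w r θ).neg.congr_deriv (neg_neg _)
    have ht : Tendsto (fun r : ℝ => -g (w - r * E θ)) atTop (𝓝 0) := by
      apply tendsto_const_nhds.congr'
      filter_upwards [eventually_ge_atTop R] with r hr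
      simp [(hR r θ hr).1]
    have := integral_Ioi_of_hasDerivAt_of_tendsto' hd hint ht
    rw [this]
    simp
  simp only [e2]
  rw [setIntegral_const]
  rw [Real.volume_real_Ioo_of_le (by linarith [Real.pi_pos]), Complex.real_smul]
  push_cast; ring

include hg hc in
lemma integral_B : ∫ p in Ioi (0 : ℝ) ×ˢ Ioo (-Real.pi) Real.pi,
    fderiv ℝ g (w - p.1 * E p.2) (I * E p.2) = 0 := by
  obtain ⟨R, hR0, hR⟩ := exists_R w hc
  have hI : IntegrableOn (fun p : ℝ × ℝ => fderiv ℝ g (w - p.1 * E p.2) (I * E p.2))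
      (Ioi (0 : ℝ) ×ˢ Ioo (-Real.pi) Real.pi) :=
    integrableOn_polar (continuous_B hg w) (R := R) (fun r θ h => by simp [(hR r θ h).2])
  rw [Measure.volume_eq_prod, setIntegral_prod _ hI]
  have e2 : ∀ r ∈ Ioi (0 : ℝ), ∫ θ in Ioo (-Real.pi) Real.pi,
      fderiv ℝ g (w - r * E θ) (I * E θ) = 0 := by
    intro r hr
    have hcont : Continuous (fun θ : ℝ => fderiv ℝ g (w - r * E θ) (I * E θ)) :=
      (continuous_B hg w).comp (f := fun θ : ℝ => (r, θ)) (by fun_prop)
    have hr' : (r : ℂ) ≠ 0 := by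
      have : r ≠ 0 := (ne_of_gt hr)
      exact_mod_cast this
    rw [← integral_Ioc_eq_integral_Ioo, ← intervalIntegral.integral_of_le
      (by linarith [Real.pi_pos])]
    have hd : ∀ θ ∈ uIcc (-Real.pi) Real.pi, HasDerivAt (fun θ : ℝ => -((r : ℂ)⁻¹ * g (w - r * E θ)))
        (fderiv ℝ g (w - r * E θ) (I * E θ)) θ := by
      intro θ _
      refine ((hasDerivAt_θ hg w r θ).const_mul ((r : ℂ)⁻¹)).neg.congr_deriv ?_
      rw [mul_neg, neg_neg, ← mul_assoc, inv_mul_cancel₀ hr', one_mul]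
    rw [intervalIntegral.integral_eq_sub_of_hasDerivAt hd (hcont.intervalIntegrable _ _)]
    have hE : E Real.pi = E (-Real.pi) := by
      unfold E
      rw [Complex.exp_pi_mul_I]
      push_cast
      rw [neg_mul, Complex.exp_neg, Complex.exp_pi_mul_I]
      norm_num
    rw [hE]
    ring
  rw [setIntegral_congr_fun measurableSet_Ioi e2]
  simp

include hg hc in
lemma integral_dbar : ∫ t, t⁻¹ * dbar g (w - t) = Real.pi * g w := by
  rw [← Complex.integral_comp_polarCoord_symm]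
  obtain ⟨R, hR0, hR⟩ := exists_R w hc
  have hIA : IntegrableOn (fun p : ℝ × ℝ => fderiv ℝ g (w - p.1 * E p.2) (E p.2))
      (Ioi (0 : ℝ) ×ˢ Ioo (-Real.pi) Real.pi) :=
    integrableOn_polar (continuous_A hg w) (R := R) (fun r θ h => by simp [(hR r θ h).2])
  have hIB : IntegrableOn (fun p : ℝ × ℝ => fderiv ℝ g (w - p.1 * E p.2) (I * E p.2))
      (Ioi (0 : ℝ) ×ˢ Ioo (-Real.pi) Real.pi) :=
    integrableOn_polar (continuous_B hg w) (R := R) (fun r θ h => by simp [(hR r θ h).2])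
  have hS : MeasurableSet (Ioi (0 : ℝ) ×ˢ Ioo (-Real.pi) Real.pi) :=
    measurableSet_Ioi.prod measurableSet_Ioo
  have e1 : ∫ p in polarCoord.target, p.1 • ((Complex.polarCoord.symm p)⁻¹ *
      dbar g (w - Complex.polarCoord.symm p)) =
      ∫ p in Ioi (0 : ℝ) ×ˢ Ioo (-Real.pi) Real.pi,
        ((1 / 2 : ℂ) * (fderiv ℝ g (w - p.1 * E p.2) (E p.2)) +
          (I / 2 : ℂ) * (fderiv ℝ g (w - p.1 * E p.2) (I * E p.2))) := by
    rw [polarCoord_target]
    apply setIntegral_congr_fun hS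
    rintro ⟨r, θ⟩ ⟨hr, _⟩
    have hr' : (r : ℂ) ≠ 0 := by
      have : r ≠ 0 := (ne_of_gt hr)
      exact_mod_cast this
    have hp : Complex.polarCoord.symm (r, θ) = r * E θ := by
      rw [Complex.polarCoord_symm_apply, E, Complex.exp_mul_I]
      simp
    simp only [hp]
    have h2 := polar_id (fderiv ℝ g (w - r * E θ)) θ
    have h3 : (1 / 2 : ℂ) * (fderiv ℝ g (w - r * E θ) (E θ)) +
          (I / 2 : ℂ) * (fderiv ℝ g (w - r * E θ) (I * E θ)) = dbar g (w - r * E θ) *
            cexp (-(θ * I)) := by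
      rw [dbar]
      change fderiv ℝ g (w - r * E θ) (E θ) + I * fderiv ℝ g (w - r * E θ) (I * E θ) = _ at h2
      linear_combination (1 / 2 : ℂ) * h2
    rw [h3, mul_inv, Complex.real_smul]
    have h4 : (E θ)⁻¹ = cexp (-(θ * I)) := by rw [E, Complex.exp_neg]
    rw [h4]
    field_simp
  rw [e1, integral_add (hIA.const_mul _) (hIB.const_mul _), integral_const_mul, integral_const_mul,
    integral_A hg w hc, integral_B hg w hc]
  ring

end polar

/-- the inhomogeneous Cauchy-Riemann equation with compactly supported right-hand side -/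
theorem dbar_compact {g : ℂ → ℂ} (hg : ContDiff ℝ ∞ g) (hc : HasCompactSupport g) :
    ∃ u : ℂ → ℂ, ContDiff ℝ ∞ u ∧ ∀ w, dbar u w = g w := by
  refine ⟨fun w => (Real.pi : ℂ)⁻¹ * cauchyT g w, contDiff_const.mul (contDiff_cauchyT hg hc), ?_⟩
  intro w
  have hd : DifferentiableAt ℝ (cauchyT g) w := ((contDiff_cauchyT hg hc).differentiable (by simp)) w
  have h1 : ∀ v, fderiv ℝ (fun w => (Real.pi : ℂ)⁻¹ * cauchyT g w) w v =
      (Real.pi : ℂ)⁻¹ * cauchyT (fun z => fderiv ℝ g z v) w := by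
    intro v
    rw [fderiv_const_mul hd]
    rw [← fderiv_cauchyT hg hc w v]
    simp
  rw [dbar, h1, h1]
  have hcv : ∀ v, HasCompactSupport (fun z => fderiv ℝ g z v) := fun v => hc.fderiv_apply ℝ v
  have hcont : ∀ v, Continuous (fun z => fderiv ℝ g z v) := fun v =>
    (hg.continuous_fderiv (by simp)).clm_apply continuous_const
  have h2 : cauchyT (fun z => fderiv ℝ g z 1) w + I * cauchyT (fun z => fderiv ℝ g z I) w =
      2 * ∫ t, t⁻¹ * dbar g (w - t) := by
    unfold cauchyT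
    rw [← integral_const_mul, ← integral_const_mul, ← integral_add
      (integrable_kernel (hcont 1) (hcv 1) w) ((integrable_kernel (hcont I) (hcv I) w).const_mul _)]
    congr 1
    ext t
    rw [dbar]
    ring
  rw [integral_dbar hg w hc] at h2
  have hpi : (Real.pi : ℂ) ≠ 0 := by exact_mod_cast Real.pi_ne_zero
  have h3 : (1 / 2 : ℂ) * ((Real.pi : ℂ)⁻¹ * cauchyT (fun z => fderiv ℝ g z 1) w +
      I * ((Real.pi : ℂ)⁻¹ * cauchyT (fun z => fderiv ℝ g z I) w)) = (1 / 2 : ℂ) * (Real.pi : ℂ)⁻¹ *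
      (cauchyT (fun z => fderiv ℝ g z 1) w + I * cauchyT (fun z => fderiv ℝ g z I) w) := by ring
  rw [h3, h2]
  field_simp


/-- cutting off -/
lemma contDiff_cutoff {β : ℂ → ℂ} (hβ : ContDiffOn ℝ ∞ β HH) {c : ℂ} (χ : ContDiffBump c)
    (h : Metric.closedBall c χ.rOut ⊆ HH) : ContDiff ℝ ∞ (fun z => (χ z : ℂ) * β z) := by
  have hop : IsOpen HH := isOpen_lt continuous_const Complex.continuous_im
  rw [contDiff_iff_contDiffAt]
  intro z
  by_cases hz : z ∈ HH
  · have h1 : ContDiffAt ℝ ∞ β z := (hβ z hz).contDiffAt (hop.mem_nhds hz)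
    have h2 : ContDiffAt ℝ ∞ (fun z => (χ z : ℂ)) z :=
      (Complex.ofRealCLM.contDiff.contDiffAt).comp z χ.contDiffAt
    exact h2.mul h1
  · have h3 : z ∉ tsupport χ := by
      rw [χ.tsupport_eq]
      exact fun h' => hz (h h')
    have h4 : (fun z => (χ z : ℂ) * β z) =ᶠ[𝓝 z] fun _ => 0 := by
      have : (χ : ℂ → ℝ) =ᶠ[𝓝 z] 0 := notMem_tsupport_iff_eventuallyEq.1 h3
      filter_upwards [this] with y hy
      simp [hy]
    exact contDiffAt_const.congr_of_eventuallyEq h4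

/-- solution near a disc -/
lemma exists_v {β : ℂ → ℂ} (hβ : ContDiffOn ℝ ∞ β HH) {c : ℂ} {r R : ℝ} (hr : 0 < r) (hrR : r < R)
    (h : Metric.closedBall c R ⊆ HH) :
    ∃ v : ℂ → ℂ, ContDiff ℝ ∞ v ∧ ∀ z ∈ Metric.closedBall c r, dbar v z = β z := by
  let χ : ContDiffBump c := ⟨r, R, hr, hrR⟩
  have h1 : ContDiff ℝ ∞ (fun z => (χ z : ℂ) * β z) := contDiff_cutoff hβ χ h
  have h2 : HasCompactSupport (fun z => (χ z : ℂ) * β z) := by
    apply χ.hasCompactSupport.mono
    intro z hz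
    rw [Function.mem_support] at hz ⊢
    intro h0
    apply hz
    simp [h0]
  obtain ⟨v, hv, hv2⟩ := dbar_compact h1 h2
  refine ⟨v, hv, fun z hz => ?_⟩
  rw [hv2 z, χ.one_of_mem_closedBall hz]
  simp

/-- Taylor approximation -/
lemma exists_taylor {f : ℂ → ℂ} {c : ℂ} {r R ε : ℝ} (hr : 0 < r) (hrR : r < R) (hε : 0 < ε)
    (hf : ∀ z ∈ Metric.closedBall c R, DifferentiableAt ℂ f z) :
    ∃ p : ℂ → ℂ, Differentiable ℂ p ∧ ∀ z ∈ Metric.ball c r, ‖f z - p z‖ ≤ ε := by
  lift R to NNReal using (by linarith)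
  lift r to NNReal using hr.le
  have hd : DifferentiableOn ℂ f (Metric.closedBall c R) :=
    fun z hz => (hf z hz).differentiableWithinAt
  have hR : 0 < R := by
    have : (0 : ℝ) < R := hr.trans hrR
    exact_mod_cast this
  have h1 := hd.hasFPowerSeriesOnBall hR
  have h2 := h1.tendstoUniformlyOn' (r' := r) (by exact_mod_cast hrR)
  rw [Metric.tendstoUniformlyOn_iff] at h2
  obtain ⟨n, hn⟩ := (h2 ε hε).exists
  refine ⟨fun y => (cauchyPowerSeries f c R).partialSum n (y - c), ?_, fun z hz => ?_⟩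
  · have : (fun y => (cauchyPowerSeries f c R).partialSum n (y - c)) =
        fun y => ∑ k ∈ Finset.range n, (y - c) ^ k • (cauchyPowerSeries f c R).coeff k := by
      ext y
      rw [FormalMultilinearSeries.partialSum]
      exact Finset.sum_congr rfl fun k _ => FormalMultilinearSeries.apply_eq_pow_smul_coeff
    rw [this]
    fun_prop
  · have := hn z hz
    rw [dist_eq_norm] at this
    exact this.le

/-- the exhaustion by discs -/
noncomputable def cc (n : ℕ) : ℂ := ((n : ℂ) + 2) * I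

noncomputable def rr (a : ℝ) (n : ℕ) : ℝ := ((n : ℝ) + 2) - a / ((n : ℝ) + 2)

lemma dist_cc (n m : ℕ) : dist (cc n) (cc m) = |(n : ℝ) - m| := by
  rw [dist_eq_norm]
  have : cc n - cc m = (((n : ℝ) - m : ℝ) : ℂ) * I := by unfold cc; push_cast; ring
  rw [this, norm_mul, Complex.norm_real, Complex.norm_I, mul_one, Real.norm_eq_abs]

lemma closedBall_sub_HH {a : ℝ} (ha : 0 < a) (n : ℕ) : Metric.closedBall (cc n) (rr a n) ⊆ HH := by
  intro z hz
  rw [Metric.mem_closedBall, dist_eq_norm] at hz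
  have h1 : |(z - cc n).im| ≤ ‖z - cc n‖ := Complex.abs_im_le_norm _
  have h2 : (z - cc n).im = z.im - (n + 2) := by simp [cc]
  rw [h2] at h1
  have h3 := (abs_le.1 (h1.trans hz)).1
  have h4 : 0 < a / ((n : ℝ) + 2) := by positivity
  unfold rr at h3
  change 0 < z.im
  linarith

lemma rr_pos {a : ℝ} (ha : a < 4) (n : ℕ) : 0 < rr a n := by
  unfold rr
  have h : (0 : ℝ) < (n : ℝ) + 2 := by positivity
  rw [sub_pos, div_lt_iff₀ h]
  nlinarith [(Nat.cast_nonneg n : (0 : ℝ) ≤ n)]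

lemma rr_lt {a b : ℝ} (hab : a < b) (n : ℕ) : rr b n < rr a n := by
  unfold rr
  have h : (0 : ℝ) < (n : ℝ) + 2 := by positivity
  have := div_lt_div_of_pos_right hab h
  linarith

lemma ball_mono {a : ℝ} (ha : 0 ≤ a) {n m : ℕ} (hnm : n ≤ m) :
    dist (cc n) (cc m) + rr a n ≤ rr a m := by
  rw [dist_cc, abs_sub_comm, abs_of_nonneg (sub_nonneg.2 (by exact_mod_cast hnm))]
  unfold rr
  have h : (0 : ℝ) < (n : ℝ) + 2 := by positivity
  have h1 : (n : ℝ) + 2 ≤ (m : ℝ) + 2 := by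
    have : (n : ℝ) ≤ m := by exact_mod_cast hnm
    linarith
  have h2 : a / ((m : ℝ) + 2) ≤ a / ((n : ℝ) + 2) := div_le_div_of_nonneg_left ha h h1
  linarith

lemma exists_ball {z : ℂ} (hz : z ∈ HH) (a : ℝ) (ha : 0 ≤ a) :
    ∃ n, z ∈ Metric.ball (cc n) (rr a n) := by
  have hy : 0 < z.im := hz
  obtain ⟨n, hn⟩ := exists_nat_gt ((z.re ^ 2 + z.im ^ 2 + 2 * a) / (2 * z.im) + a)
  refine ⟨n, ?_⟩
  rw [Metric.mem_ball, dist_eq_norm]
  have hR : (0 : ℝ) < (n : ℝ) + 2 := by positivity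
  have h0 : 0 ≤ (z.re ^ 2 + z.im ^ 2 + 2 * a) / (2 * z.im) := by positivity
  have hn1 : (z.re ^ 2 + z.im ^ 2 + 2 * a) / (2 * z.im) < (n : ℝ) + 2 := by linarith
  have hn2 : a < (n : ℝ) + 2 := by linarith
  rw [div_lt_iff₀ (by positivity)] at hn1
  have hpos : 0 < rr a n := by
    unfold rr
    rw [sub_pos, div_lt_iff₀ hR]
    nlinarith [(Nat.cast_nonneg n : (0 : ℝ) ≤ n)]
  have h1 : ‖z - cc n‖ ^ 2 < rr a n ^ 2 := by
    rw [← Complex.normSq_eq_norm_sq, Complex.normSq_apply]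
    have e1 : (z - cc n).re = z.re := by simp [cc]
    have e2 : (z - cc n).im = z.im - (n + 2) := by simp [cc]
    rw [e1, e2]
    have e3 : rr a n ^ 2 = ((n : ℝ) + 2) ^ 2 - 2 * a + (a / ((n : ℝ) + 2)) ^ 2 := by
      unfold rr
      field_simp
      ring
    rw [e3]
    have e4 : 0 ≤ (a / ((n : ℝ) + 2)) ^ 2 := by positivity
    nlinarith
  exact lt_of_pow_lt_pow_left₀ 2 hpos.le h1

end DbarAux

open DbarAux in
/-- the inhomogeneous Cauchy-Riemann equation on the upper half plane -/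
theorem dbar_solve (β : ℂ → ℂ) (hβ : ContDiffOn ℝ ∞ β HH) :
    ∃ u : ℂ → ℂ, ContDiffOn ℝ ∞ u HH ∧ ∀ w ∈ HH, dbar u w = β w := by
  have hv : ∀ n : ℕ, ∃ v : ℂ → ℂ, ContDiff ℝ ∞ v ∧
      ∀ z ∈ Metric.closedBall (cc n) (rr 1 n), dbar v z = β z := fun n =>
    exists_v hβ (rr_pos (by norm_num) n) (rr_lt (by norm_num : (1 / 2 : ℝ) < 1) n)
      (closedBall_sub_HH (by norm_num) n)
  choose v hv hv2 using hv
  have hdv : ∀ n z, DifferentiableAt ℝ (v n) z := fun n z => (hv n).differentiable (by simp) z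
  have hw : ∀ n : ℕ, ∀ z ∈ Metric.closedBall (cc n) (rr 1 n),
      DifferentiableAt ℂ (fun z => v (n + 1) z - v n z) z := by
    intro n z hz
    apply holo_of_dbar ((hdv _ z).sub (hdv _ z))
    have hz2 : z ∈ Metric.closedBall (cc (n + 1)) (rr 1 (n + 1)) :=
      Metric.closedBall_subset_closedBall' (by
        have := ball_mono (a := 1) zero_le_one (Nat.le_succ n)
        rw [add_comm]; exact this) hz
    change dbar (fun z => v (n + 1) z - v n z) z = 0
    rw [dbar_sub (hdv _ z) (hdv _ z), hv2 n z hz, hv2 (n + 1) z hz2, sub_self]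
  have hp : ∀ n : ℕ, ∃ p : ℂ → ℂ, Differentiable ℂ p ∧
      ∀ z ∈ Metric.ball (cc n) (rr 2 n), ‖(v (n + 1) z - v n z) - p z‖ ≤ (1 / 2 : ℝ) ^ n := fun n =>
    exists_taylor (rr_pos (by norm_num) n) (rr_lt (by norm_num : (1 : ℝ) < 2) n) (by positivity)
      (hw n)
  choose p hp hp2 using hp
  set F : ℕ → ℂ → ℂ := fun n z => v (n + 1) z - v n z - p n z with hF
  have hbound : ∀ N k : ℕ, ∀ z ∈ Metric.ball (cc N) (rr 2 N), ‖F (k + N) z‖ ≤ (1 / 2 : ℝ) ^ (k + N) := by
    intro N k z hz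
    refine hp2 (k + N) z ?_
    exact Metric.ball_subset_ball' (by
      have := ball_mono (a := 2) zero_le_two (Nat.le_add_left N k)
      rw [add_comm]; exact this) hz
  have hsum : Summable (fun n : ℕ => (1 / 2 : ℝ) ^ n) := summable_geometric_two
  have hsumN : ∀ N : ℕ, Summable (fun k : ℕ => (1 / 2 : ℝ) ^ (k + N)) := fun N =>
    (summable_nat_add_iff N).2 hsum
  have hFsum : ∀ N : ℕ, ∀ z ∈ Metric.ball (cc N) (rr 2 N), Summable (fun n => F n z) := by
    intro N z hz
    rw [← summable_nat_add_iff N]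
    exact Summable.of_norm_bounded (hsumN N) (fun k => hbound N k z hz)
  set u : ℂ → ℂ := fun z => v 0 z + ∑' n, F n z with hu
  -- the local formula
  have hloc : ∀ N : ℕ, ∀ z ∈ Metric.ball (cc N) (rr 2 N),
      u z = v N z + ((∑' k, F (k + N) z) - ∑ n ∈ Finset.range N, p n z) := by
    intro N z hz
    have h1 := (hFsum N z hz).sum_add_tsum_nat_add N
    have h2 : ∑ n ∈ Finset.range N, F n z = v N z - v 0 z - ∑ n ∈ Finset.range N, p n z := by
      simp only [hF]
      rw [Finset.sum_sub_distrib, Finset.sum_range_sub (fun n => v n z)]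
    simp only [hu]
    rw [← h1, h2]
    ring
  have hHol : ∀ N : ℕ, DifferentiableOn ℂ
      (fun z => (∑' k, F (k + N) z) - ∑ n ∈ Finset.range N, p n z)
      (Metric.ball (cc N) (rr 2 N)) := by
    intro N
    apply DifferentiableOn.sub
    · refine differentiableOn_tsum_of_summable_norm (hsumN N) (fun k => ?_) Metric.isOpen_ball
        (fun k z hz => hbound N k z hz)
      intro z hz
      have hz1 : z ∈ Metric.ball (cc (k + N)) (rr 2 (k + N)) :=
        Metric.ball_subset_ball' (by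
          have := ball_mono (a := 2) zero_le_two (Nat.le_add_left N k)
          rw [add_comm]; exact this) hz
      have hz2 : z ∈ Metric.closedBall (cc (k + N)) (rr 1 (k + N)) :=
        Metric.ball_subset_closedBall (Metric.ball_subset_ball (rr_lt (by norm_num) _).le hz1)
      exact ((hw (k + N) z hz2).sub (hp (k + N) z)).differentiableWithinAt
    · apply Differentiable.differentiableOn
      exact Differentiable.fun_sum fun n _ => hp n
  refine ⟨u, ?_, ?_⟩
  · intro z hz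
    obtain ⟨N, hN⟩ := exists_ball hz 2 (by norm_num)
    have hnb : Metric.ball (cc N) (rr 2 N) ∈ 𝓝 z := Metric.isOpen_ball.mem_nhds hN
    apply ContDiffAt.contDiffWithinAt
    have h1 : ContDiffAt ℝ ∞ (fun z => (∑' k, F (k + N) z) - ∑ n ∈ Finset.range N, p n z) z :=
      (((hHol N).analyticAt hnb).contDiffAt).restrict_scalars ℝ
    have h2 : ContDiffAt ℝ ∞ (fun z => v N z +
        ((∑' k, F (k + N) z) - ∑ n ∈ Finset.range N, p n z)) z := (hv N).contDiffAt.add h1
    apply h2.congr_of_eventuallyEq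
    filter_upwards [hnb] with y hy using hloc N y hy
  · intro z hz
    obtain ⟨N, hN⟩ := exists_ball hz 2 (by norm_num)
    have hnb : Metric.ball (cc N) (rr 2 N) ∈ 𝓝 z := Metric.isOpen_ball.mem_nhds hN
    have h1 : DifferentiableAt ℂ (fun z => (∑' k, F (k + N) z) - ∑ n ∈ Finset.range N, p n z) z :=
      ((hHol N) z hN).differentiableAt hnb
    have h2 : u =ᶠ[𝓝 z] (fun z => v N z +
        ((∑' k, F (k + N) z) - ∑ n ∈ Finset.range N, p n z)) := by
      filter_upwards [hnb] with y hy using hloc N y hy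
    have hz1 : z ∈ Metric.closedBall (cc N) (rr 1 N) :=
      Metric.ball_subset_closedBall (Metric.ball_subset_ball (rr_lt (by norm_num) _).le hN)
    rw [dbar_congr h2, dbar_add (hdv N z) (h1.restrictScalars ℝ), dbar_of_holo h1, add_zero,
      hv2 N z hz1]

end Pool.Agent.HypBundle
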