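import Mathlib
import Pool.Agent.Lib.MP_1d980c_gt.Hyp.Defs
import Pool.Agent.Lib.MP_1d980c_gt.Hyp.Dbar

set_option autoImplicit false
open scoped UpperHalfPlane MatrixGroups Manifold ContDiff Matrix Topology
open Complex ComplexConjugate

namespace Pool.Agent.HypBundle

namespace CH

theorem isOpen_HH : IsOpen HH := isOpen_lt continuous_const Complex.continuous_im

theorem cmd_coe : ContMDiff 𝓘(ℝ, ℂ) 𝓘(ℝ, ℂ) ∞ ((↑) : ℍ → ℂ) :=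
  fun _ => contMDiffAt_extChartAt

theorem cmdAt_ofComplex {z : ℂ} (hz : 0 < z.im) :
    ContMDiffAt 𝓘(ℝ, ℂ) 𝓘(ℝ, ℂ) ∞ UpperHalfPlane.ofComplex z := by
  rw [contMDiffAt_iff]
  constructor
  · rw [ContinuousAt, nhds_induced, Filter.tendsto_comap_iff]
    refine Filter.Tendsto.congr' (UpperHalfPlane.eventuallyEq_coe_comp_ofComplex hz).symm ?_
    simpa [UpperHalfPlane.ofComplex_apply_of_im_pos hz] using! Filter.tendsto_id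
  · simpa using! contDiffAt_id.congr_of_eventuallyEq
      (UpperHalfPlane.eventuallyEq_coe_comp_ofComplex hz)

variable {F : Type} [NormedAddCommGroup F] [NormedSpace ℝ F]

theorem contDiffOn_of_cmd {f : ℍ → F} (hf : ContMDiff 𝓘(ℝ, ℂ) 𝓘(ℝ, F) ∞ f) :
    ContDiffOn ℝ ∞ (fun z => f (UpperHalfPlane.ofComplex z)) HH := by
  intro z hz
  refine ContDiffAt.contDiffWithinAt ?_
  rw [← contMDiffAt_iff_contDiffAt]
  exact (hf _).comp z (cmdAt_ofComplex hz)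

theorem cmd_of_contDiffOn {g : ℂ → F} (hg : ContDiffOn ℝ ∞ g HH) :
    ContMDiff 𝓘(ℝ, ℂ) 𝓘(ℝ, F) ∞ (fun w : ℍ => g w) := by
  intro w
  have h1 : ContDiffAt ℝ ∞ g w := hg.contDiffAt (isOpen_HH.mem_nhds w.im_pos)
  rw [← contMDiffAt_iff_contDiffAt] at h1
  exact h1.comp w (cmd_coe w)

/-- the Moebius transformation -/
noncomputable def T (γ : SL(2, ℝ)) (w : ℂ) : ℂ := ((γ • UpperHalfPlane.ofComplex w : ℍ) : ℂ)

theorem T_mem (γ : SL(2, ℝ)) (w : ℂ) : T γ w ∈ HH := (γ • UpperHalfPlane.ofComplex w).im_pos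

theorem T_coe (γ : SL(2, ℝ)) (w : ℍ) : T γ w = ((γ • w : ℍ) : ℂ) := by
  rw [T, UpperHalfPlane.ofComplex_apply]

theorem T_mul (γ δ : SL(2, ℝ)) (w : ℂ) : T (γ * δ) w = T γ (T δ w) := by
  rw [T, T, T, UpperHalfPlane.ofComplex_apply, mul_smul]

theorem hasDerivAt_T (γ : SL(2, ℝ)) {w : ℂ} (hw : w ∈ HH) :
    HasDerivAt (T γ) (deriv (T γ) w) w := by
  have h := UpperHalfPlane.hasStrictDerivAt_smul (g := (γ : GL (Fin 2) ℝ)) (by simp) ⟨w, hw⟩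
  exact h.hasDerivAt.differentiableAt.hasDerivAt

theorem contDiffOn_T (γ : SL(2, ℝ)) : ContDiffOn ℝ ∞ (T γ) HH := by
  have h1 : DifferentiableOn ℂ (T γ) HH := fun w hw =>
    (hasDerivAt_T γ hw).differentiableAt.differentiableWithinAt
  exact (h1.contDiffOn isOpen_HH).restrict_scalars ℝ

/-! ### the Cauchy-Riemann operator -/

theorem real_linear (L : ℂ →L[ℝ] ℂ) (v : ℂ) :
    L v = (1 / 2) * (L 1 - Complex.I * L Complex.I) * v +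
      (1 / 2) * (L 1 + Complex.I * L Complex.I) * conj v := by
  have h1 : L v = (v.re : ℂ) * L 1 + (v.im : ℂ) * L Complex.I := by
    have h2 : v = v.re • (1 : ℂ) + v.im • Complex.I := by
      simp [Complex.re_add_im]
    conv_lhs => rw [h2]
    rw [map_add, map_smul, map_smul]
    simp
  have h3 : conj v = (v.re : ℂ) - (v.im : ℂ) * Complex.I := by
    apply Complex.ext <;> simp
  have h4 : v = (v.re : ℂ) + (v.im : ℂ) * Complex.I := (Complex.re_add_im v).symm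
  rw [h1, h3]
  conv_rhs => rw [h4]
  have h5 := Complex.I_mul_I
  simp only [Complex.add_re, Complex.ofReal_re, Complex.mul_re, Complex.I_re, mul_zero,
    Complex.ofReal_im, Complex.I_im, mul_one, sub_self, add_zero, Complex.add_im, Complex.mul_im,
    zero_add]
  linear_combination ((v.im : ℂ) * L Complex.I) * h5

theorem dbar_comp {f g : ℂ → ℂ} {w g' : ℂ} (hf : DifferentiableAt ℝ f (g w))
    (hg : HasDerivAt g g' w) : dbar (fun z => f (g z)) w = dbar f (g w) * conj g' := by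
  have h1 : HasFDerivAt g ((ContinuousLinearMap.toSpanSingleton ℂ g').restrictScalars ℝ) w :=
    hg.hasFDerivAt.restrictScalars ℝ
  have h2 := hf.hasFDerivAt.comp w h1
  have h3 : fderiv ℝ (fun z => f (g z)) w = _ := h2.fderiv
  rw [dbar, h3, dbar]
  set L := fderiv ℝ f (g w)
  simp only [ContinuousLinearMap.comp_apply, ContinuousLinearMap.coe_restrictScalars',
    ContinuousLinearMap.toSpanSingleton_apply, smul_eq_mul, one_mul]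
  rw [real_linear L g', real_linear L (Complex.I * g'), map_mul, Complex.conj_I]
  have h5 := Complex.I_mul_I
  linear_combination ((1/4) * (L 1 - Complex.I * L Complex.I) * g' -
    (1/4) * (L 1 + Complex.I * L Complex.I) * conj g') * h5

theorem dbar_add {f g : ℂ → ℂ} {w : ℂ} (hf : DifferentiableAt ℝ f w) (hg : DifferentiableAt ℝ g w) :
    dbar (fun z => f z + g z) w = dbar f w + dbar g w := by
  simp only [dbar, fderiv_fun_add hf hg, _root_.add_apply]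
  ring

theorem dbar_sub {f g : ℂ → ℂ} {w : ℂ} (hf : DifferentiableAt ℝ f w) (hg : DifferentiableAt ℝ g w) :
    dbar (fun z => f z - g z) w = dbar f w - dbar g w := by
  simp only [dbar, fderiv_fun_sub hf hg, _root_.sub_apply]
  ring

theorem dbar_add_const {f : ℂ → ℂ} {w : ℂ} (c : ℂ) : dbar (fun z => f z + c) w = dbar f w := by
  simp only [dbar, fderiv_add_const]

theorem dbar_const_mul {f : ℂ → ℂ} {w : ℂ} (c : ℂ) (hf : DifferentiableAt ℝ f w) :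
    dbar (fun z => c * f z) w = c * dbar f w := by
  simp only [dbar, fderiv_const_mul hf, _root_.smul_apply, smul_eq_mul]
  ring

theorem dbar_sum {ι : Type} (s : Finset ι) {f : ι → ℂ → ℂ} {w : ℂ}
    (hf : ∀ i ∈ s, DifferentiableAt ℝ (f i) w) :
    dbar (fun z => ∑ i ∈ s, f i z) w = ∑ i ∈ s, dbar (f i) w := by
  simp only [dbar, fderiv_fun_sum hf, _root_.sum_apply, ← Finset.sum_add_distrib,
    Finset.mul_sum]

theorem dbar_congr {f g : ℂ → ℂ} {w : ℂ} (h : f =ᶠ[𝓝 w] g) : dbar f w = dbar g w := by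
  rw [dbar, dbar, h.fderiv_eq]

theorem diff_of_dbar {f : ℂ → ℂ} {w : ℂ} (hf : DifferentiableAt ℝ f w) (h : dbar f w = 0) :
    DifferentiableAt ℂ f w := by
  rw [differentiableAt_complex_iff_differentiableAt_real]
  refine ⟨hf, ?_⟩
  rw [dbar] at h
  have h5 := Complex.I_mul_I
  have h6 : fderiv ℝ f w 1 + Complex.I * fderiv ℝ f w Complex.I = 0 := by
    simpa using h
  rw [smul_eq_mul]
  linear_combination (-Complex.I) * h6 + (fderiv ℝ f w Complex.I) * h5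

theorem contDiffOn_dbar {f : ℂ → ℂ} (hf : ContDiffOn ℝ ∞ f HH) : ContDiffOn ℝ ∞ (dbar f) HH := by
  have h1 : ContDiffOn ℝ ∞ (fderiv ℝ f) HH := hf.fderiv_of_isOpen isOpen_HH (by simp)
  have h2 : ∀ v : ℂ, ContDiffOn ℝ ∞ (fun w => fderiv ℝ f w v) HH := fun v =>
    h1.clm_apply contDiffOn_const
  exact contDiffOn_const.mul ((h2 1).add (contDiffOn_const.mul (h2 Complex.I)))

/-! ### local finiteness -/

theorem loc_fin (Γ : Subgroup SL(2, ℝ)) [DiscreteTopology Γ] {L : Set ℂ} (hL : IsCompact L)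
    (hLH : L ⊆ HH) {w₀ : ℂ} (hw : w₀ ∈ HH) :
    ∃ U ∈ 𝓝 w₀, ∃ S : Finset Γ, ∀ w ∈ U, ∀ δ : Γ, δ ∉ S → T (δ : SL(2, ℝ)) w ∉ L := by
  have hL' : IsCompact (((↑) : ℍ → ℂ) ⁻¹' L) := by
    rw [UpperHalfPlane.isOpenEmbedding_coe.isInducing.isCompact_preimage_iff]
    · exact hL
    · intro z hz
      exact ⟨⟨z, hLH hz⟩, rfl⟩
  obtain ⟨K, hK, hKn⟩ := exists_compact_mem_nhds (⟨w₀, hw⟩ : ℍ)
  have hfin := ProperlyDiscontinuousSMul.finite_disjoint_inter_image (Γ := Γ) hK hL'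
  refine ⟨((↑) : ℍ → ℂ) '' K, UpperHalfPlane.isOpenEmbedding_coe.image_mem_nhds.2 hKn,
    hfin.toFinset, ?_⟩
  rintro w ⟨x, hx, rfl⟩ δ hδ hT
  refine hδ (hfin.mem_toFinset.2 ⟨δ • x, ⟨x, hx, rfl⟩, ?_⟩)
  rw [T_coe] at hT
  exact hT

section core

variable {n : ℕ} (Γ : Subgroup SL(2, ℝ)) (ρ : Γ →* Matrix (Fin n) (Fin n) ℝ)

/-- the complexified representation -/
noncomputable def R (γ : Γ) : Matrix (Fin n) (Fin n) ℂ := (ρ γ).map Complex.ofReal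

theorem R_mul (γ δ : Γ) : R Γ ρ (γ * δ) = R Γ ρ γ * R Γ ρ δ := by
  ext i j
  simp [R, Matrix.mul_apply]

theorem R_one : R Γ ρ 1 = 1 := by
  ext i j
  simp [R, Matrix.one_apply, apply_ite Complex.ofReal]

variable (a : Γ → ℍ → (Fin n → ℝ))

/-- the cocycle on the complex plane -/
noncomputable def A (γ : Γ) (i : Fin n) (z : ℂ) : ℂ := ((a γ (UpperHalfPlane.ofComplex z) i : ℝ) : ℂ)

/-- its antiholomorphic derivative -/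
noncomputable def bv (γ : Γ) (z : ℂ) : Fin n → ℂ := fun i => dbar (A Γ a γ i) z

variable {a}

theorem contDiffOn_A (ha : ∀ γ, ContMDiff 𝓘(ℝ, ℂ) 𝓘(ℝ, Fin n → ℝ) ∞ (a γ)) (γ : Γ) (i : Fin n) :
    ContDiffOn ℝ ∞ (A Γ a γ i) HH := by
  have h1 := contDiffOn_of_cmd (ha γ)
  have h2 : ContDiffOn ℝ ∞ (fun z => a γ (UpperHalfPlane.ofComplex z) i) HH :=
    contDiffOn_pi.1 h1 i
  exact Complex.ofRealCLM.contDiff.comp_contDiffOn h2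

theorem contDiffOn_bv (ha : ∀ γ, ContMDiff 𝓘(ℝ, ℂ) 𝓘(ℝ, Fin n → ℝ) ∞ (a γ)) (γ : Γ) :
    ContDiffOn ℝ ∞ (bv Γ a γ) HH :=
  contDiffOn_pi.2 fun i => contDiffOn_dbar (contDiffOn_A Γ ha γ i)

theorem diffAt {f : ℂ → ℂ} (hf : ContDiffOn ℝ ∞ f HH) {w : ℂ} (hw : w ∈ HH) :
    DifferentiableAt ℝ f w :=
  (hf.contDiffAt (isOpen_HH.mem_nhds hw)).differentiableAt (by simp)

theorem bv_mul (ha : ∀ γ, ContMDiff 𝓘(ℝ, ℂ) 𝓘(ℝ, Fin n → ℝ) ∞ (a γ))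
    (hc : ∀ γ δ : Γ, ∃ c : Fin n → ℝ, ∀ w : ℍ,
      a (γ * δ) w = ρ γ *ᵥ a δ w + a γ (δ • w) + c) (γ δ : Γ) {w : ℂ} (hw : w ∈ HH) :
    bv Γ a (γ * δ) w = R Γ ρ γ *ᵥ bv Γ a δ w +
      conj (deriv (T (δ : SL(2, ℝ))) w) • bv Γ a γ (T (δ : SL(2, ℝ)) w) := by
  obtain ⟨c, hc⟩ := hc γ δ
  funext i
  have h1 : A Γ a (γ * δ) i = fun z => (∑ j, R Γ ρ γ i j * A Γ a δ j z) +
      A Γ a γ i (T (δ : SL(2, ℝ)) z) + (c i : ℂ) := by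
    funext z
    have h2 := congrFun (hc (UpperHalfPlane.ofComplex z)) i
    rw [Pi.add_apply, Pi.add_apply, Matrix.mulVec, dotProduct] at h2
    rw [A, h2]
    simp only [A, R, T, Matrix.map_apply]
    push_cast
    rw [UpperHalfPlane.ofComplex_apply]
    rfl
  have hd1 : ∀ j, DifferentiableAt ℝ (fun z => R Γ ρ γ i j * A Γ a δ j z) w := fun j =>
    (diffAt (contDiffOn_A Γ ha δ j) hw).const_mul _
  have hd2 : DifferentiableAt ℝ (fun z => ∑ j, R Γ ρ γ i j * A Γ a δ j z) w :=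
    DifferentiableAt.fun_sum fun j _ => hd1 j
  have hd3 : DifferentiableAt ℝ (A Γ a γ i) (T (δ : SL(2, ℝ)) w) :=
    diffAt (contDiffOn_A Γ ha γ i) (T_mem _ _)
  have hd4 : DifferentiableAt ℝ (fun z => A Γ a γ i (T (δ : SL(2, ℝ)) z)) w :=
    hd3.comp w (diffAt (contDiffOn_T _) hw)
  show dbar (A Γ a (γ * δ) i) w = _
  rw [h1, dbar_add_const, dbar_add hd2 hd4, dbar_sum _ fun j _ => hd1 j,
    dbar_comp hd3 (hasDerivAt_T _ hw)]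
  simp only [Pi.add_apply, Pi.smul_apply, smul_eq_mul, Matrix.mulVec, dotProduct, bv]
  rw [mul_comm (dbar _ _)]
  congr 1
  refine Finset.sum_congr rfl fun j _ => ?_
  rw [dbar_const_mul _ (diffAt (contDiffOn_A Γ ha δ j) hw)]

/-- the numerator -/
noncomputable def Nm (a : Γ → ℍ → (Fin n → ℝ)) (χ : ℂ → ℝ) (w : ℂ) : Fin n → ℂ :=
  ∑ᶠ δ : Γ, ((χ (T (δ : SL(2, ℝ)) w) : ℝ) : ℂ) • (R Γ ρ δ⁻¹ *ᵥ bv Γ a δ w)

/-- the denominator -/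
noncomputable def Dn (χ : ℂ → ℝ) (w : ℂ) : ℝ := ∑ᶠ δ : Γ, χ (T (δ : SL(2, ℝ)) w)

theorem Dn_T (χ : ℂ → ℝ) (γ : Γ) (w : ℂ) : Dn Γ χ (T (γ : SL(2, ℝ)) w) = Dn Γ χ w := by
  have h := finsum_comp_equiv (Equiv.mulRight γ) (f := fun δ : Γ => χ (T (δ : SL(2, ℝ)) w))
  rw [Dn, Dn, ← h]
  refine finsum_congr fun δ => ?_
  rw [← T_mul]; rfl

theorem Nm_T [DiscreteTopology Γ] (ha : ∀ γ, ContMDiff 𝓘(ℝ, ℂ) 𝓘(ℝ, Fin n → ℝ) ∞ (a γ))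
    (hc : ∀ γ δ : Γ, ∃ c : Fin n → ℝ, ∀ w : ℍ,
      a (γ * δ) w = ρ γ *ᵥ a δ w + a γ (δ • w) + c) {χ : ℂ → ℝ} {L : Set ℂ} (hL : IsCompact L)
    (hLH : L ⊆ HH) (hχ : ∀ z, z ∉ L → χ z = 0) (γ : Γ) {w : ℂ} (hw : w ∈ HH) :
    conj (deriv (T (γ : SL(2, ℝ))) w) • Nm Γ ρ a χ (T (γ : SL(2, ℝ)) w) =
      R Γ ρ γ *ᵥ Nm Γ ρ a χ w - (Dn Γ χ w : ℂ) • bv Γ a γ w := by
  classical
  obtain ⟨U, hU, S, hS⟩ := loc_fin Γ hL hLH hw
  have hS' : ∀ δ : Γ, δ ∉ S → χ (T (δ : SL(2, ℝ)) w) = 0 := fun δ hδ =>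
    hχ _ (hS w (mem_of_mem_nhds hU) δ hδ)
  have hD : Dn Γ χ w = ∑ δ ∈ S, χ (T (δ : SL(2, ℝ)) w) := by
    refine finsum_eq_sum_of_support_subset _ fun δ hδ => ?_
    by_contra h
    exact hδ (hS' δ h)
  have hN : Nm Γ ρ a χ w = ∑ δ ∈ S, ((χ (T (δ : SL(2, ℝ)) w) : ℝ) : ℂ) •
      (R Γ ρ δ⁻¹ *ᵥ bv Γ a δ w) := by
    refine finsum_eq_sum_of_support_subset _ fun δ hδ => ?_
    by_contra h
    refine hδ ?_
    simp only [hS' δ h, Complex.ofReal_zero, zero_smul]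
  set F : Γ → (Fin n → ℂ) := fun δ => ((χ (T (δ : SL(2, ℝ)) w) : ℝ) : ℂ) •
    (R Γ ρ γ *ᵥ (R Γ ρ δ⁻¹ *ᵥ bv Γ a δ w) - bv Γ a γ w) with hF
  have h1 : conj (deriv (T (γ : SL(2, ℝ))) w) • Nm Γ ρ a χ (T (γ : SL(2, ℝ)) w) =
      ∑ᶠ δ : Γ, F (δ * γ) := by
    rw [Nm, smul_finsum]
    refine finsum_congr fun δ => ?_
    have h2 := bv_mul Γ ρ ha hc δ γ hw
    have h3 : conj (deriv (T (γ : SL(2, ℝ))) w) • bv Γ a δ (T (γ : SL(2, ℝ)) w) =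
        bv Γ a (δ * γ) w - R Γ ρ δ *ᵥ bv Γ a γ w := by
      rw [h2]; abel
    rw [smul_comm, ← Matrix.mulVec_smul, h3, hF]
    simp only
    rw [← T_mul, Matrix.mulVec_sub, Matrix.mulVec_mulVec, Matrix.mulVec_mulVec, ← R_mul, ← R_mul,
      inv_mul_cancel, R_one, Matrix.one_mulVec, mul_inv_rev, mul_inv_cancel_left]
    rfl
  have h5 : ∑ᶠ δ : Γ, F (δ * γ) = ∑ᶠ δ, F δ := finsum_comp_equiv (Equiv.mulRight γ)
  rw [h1, h5]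
  have h4 : ∑ᶠ δ, F δ = ∑ δ ∈ S, F δ := by
    refine finsum_eq_sum_of_support_subset _ fun δ hδ => ?_
    by_contra h
    refine hδ ?_
    simp only [hF, hS' δ h, Complex.ofReal_zero, zero_smul]
  rw [h4, hN, hD, Matrix.mulVec_sum]
  simp only [hF, smul_sub, Finset.sum_sub_distrib, Matrix.mulVec_smul]
  congr 1
  rw [Complex.ofReal_sum, Finset.sum_smul]

theorem contDiffOn_Dn [DiscreteTopology Γ] {χ : ℂ → ℝ} {L : Set ℂ} (hL : IsCompact L)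
    (hLH : L ⊆ HH) (hχ : ∀ z, z ∉ L → χ z = 0) (hs : ContDiff ℝ ∞ χ) :
    ContDiffOn ℝ ∞ (Dn Γ χ) HH := by
  intro w hw
  obtain ⟨U, hU, S, hS⟩ := loc_fin Γ hL hLH hw
  have h1 : Dn Γ χ =ᶠ[𝓝 w] fun z => ∑ δ ∈ S, χ (T (δ : SL(2, ℝ)) z) := by
    filter_upwards [hU] with z hz
    refine finsum_eq_sum_of_support_subset _ fun δ hδ => ?_
    by_contra h
    exact hδ (hχ _ (hS z hz δ h))
  have h2 : ContDiffAt ℝ ∞ (fun z => ∑ δ ∈ S, χ (T (δ : SL(2, ℝ)) z)) w :=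
    ContDiffAt.sum fun δ _ => hs.contDiffAt.comp w
      ((contDiffOn_T _).contDiffAt (isOpen_HH.mem_nhds hw))
  exact (h2.congr_of_eventuallyEq h1).contDiffWithinAt

theorem contDiffOn_Nm [DiscreteTopology Γ]
    (ha : ∀ γ, ContMDiff 𝓘(ℝ, ℂ) 𝓘(ℝ, Fin n → ℝ) ∞ (a γ)) {χ : ℂ → ℝ} {L : Set ℂ}
    (hL : IsCompact L) (hLH : L ⊆ HH) (hχ : ∀ z, z ∉ L → χ z = 0) (hs : ContDiff ℝ ∞ χ) :
    ContDiffOn ℝ ∞ (Nm Γ ρ a χ) HH := by
  intro w hw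
  obtain ⟨U, hU, S, hS⟩ := loc_fin Γ hL hLH hw
  have h1 : Nm Γ ρ a χ =ᶠ[𝓝 w] fun z => ∑ δ ∈ S, ((χ (T (δ : SL(2, ℝ)) z) : ℝ) : ℂ) •
      (R Γ ρ δ⁻¹ *ᵥ bv Γ a δ z) := by
    filter_upwards [hU] with z hz
    refine finsum_eq_sum_of_support_subset _ fun δ hδ => ?_
    by_contra h
    refine hδ ?_
    simp only [hχ _ (hS z hz δ h), Complex.ofReal_zero, zero_smul]
  have h2 : ContDiffAt ℝ ∞ (fun z => ∑ δ ∈ S, ((χ (T (δ : SL(2, ℝ)) z) : ℝ) : ℂ) •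
      (R Γ ρ δ⁻¹ *ᵥ bv Γ a δ z)) w := by
    refine ContDiffAt.sum fun δ _ => ?_
    have h3 : ContDiffAt ℝ ∞ (fun z => ((χ (T (δ : SL(2, ℝ)) z) : ℝ) : ℂ)) w :=
      Complex.ofRealCLM.contDiff.contDiffAt.comp w (hs.contDiffAt.comp w
        ((contDiffOn_T _).contDiffAt (isOpen_HH.mem_nhds hw)))
    have h4 : ContDiffAt ℝ ∞ (fun z => R Γ ρ δ⁻¹ *ᵥ bv Γ a δ z) w := by
      have h5 := ((contDiffOn_bv Γ ha δ).contDiffAt (isOpen_HH.mem_nhds hw))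
      have h6 := contDiffAt_pi.1 h5
      refine contDiffAt_pi.2 fun i => ?_
      simp only [Matrix.mulVec, dotProduct]
      exact ContDiffAt.sum fun j _ => contDiffAt_const.mul (h6 j)
    exact h3.smul h4
  exact (h2.congr_of_eventuallyEq h1).contDiffWithinAt

theorem Dn_pos [DiscreteTopology Γ] {χ : ℂ → ℝ} {L : Set ℂ} (hL : IsCompact L)
    (hLH : L ⊆ HH) (hχ : ∀ z, z ∉ L → χ z = 0) (h0 : ∀ z, 0 ≤ χ z) {w : ℂ} (hw : w ∈ HH)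
    {γ : Γ} (hγ : 0 < χ (T (γ : SL(2, ℝ)) w)) : 0 < Dn Γ χ w := by
  obtain ⟨U, hU, S, hS⟩ := loc_fin Γ hL hLH hw
  have hD : Dn Γ χ w = ∑ δ ∈ S, χ (T (δ : SL(2, ℝ)) w) := by
    refine finsum_eq_sum_of_support_subset _ fun δ hδ => ?_
    by_contra h
    exact hδ (hχ _ (hS w (mem_of_mem_nhds hU) δ h))
  rw [hD]
  refine Finset.sum_pos' (fun δ _ => h0 _) ⟨γ, ?_, hγ⟩
  by_contra h
  exact hγ.ne' (hχ _ (hS w (mem_of_mem_nhds hU) γ h))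

/-- the averaged (0,1)-form -/
noncomputable def Bt (a : Γ → ℍ → (Fin n → ℝ)) (χ : ℂ → ℝ) (i : Fin n) (w : ℂ) : ℂ :=
  Nm Γ ρ a χ w i * (((Dn Γ χ w)⁻¹ : ℝ) : ℂ)

theorem contDiffOn_Bt [DiscreteTopology Γ]
    (ha : ∀ γ, ContMDiff 𝓘(ℝ, ℂ) 𝓘(ℝ, Fin n → ℝ) ∞ (a γ)) {χ : ℂ → ℝ} {L : Set ℂ}
    (hL : IsCompact L) (hLH : L ⊆ HH) (hχ : ∀ z, z ∉ L → χ z = 0) (hs : ContDiff ℝ ∞ χ)
    (hD : ∀ w ∈ HH, 0 < Dn Γ χ w) (i : Fin n) : ContDiffOn ℝ ∞ (Bt Γ ρ a χ i) HH := by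
  have h1 : ContDiffOn ℝ ∞ (fun w => Nm Γ ρ a χ w i) HH :=
    contDiffOn_pi.1 (contDiffOn_Nm Γ ρ ha hL hLH hχ hs) i
  have h2 : ContDiffOn ℝ ∞ (fun w => (Dn Γ χ w)⁻¹) HH :=
    (contDiffOn_Dn Γ hL hLH hχ hs).inv fun w hw => (hD w hw).ne'
  have h3 : ContDiffOn ℝ ∞ (fun w => (((Dn Γ χ w)⁻¹ : ℝ) : ℂ)) HH :=
    Complex.ofRealCLM.contDiff.comp_contDiffOn h2
  exact h1.mul h3

theorem Bt_T [DiscreteTopology Γ] (ha : ∀ γ, ContMDiff 𝓘(ℝ, ℂ) 𝓘(ℝ, Fin n → ℝ) ∞ (a γ))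
    (hc : ∀ γ δ : Γ, ∃ c : Fin n → ℝ, ∀ w : ℍ,
      a (γ * δ) w = ρ γ *ᵥ a δ w + a γ (δ • w) + c) {χ : ℂ → ℝ} {L : Set ℂ} (hL : IsCompact L)
    (hLH : L ⊆ HH) (hχ : ∀ z, z ∉ L → χ z = 0) (hD : ∀ w ∈ HH, 0 < Dn Γ χ w)
    (γ : Γ) (i : Fin n) {w : ℂ} (hw : w ∈ HH) :
    Bt Γ ρ a χ i (T (γ : SL(2, ℝ)) w) * conj (deriv (T (γ : SL(2, ℝ))) w) =
      (∑ j, R Γ ρ γ i j * Bt Γ ρ a χ j w) - bv Γ a γ w i := by
  have h1 := congrFun (Nm_T Γ ρ ha hc hL hLH hχ γ hw) i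
  have h2 : (Dn Γ χ w : ℂ) ≠ 0 := by exact_mod_cast (hD w hw).ne'
  simp only [Pi.smul_apply, smul_eq_mul, Pi.sub_apply, Matrix.mulVec, dotProduct] at h1
  have h3 : (∑ j, R Γ ρ γ i j * Bt Γ ρ a χ j w) =
      (∑ j, R Γ ρ γ i j * Nm Γ ρ a χ w j) * (((Dn Γ χ w)⁻¹ : ℝ) : ℂ) := by
    rw [Finset.sum_mul]
    exact Finset.sum_congr rfl fun j _ => by rw [Bt, mul_assoc]
  rw [h3, Bt, Dn_T]
  have h4 : (((Dn Γ χ w)⁻¹ : ℝ) : ℂ) * (Dn Γ χ w : ℂ) = 1 := by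
    rw [Complex.ofReal_inv]
    exact inv_mul_cancel₀ h2
  linear_combination (((Dn Γ χ w)⁻¹ : ℝ) : ℂ) * h1 - (bv Γ a γ w i) * h4

end core

end CH

/-! ### the affine part -/

theorem exists_psi {n : ℕ} (Γ : Subgroup SL(2, ℝ)) [DiscreteTopology Γ]
    (hcoc : ∃ K : Set ℍ, IsCompact K ∧ ∀ w : ℍ, ∃ γ : Γ, γ • w ∈ K)
    (ρ : Γ →* Matrix (Fin n) (Fin n) ℝ) (a : Γ → ℍ → (Fin n → ℝ))
    (ha : ∀ γ, ContMDiff 𝓘(ℝ, ℂ) 𝓘(ℝ, Fin n → ℝ) ∞ (a γ))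
    (hc : ∀ γ δ : Γ, ∃ c : Fin n → ℝ, ∀ w : ℍ,
      a (γ * δ) w = ρ γ *ᵥ a δ w + a γ (δ • w) + c) :
    ∃ (ψ : ℍ → (Fin n → ℂ)) (s : Γ → ℂ → (Fin n → ℂ)),
      ContMDiff 𝓘(ℝ, ℂ) 𝓘(ℝ, Fin n → ℂ) ∞ ψ ∧
      (∀ γ i, DifferentiableOn ℂ (fun w => s γ w i) HH) ∧
      ∀ (γ : Γ) (w : ℍ), (fun i => ((a γ w i : ℝ) : ℂ)) + ψ (γ • w) =
        (ρ γ).map Complex.ofReal *ᵥ ψ w + s γ w := by
  obtain ⟨K, hK, hKc⟩ := hcoc
  have hK' : IsCompact (((↑) : ℍ → ℂ) '' K) := hK.image UpperHalfPlane.continuous_coe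
  obtain ⟨L, hL, hKL, hLH⟩ := exists_compact_between hK' CH.isOpen_HH
    (by rintro z ⟨x, -, rfl⟩; exact x.im_pos)
  obtain ⟨χ, hχs, hχd, hχr⟩ := (isOpen_interior (s := L)).exists_contDiff_support_eq (n := ⊤)
  have hχ : ∀ z, z ∉ L → χ z = 0 := by
    intro z hz
    by_contra h
    have h1 : z ∈ Function.support χ := h
    rw [hχs] at h1
    exact hz (interior_subset h1)
  have h0 : ∀ z, 0 ≤ χ z := fun z => (hχr (Set.mem_range_self z)).1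
  have hD : ∀ w ∈ HH, 0 < CH.Dn Γ χ w := by
    intro w hw
    obtain ⟨γ, hγ⟩ := hKc ⟨w, hw⟩
    have h2 : CH.T (γ : SL(2, ℝ)) w = ((γ • (⟨w, hw⟩ : ℍ) : ℍ) : ℂ) :=
      CH.T_coe (γ : SL(2, ℝ)) ⟨w, hw⟩
    have h3 : CH.T (γ : SL(2, ℝ)) w ∈ ((↑) : ℍ → ℂ) '' K := by
      rw [h2]
      exact Set.mem_image_of_mem _ hγ
    have h4 : CH.T (γ : SL(2, ℝ)) w ∈ Function.support χ := by
      rw [hχs]
      exact hKL h3
    have h5 : 0 < χ (CH.T (γ : SL(2, ℝ)) w) := lt_of_le_of_ne (h0 _) (Ne.symm h4)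
    exact CH.Dn_pos Γ hL hLH hχ h0 hw h5
  have hβs : ∀ i, ContDiffOn ℝ ∞ (CH.Bt Γ ρ a χ i) HH :=
    CH.contDiffOn_Bt Γ ρ ha hL hLH hχ hχd hD
  choose u hus hud using fun i => dbar_solve (CH.Bt Γ ρ a χ i) (hβs i)
  refine ⟨fun w i => u i w, fun γ z i => CH.A Γ a γ i z + u i (CH.T (γ : SL(2, ℝ)) z) -
    ∑ j, CH.R Γ ρ γ i j * u j z, ?_, ?_, ?_⟩
  · exact CH.cmd_of_contDiffOn (g := fun z i => u i z) (contDiffOn_pi.2 hus)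
  · intro γ i w hw
    refine DifferentiableAt.differentiableWithinAt ?_
    have hd1 := CH.diffAt (CH.contDiffOn_A Γ ha γ i) hw
    have hd2 := CH.diffAt (hus i) (CH.T_mem (γ : SL(2, ℝ)) w)
    have hd3 : DifferentiableAt ℝ (fun z => u i (CH.T (γ : SL(2, ℝ)) z)) w :=
      hd2.comp w (CH.diffAt (CH.contDiffOn_T _) hw)
    have hd4 : ∀ j, DifferentiableAt ℝ (fun z => CH.R Γ ρ γ i j * u j z) w := fun j =>
      (CH.diffAt (hus j) hw).const_mul _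
    have hd5 : DifferentiableAt ℝ (fun z => ∑ j, CH.R Γ ρ γ i j * u j z) w :=
      DifferentiableAt.fun_sum fun j _ => hd4 j
    have hd6 : DifferentiableAt ℝ (fun z => CH.A Γ a γ i z + u i (CH.T (γ : SL(2, ℝ)) z)) w :=
      hd1.fun_add hd3
    have hd7 : DifferentiableAt ℝ (fun z => CH.A Γ a γ i z + u i (CH.T (γ : SL(2, ℝ)) z) -
        ∑ j, CH.R Γ ρ γ i j * u j z) w := hd6.fun_sub hd5
    refine CH.diff_of_dbar hd7 ?_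
    show dbar (fun z => CH.A Γ a γ i z + u i (CH.T (γ : SL(2, ℝ)) z) -
        ∑ j, CH.R Γ ρ γ i j * u j z) w = 0
    rw [CH.dbar_sub hd6 hd5, CH.dbar_add hd1 hd3, CH.dbar_sum _ fun j _ => hd4 j,
      CH.dbar_comp hd2 (CH.hasDerivAt_T _ hw), hud i _ (CH.T_mem _ _),
      CH.Bt_T Γ ρ ha hc hL hLH hχ hD γ i hw]
    have h1 : ∀ j, dbar (fun z => CH.R Γ ρ γ i j * u j z) w =
        CH.R Γ ρ γ i j * CH.Bt Γ ρ a χ j w := by
      intro j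
      rw [CH.dbar_const_mul _ (CH.diffAt (hus j) hw), hud j w hw]
    simp only [h1, CH.bv]
    ring
  · intro γ w
    funext i
    simp only [Pi.add_apply, Matrix.mulVec, dotProduct, CH.A, CH.T_coe,
      UpperHalfPlane.ofComplex_apply]
    have h1 : ((γ • w : ℍ) : ℂ) = (((γ : SL(2, ℝ)) • w : ℍ) : ℂ) := rfl
    rw [h1]
    simp only [CH.R]
    ring

end Pool.Agent.HypBundle
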