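import Mathlib
import Pool.Agent.Lib.MP_1d980c_gt.Hyp.Defs
import Pool.Agent.Lib.MP_1d980c_gt.Main

set_option autoImplicit false
open scoped UpperHalfPlane MatrixGroups Manifold ContDiff Matrix Topology
open Complex ComplexConjugate

namespace Pool.Agent.HypBundle

section Real

lemma isManifold_real : IsManifold 𝓘(ℝ, ℂ) ∞ ℍ :=
  UpperHalfPlane.isOpenEmbedding_coe.isManifold_singleton

lemma contMDiff_coeR : ContMDiff 𝓘(ℝ, ℂ) 𝓘(ℝ, ℂ) ∞ ((↑) : ℍ → ℂ) := by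
  have := isManifold_real
  exact fun _ => contMDiffAt_extChartAt

lemma isOpen_HH : IsOpen HH := isOpen_lt continuous_const Complex.continuous_im

lemma contMDiffOn_ofComplexR : ContMDiffOn 𝓘(ℝ, ℂ) 𝓘(ℝ, ℂ) ∞ (fun z : ℂ => UpperHalfPlane.ofComplex z)
    HH := by
  intro z hz
  apply ContMDiffAt.contMDiffWithinAt
  rw [contMDiffAt_iff]
  constructor
  · rw [ContinuousAt, nhds_induced, Filter.tendsto_comap_iff]
    refine Filter.Tendsto.congr' (UpperHalfPlane.eventuallyEq_coe_comp_ofComplex hz).symm ?_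
    simpa [UpperHalfPlane.ofComplex_apply_of_im_pos hz] using! Filter.tendsto_id
  · simpa using! contDiffAt_id.congr_of_eventuallyEq
      (UpperHalfPlane.eventuallyEq_coe_comp_ofComplex hz)

variable {m : ℕ} (L : ℂ → Matrix (Fin m) (Fin (2 * m)) ℂ)
  (hL : ∀ i j, DifferentiableOn ℂ (fun w => L w i j) HH)

include hL in
lemma contDiffOn_entry (i : Fin m) (j : Fin (2 * m)) : ContDiffOn ℝ ∞ (fun w => L w i j) HH :=
  ((hL i j).contDiffOn isOpen_HH).restrict_scalars ℝ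

include hL in
lemma contDiffOn_Rm : ContDiffOn ℝ ∞ (TorusBundle.Rm L) HH := by
  unfold TorusBundle.Rm
  refine ContDiffOn.sum fun k _ => ?_
  refine ContDiffOn.smulRight contDiffOn_const ?_
  rw [contDiffOn_pi]
  intro i
  exact contDiffOn_entry L hL i k

variable (hnd : ∀ w : ℍ, TorusBundle.ND (L w))

include hnd in
lemma RmH_injective (w : ℍ) : Function.Injective (TorusBundle.Rm L w) := by
  rw [injective_iff_map_eq_zero]
  intro v hv
  rw [TorusBundle.Rm_apply] at hv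
  exact hnd w v hv

/-- the real-linear isomorphism -/
noncomputable def ReH (w : ℍ) : (Fin (2 * m) → ℝ) ≃L[ℝ] (Fin m → ℂ) :=
  (LinearMap.linearEquivOfInjective (TorusBundle.Rm L w : (Fin (2 * m) → ℝ) →ₗ[ℝ] (Fin m → ℂ))
    (RmH_injective L hnd w) (by
      rw [Module.finrank_fintype_fun_eq_card, Module.finrank_pi_fintype]
      simp [mul_comm])).toContinuousLinearEquiv

lemma ReH_coe (w : ℍ) : ((ReH L hnd w : (Fin (2 * m) → ℝ) ≃L[ℝ] (Fin m → ℂ)) :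
    (Fin (2 * m) → ℝ) →L[ℝ] (Fin m → ℂ)) = TorusBundle.Rm L w := by
  ext v; rfl

lemma ReH_apply (w : ℍ) (v : Fin (2 * m) → ℝ) : ReH L hnd w v = L w *ᵥ TorusBundle.cv v := by
  rw [← TorusBundle.Rm_apply]; rfl

include hL hnd in
lemma contDiffOn_inv : ContDiffOn ℝ ∞
    (fun w => ContinuousLinearMap.inverse (TorusBundle.Rm L w)) HH := by
  intro w hw
  apply ContDiffAt.contDiffWithinAt
  have h2 : ContDiffAt ℝ ∞ (ContinuousLinearMap.inverse :
      ((Fin (2 * m) → ℝ) →L[ℝ] (Fin m → ℂ)) → _) (TorusBundle.Rm L w) := by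
    have := ReH_coe L hnd ⟨w, hw⟩
    rw [show TorusBundle.Rm L w = TorusBundle.Rm L ((⟨w, hw⟩ : ℍ) : ℂ) from rfl, ← this]
    exact contDiffAt_map_inverse _
  exact h2.comp w ((contDiffOn_Rm L hL).contDiffAt (isOpen_HH.mem_nhds hw))

end Real

theorem exists_PhiH {m : ℕ} (L : ℂ → Matrix (Fin m) (Fin (2 * m)) ℂ)
    (hL : ∀ i j, DifferentiableOn ℂ (fun w => L w i j) HH) (hnd : ∀ w : ℍ, TorusBundle.ND (L w))
    (ψ : ℍ → (Fin (2 * m) → ℂ)) (hψ : ContMDiff 𝓘(ℝ, ℂ) 𝓘(ℝ, Fin (2 * m) → ℂ) ∞ ψ) :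
    ∃ Φ : PartialDiffeomorph (𝓘(ℝ, Fin (2 * m) → ℝ).prod 𝓘(ℝ, ℂ))
        𝓘(ℝ, EuclideanSpace ℂ (Fin (m + 1))) ((Fin (2 * m) → ℝ) × ℍ)
        (EuclideanSpace ℂ (Fin (m + 1))) ∞,
      Φ.source = Set.univ ∧ Φ.target = {z | 0 < (TorusBundle.lst z).im} ∧
      ∀ (v : Fin (2 * m) → ℝ) (w : ℍ), Φ (v, w) =
        TorusBundle.mk (L w *ᵥ (TorusBundle.cv v + ψ w)) (w : ℂ) := by
  have hmul : ContMDiff 𝓘(ℝ, ℂ) 𝓘(ℝ, Fin m → ℂ) ∞ (fun w : ℍ => L w *ᵥ ψ w) := by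
    rw [contMDiff_pi_space]
    intro i
    simp only [Matrix.mulVec, dotProduct]
    refine contMDiff_finsetSum fun j _ => ?_
    have h1 : ContMDiff 𝓘(ℝ, ℂ) 𝓘(ℝ, ℂ) ∞ (fun w : ℍ => L w i j) := by
      have := (contDiffOn_entry L hL i j).contMDiffOn
      exact this.comp_contMDiff contMDiff_coeR (fun w => w.im_pos)
    have h2 : ContMDiff 𝓘(ℝ, ℂ) 𝓘(ℝ, ℂ) ∞ (fun w : ℍ => ψ w j) :=
      (contMDiff_pi_space.1 hψ) j
    have h3 : ContDiff ℝ ∞ (fun q : ℂ × ℂ => q.1 * q.2) := contDiff_fst.mul contDiff_snd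
    exact h3.contMDiff.comp (h1.prodMk_space h2)
  refine ⟨
    { toFun := fun p => TorusBundle.mk (TorusBundle.Rm L p.2 p.1 + L p.2 *ᵥ ψ p.2) (p.2 : ℂ)
      invFun := fun z => (ContinuousLinearMap.inverse (TorusBundle.Rm L (TorusBundle.lst z))
        (TorusBundle.ini z - L (TorusBundle.lst z) *ᵥ ψ (UpperHalfPlane.ofComplex (TorusBundle.lst z))),
        UpperHalfPlane.ofComplex (TorusBundle.lst z))
      source := Set.univ
      target := {z | 0 < (TorusBundle.lst z).im}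
      map_source' := ?_
      map_target' := ?_
      left_inv' := ?_
      right_inv' := ?_
      open_source := isOpen_univ
      open_target := ?_
      contMDiffOn_toFun := ?_
      contMDiffOn_invFun := ?_ }, rfl, rfl, ?_⟩
  · rintro ⟨v, w⟩ -
    simp only [Set.mem_ofPred_eq, TorusBundle.lst_mk]
    exact w.im_pos
  · intro z _; trivial
  · rintro ⟨v, w⟩ -
    simp only [TorusBundle.lst_mk, TorusBundle.ini_mk, UpperHalfPlane.ofComplex_apply,
      add_sub_cancel_right]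
    rw [← ReH_coe L hnd w, ContinuousLinearMap.inverse_equiv]
    simp
  · intro z hz
    simp only [Set.mem_ofPred_eq] at hz
    have h1 : UpperHalfPlane.ofComplex (TorusBundle.lst z) = ⟨TorusBundle.lst z, hz⟩ :=
      UpperHalfPlane.ofComplex_apply_of_im_pos hz
    have h2 : ((UpperHalfPlane.ofComplex (TorusBundle.lst z) : ℍ) : ℂ) = TorusBundle.lst z := by
      rw [h1]
    simp only [h2]
    have h3 : TorusBundle.Rm L (TorusBundle.lst z) =
      ((ReH L hnd ⟨TorusBundle.lst z, hz⟩ : (Fin (2 * m) → ℝ) ≃L[ℝ] (Fin m → ℂ)) :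
      (Fin (2 * m) → ℝ) →L[ℝ] (Fin m → ℂ)) := (ReH_coe L hnd ⟨TorusBundle.lst z, hz⟩).symm
    rw [h3, ContinuousLinearMap.inverse_equiv]
    simp
  · exact isOpen_lt continuous_const
      (Complex.continuous_im.comp (TorusBundle.contDiff_lstR (m := m)).continuous)
  · apply ContMDiff.contMDiffOn
    have hw : ContMDiff (𝓘(ℝ, Fin (2 * m) → ℝ).prod 𝓘(ℝ, ℂ)) 𝓘(ℝ, ℂ) ∞
        (fun p : (Fin (2 * m) → ℝ) × ℍ => (p.2 : ℂ)) := contMDiff_coeR.comp contMDiff_snd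
    have hR : ContMDiff (𝓘(ℝ, Fin (2 * m) → ℝ).prod 𝓘(ℝ, ℂ))
        𝓘(ℝ, (Fin (2 * m) → ℝ) →L[ℝ] (Fin m → ℂ)) ∞
        (fun p : (Fin (2 * m) → ℝ) × ℍ => TorusBundle.Rm L (p.2 : ℂ)) :=
      (contDiffOn_Rm L hL).contMDiffOn.comp_contMDiff hw (fun p => p.2.im_pos)
    have hx : ContMDiff (𝓘(ℝ, Fin (2 * m) → ℝ).prod 𝓘(ℝ, ℂ)) 𝓘(ℝ, Fin m → ℂ) ∞
        (fun p : (Fin (2 * m) → ℝ) × ℍ => TorusBundle.Rm L (p.2 : ℂ) p.1 + L p.2 *ᵥ ψ p.2) :=
      (hR.clm_apply contMDiff_fst).add (hmul.comp contMDiff_snd)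
    have hmk : ContDiff ℝ ∞ (fun q : (Fin m → ℂ) × ℂ => TorusBundle.mk q.1 q.2) :=
      TorusBundle.contDiff_mkR contDiff_fst contDiff_snd
    exact hmk.contMDiff.comp (hx.prodMk_space hw)
  · have hl : ContMDiffOn 𝓘(ℝ, EuclideanSpace ℂ (Fin (m + 1))) 𝓘(ℝ, ℂ) ∞
        (TorusBundle.lst : EuclideanSpace ℂ (Fin (m + 1)) → ℂ) {z | 0 < (TorusBundle.lst z).im} :=
      TorusBundle.contDiff_lstR.contMDiff.contMDiffOn
    have hw : ContMDiffOn 𝓘(ℝ, EuclideanSpace ℂ (Fin (m + 1))) 𝓘(ℝ, ℂ) ∞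
        (fun z : EuclideanSpace ℂ (Fin (m + 1)) => UpperHalfPlane.ofComplex (TorusBundle.lst z))
        {z | 0 < (TorusBundle.lst z).im} :=
      contMDiffOn_ofComplexR.comp hl (fun z hz => hz)
    refine ContMDiffOn.prodMk ?_ hw
    have hI : ContMDiffOn 𝓘(ℝ, EuclideanSpace ℂ (Fin (m + 1)))
        𝓘(ℝ, (Fin m → ℂ) →L[ℝ] (Fin (2 * m) → ℝ)) ∞
        (fun z : EuclideanSpace ℂ (Fin (m + 1)) =>
          ContinuousLinearMap.inverse (TorusBundle.Rm L (TorusBundle.lst z)))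
        {z | 0 < (TorusBundle.lst z).im} :=
      (contDiffOn_inv L hL hnd).contMDiffOn.comp hl (fun z hz => hz)
    refine hI.clm_apply ?_
    refine ContMDiffOn.sub TorusBundle.contDiff_iniR.contMDiff.contMDiffOn ?_
    have := hmul.comp_contMDiffOn hw
    refine this.congr fun z hz => ?_
    simp only [Set.mem_ofPred_eq] at hz
    simp only [Function.comp_apply, UpperHalfPlane.ofComplex_apply_of_im_pos hz]
  · intro v w
    change TorusBundle.mk (TorusBundle.Rm L w v + L w *ᵥ ψ w) (w : ℂ) = _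
    rw [TorusBundle.Rm_apply, Matrix.mulVec_add]

end Pool.Agent.HypBundle
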