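import Mathlib
import Pool.Agent.Lib.MP_1d980c_gt.Hyp.Defs

set_option autoImplicit false
open scoped UpperHalfPlane MatrixGroups Manifold ContDiff Matrix Topology
open Set

namespace Pool.Agent.HypBundle

section Charts

variable {k : ℕ} {E H P : Type} [NormedAddCommGroup E]
    [NormedSpace ℝ E] [TopologicalSpace H] {J : ModelWithCorners ℝ E H} [TopologicalSpace P]
    [ChartedSpace H P]
    {M : Type} [TopologicalSpace M] [ChartedSpace (EuclideanSpace ℝ (Fin (2 * k))) M]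

/-- the chart of the quotient given by a local section of the projection followed by `Φ`. -/
noncomputable def ochart (Ψ : PartialDiffeomorph J (𝓡 (2 * k)) P M ∞)
    (Φ : PartialDiffeomorph J 𝓘(ℝ, EuclideanSpace ℂ (Fin k)) P (EuclideanSpace ℂ (Fin k)) ∞) :
    OpenPartialHomeomorph M (EuclideanSpace ℂ (Fin k)) :=
  Ψ.toOpenPartialHomeomorph.symm.trans Φ.toOpenPartialHomeomorph

lemma ochart_source (Ψ : PartialDiffeomorph J (𝓡 (2 * k)) P M ∞)
    (Φ : PartialDiffeomorph J 𝓘(ℝ, EuclideanSpace ℂ (Fin k)) P (EuclideanSpace ℂ (Fin k)) ∞)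
    (hΦ : Φ.source = Set.univ) :
    (ochart Ψ Φ).source = Ψ.target := by
  have h : (ochart Ψ Φ).source = Ψ.target ∩ Ψ.symm ⁻¹' Φ.source := rfl
  rw [h, hΦ, preimage_univ, inter_univ]

lemma ochart_target (Ψ : PartialDiffeomorph J (𝓡 (2 * k)) P M ∞)
    (Φ : PartialDiffeomorph J 𝓘(ℝ, EuclideanSpace ℂ (Fin k)) P (EuclideanSpace ℂ (Fin k)) ∞) :
    (ochart Ψ Φ).target = Φ.target ∩ Φ.symm ⁻¹' Ψ.source := rfl

lemma ochart_apply (Ψ : PartialDiffeomorph J (𝓡 (2 * k)) P M ∞)
    (Φ : PartialDiffeomorph J 𝓘(ℝ, EuclideanSpace ℂ (Fin k)) P (EuclideanSpace ℂ (Fin k)) ∞)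
    (m : M) : ochart Ψ Φ m = Φ (Ψ.symm m) := rfl

lemma ochart_symm_apply (Ψ : PartialDiffeomorph J (𝓡 (2 * k)) P M ∞)
    (Φ : PartialDiffeomorph J 𝓘(ℝ, EuclideanSpace ℂ (Fin k)) P (EuclideanSpace ℂ (Fin k)) ∞)
    (z : EuclideanSpace ℂ (Fin k)) : (ochart Ψ Φ).symm z = Ψ (Φ.symm z) := rfl

end Charts

theorem exists_complex_structure_open {k : ℕ} {E H P : Type} [NormedAddCommGroup E]
    [NormedSpace ℝ E] [TopologicalSpace H] {J : ModelWithCorners ℝ E H} [TopologicalSpace P]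
    [ChartedSpace H P]
    {M : Type} [TopologicalSpace M] [ChartedSpace (EuclideanSpace ℝ (Fin (2 * k))) M]
    [IsManifold (𝓡 (2 * k)) ∞ M]
    (π : P → M) (hπ : IsLocalDiffeomorph J (𝓡 (2 * k)) ∞ π) (hs : Function.Surjective π)
    (Φ : PartialDiffeomorph J 𝓘(ℝ, EuclideanSpace ℂ (Fin k)) P (EuclideanSpace ℂ (Fin k)) ∞)
    (hΦ : Φ.source = Set.univ)
    (hdeck : ∀ p p' : P, π p = π p' → ∃ g : P → P, Continuous g ∧ g p = p' ∧ (∀ x, π (g x) = π x) ∧
      ContDiffOn ℂ ∞ (fun z => Φ (g (Φ.symm z))) Φ.target) :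
    ∃ (N : Type) (_ : TopologicalSpace N) (_ : ChartedSpace (EuclideanSpace ℂ (Fin k)) N),
      IsManifold 𝓘(ℂ, EuclideanSpace ℂ (Fin k)) ∞ N ∧
      Nonempty (Diffeomorph (𝓡 (2 * k)) 𝓘(ℝ, EuclideanSpace ℂ (Fin k)) M N ∞) := by
  classical
  choose Ψ hΨ heq using hπ
  choose q hq using hs
  have hmem : ∀ m : M, m ∈ (Ψ (q m)).target := by
    intro m
    have h := (Ψ (q m)).map_source (hΨ (q m))
    have h2 : (Ψ (q m)) (q m) = m := by rw [← heq (q m) (hΨ (q m)), hq]
    rwa [show (Ψ (q m)).toPartialEquiv (q m) = m from h2] at h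
  have hΦs : ∀ p : P, p ∈ Φ.source := fun p => by rw [hΦ]; trivial
  have hΦleft : ∀ p : P, Φ.symm (Φ p) = p := fun p => Φ.left_inv (hΦs p)
  have hΦmem : ∀ p : P, Φ p ∈ Φ.target := fun p => Φ.map_source (hΦs p)
  have hΦcont : Continuous (fun p => Φ p) := by
    have := Φ.contMDiffOn_toFun.continuousOn
    rw [hΦ] at this
    exact continuousOn_univ.1 this
  have hΦsymm : ContinuousOn (fun z => Φ.symm z) Φ.target := Φ.contMDiffOn_invFun.continuousOn
  let cs : ChartedSpace (EuclideanSpace ℂ (Fin k)) M :=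
    { atlas := {e | ∃ p, e = ochart (Ψ p) Φ}
      chartAt := fun m => ochart (Ψ (q m)) Φ
      mem_chart_source := fun m => by rw [ochart_source _ _ hΦ]; exact hmem m
      chart_mem_atlas := fun m => ⟨q m, rfl⟩ }
  refine ⟨M, inferInstance, cs, ?_, ⟨?_⟩⟩
  · apply isManifold_of_contDiffOn
    rintro e e' ⟨p, rfl⟩ ⟨p', rfl⟩
    intro z hz
    apply ContDiffAt.contDiffWithinAt
    simp only [modelWithCornersSelf_coe_symm, modelWithCornersSelf_coe, preimage_id, range_id,
      inter_univ, OpenPartialHomeomorph.trans_source, OpenPartialHomeomorph.symm_source,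
      mem_inter_iff, mem_preimage] at hz
    obtain ⟨hz1, hz2⟩ := hz
    rw [ochart_target] at hz1
    obtain ⟨hz0, hz1⟩ := hz1
    rw [ochart_source _ _ hΦ, ochart_symm_apply] at hz2
    -- `x` the point upstairs
    set x : P := Φ.symm z with hx
    have hx1 : x ∈ (Ψ p).source := hz1
    have hx2 : (Ψ p) x = π x := (heq p hx1).symm
    rw [hx2] at hz2
    set x' : P := (Ψ p').symm (π x) with hx'
    have hx'1 : x' ∈ (Ψ p').source := (Ψ p').map_target hz2
    have hx'2 : π x' = π x := by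
      rw [heq p' hx'1]; exact (Ψ p').right_inv hz2
    obtain ⟨g, hg1, hg2, hg3, hg4⟩ := hdeck x x' hx'2.symm
    have htn : Φ.target ∈ nhds z := Φ.open_target.mem_nhds hz0
    have hsc : ContinuousAt (fun y => Φ.symm y) z := hΦsymm.continuousAt htn
    have hev : ∀ᶠ y in nhds z, (fun z => Φ (g (Φ.symm z))) y
        = (𝓘(ℂ, EuclideanSpace ℂ (Fin k)) ∘ ((ochart (Ψ p) Φ).symm.trans (ochart (Ψ p') Φ)) ∘
          𝓘(ℂ, EuclideanSpace ℂ (Fin k)).symm) y := by
      have h1 : ∀ᶠ y in nhds z, Φ.symm y ∈ (Ψ p).source :=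
        hsc.eventually ((Ψ p).open_source.mem_nhds hx1)
      have h2 : ∀ᶠ y in nhds z, g (Φ.symm y) ∈ (Ψ p').source := by
        have hc : ContinuousAt (fun y => g (Φ.symm y)) z :=
          ContinuousAt.comp (g := g) hg1.continuousAt hsc
        apply hc.eventually
        apply (Ψ p').open_source.mem_nhds
        change g x ∈ _
        rw [hg2]; exact hx'1
      filter_upwards [h1, h2] with y hy1 hy2
      simp only [Function.comp_apply, modelWithCornersSelf_coe_symm, modelWithCornersSelf_coe, id,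
        OpenPartialHomeomorph.coe_trans]
      rw [ochart_symm_apply, ochart_apply]
      congr 1
      have h3 : (Ψ p) (Φ.symm y) = π (Φ.symm y) := (heq p hy1).symm
      rw [h3, ← hg3, heq p' hy2]
      exact ((Ψ p').left_inv hy2).symm
    exact (hg4.contDiffAt htn).congr_of_eventuallyEq (Filter.EventuallyEq.symm hev)
  · refine
      { toEquiv := Equiv.refl M
        contMDiff_toFun := ?_
        contMDiff_invFun := ?_ }
    · intro m
      rw [contMDiffAt_iff_target]
      refine ⟨continuousAt_id, ?_⟩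
      have h1 : ContMDiffOn (𝓡 (2 * k)) 𝓘(ℝ, EuclideanSpace ℂ (Fin k)) ∞
          (fun m' : M => Φ ((Ψ (q m)).symm m')) (Ψ (q m)).target :=
        Φ.contMDiffOn_toFun.comp (Ψ (q m)).contMDiffOn_invFun (fun m' _ => hΦs _)
      exact h1.contMDiffAt ((Ψ (q m)).open_target.mem_nhds (hmem m))
    · intro m
      rw [contMDiffAt_iff_source]
      have hop : IsOpen (Φ.target ∩ Φ.symm ⁻¹' (Ψ (q m)).source) :=
        hΦsymm.isOpen_inter_preimage Φ.open_target (Ψ (q m)).open_source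
      have h1 : ContMDiffOn 𝓘(ℝ, EuclideanSpace ℂ (Fin k)) (𝓡 (2 * k)) ∞
          (fun z : EuclideanSpace ℂ (Fin k) => (Ψ (q m)) (Φ.symm z))
          (Φ.target ∩ Φ.symm ⁻¹' (Ψ (q m)).source) :=
        ((Ψ (q m)).contMDiffOn_toFun).comp (Φ.contMDiffOn_invFun.mono inter_subset_left)
          (fun z hz => hz.2)
      have h2 : (Φ.target ∩ Φ.symm ⁻¹' (Ψ (q m)).source) ∈ nhds (Φ ((Ψ (q m)).symm m)) := by
        apply hop.mem_nhds
        refine ⟨hΦmem _, ?_⟩
        change Φ.symm (Φ ((Ψ (q m)).symm m)) ∈ (Ψ (q m)).source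
        rw [hΦleft]
        exact (Ψ (q m)).map_target (hmem m)
      exact (h1.contMDiffAt h2).contMDiffWithinAt

/-- It suffices to have holomorphic deck transformations for a generating relation. -/
theorem quotient_complex_open {k : ℕ} {E H P : Type} [NormedAddCommGroup E]
    [NormedSpace ℝ E] [TopologicalSpace H] {J : ModelWithCorners ℝ E H} [TopologicalSpace P]
    [ChartedSpace H P]
    {M : Type} [TopologicalSpace M] [ChartedSpace (EuclideanSpace ℝ (Fin (2 * k))) M]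
    [IsManifold (𝓡 (2 * k)) ∞ M]
    (π : P → M) (hπ : IsLocalDiffeomorph J (𝓡 (2 * k)) ∞ π) (hs : Function.Surjective π)
    (R : P → P → Prop) (hfib : ∀ p p', π p = π p' ↔ Relation.EqvGen R p p')
    (Φ : PartialDiffeomorph J 𝓘(ℝ, EuclideanSpace ℂ (Fin k)) P (EuclideanSpace ℂ (Fin k)) ∞)
    (hΦ : Φ.source = Set.univ)
    (hR : ∀ p p' : P, R p p' → ∃ g : Homeomorph P P, g p = p' ∧ (∀ x, π (g x) = π x) ∧
      ContDiffOn ℂ ∞ (fun z => Φ (g (Φ.symm z))) Φ.target ∧
      ContDiffOn ℂ ∞ (fun z => Φ (g.symm (Φ.symm z))) Φ.target) :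
    ∃ (N : Type) (_ : TopologicalSpace N) (_ : ChartedSpace (EuclideanSpace ℂ (Fin k)) N),
      IsManifold 𝓘(ℂ, EuclideanSpace ℂ (Fin k)) ∞ N ∧
      Nonempty (Diffeomorph (𝓡 (2 * k)) 𝓘(ℝ, EuclideanSpace ℂ (Fin k)) M N ∞) := by
  have hΦs : ∀ p : P, p ∈ Φ.source := fun p => by rw [hΦ]; trivial
  have hΦleft : ∀ p : P, Φ.symm (Φ p) = p := fun p => Φ.left_inv (hΦs p)
  have hΦright : ∀ z ∈ Φ.target, Φ (Φ.symm z) = z := fun z hz => Φ.right_inv hz
  have hΦmem : ∀ p : P, Φ p ∈ Φ.target := fun p => Φ.map_source (hΦs p)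
  have key : ∀ p p', Relation.EqvGen R p p' →
      ∃ g : Homeomorph P P, g p = p' ∧ (∀ x, π (g x) = π x) ∧
      ContDiffOn ℂ ∞ (fun z => Φ (g (Φ.symm z))) Φ.target ∧
      ContDiffOn ℂ ∞ (fun z => Φ (g.symm (Φ.symm z))) Φ.target := by
    intro p p' h
    induction h with
    | rel p p' h => exact hR p p' h
    | refl p =>
      refine ⟨Homeomorph.refl P, rfl, fun _ => rfl, ?_, ?_⟩
      · exact contDiffOn_id.congr fun z hz => hΦright z hz
      · exact contDiffOn_id.congr fun z hz => hΦright z hz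
    | symm p p' _ ih =>
      obtain ⟨g, h1, h2, h3, h4⟩ := ih
      refine ⟨g.symm, ?_, fun x => ?_, h4, ?_⟩
      · rw [← h1]; simp
      · have := h2 (g.symm x)
        simpa using this.symm
      · simpa using h3
    | trans p p' p'' _ _ ih ih' =>
      obtain ⟨g, h1, h2, h3, h4⟩ := ih
      obtain ⟨g', k1, k2, k3, k4⟩ := ih'
      refine ⟨g.trans g', ?_, fun x => ?_, ?_, ?_⟩
      · simp [h1, k1]
      · simp only [Homeomorph.trans_apply]
        rw [k2, h2]
      · have := k3.comp h3 (fun z _ => hΦmem _)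
        refine this.congr fun z _ => ?_
        simp only [Function.comp_apply, Homeomorph.trans_apply]
        rw [hΦleft]
      · have := h4.comp k4 (fun z _ => hΦmem _)
        refine this.congr fun z _ => ?_
        simp only [Function.comp_apply, Homeomorph.symm_trans_apply]
        rw [hΦleft]
  apply exists_complex_structure_open π hπ hs Φ hΦ
  intro p p' hpp
  obtain ⟨g, h1, h2, h3, -⟩ := key p p' ((hfib p p').1 hpp)
  exact ⟨g, g.continuous, h1, h2, h3⟩

end Pool.Agent.HypBundle
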