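import Mathlib
import Pool.Agent.Lib.MP_1d980c_gt.Hyp.Peak
import Pool.Agent.Lib.MP_1d980c_gt.Hyp.PhiH
import Pool.Agent.Lib.MP_1d980c_gt.Hyp.QuotOpen

set_option autoImplicit false
open scoped UpperHalfPlane MatrixGroups Manifold ContDiff Matrix Topology
open Complex ComplexConjugate

namespace Pool.Agent.HypBundle

section Asm

variable {m : ℕ}

/-- the image of the coordinates -/
def SH (m : ℕ) : Set (EuclideanSpace ℂ (Fin (m + 1))) := {z | 0 < (TorusBundle.lst z).im}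

/-- the Moebius transformation -/
noncomputable def mf (γ : SL(2, ℝ)) (w : ℂ) : ℂ := ((γ 0 0 : ℝ) * w + (γ 0 1 : ℝ)) / jf γ w

lemma mf_coe (γ : SL(2, ℝ)) (w : ℍ) : mf γ w = ((γ • w : ℍ) : ℂ) :=
  (UpperHalfPlane.coe_specialLinearGroup_apply γ w).symm

lemma mf_mem (γ : SL(2, ℝ)) {w : ℂ} (hw : w ∈ HH) : mf γ w ∈ HH := by
  have := mf_coe γ ⟨w, hw⟩
  rw [show ((⟨w, hw⟩ : ℍ) : ℂ) = w from rfl] at this
  rw [this]
  exact (γ • (⟨w, hw⟩ : ℍ)).im_pos

lemma differentiableOn_jf (γ : SL(2, ℝ)) : DifferentiableOn ℂ (jf γ) HH := by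
  unfold jf
  fun_prop

lemma differentiableOn_mf (γ : SL(2, ℝ)) : DifferentiableOn ℂ (mf γ) HH := by
  unfold mf
  refine DifferentiableOn.div (by fun_prop) (differentiableOn_jf γ) fun w hw => jf_ne hw

lemma asm_isOpen : IsOpen HH := isOpen_lt continuous_const Complex.continuous_im

/-- a holomorphic function of the last coordinate -/
lemma asm_lst {f : ℂ → ℂ} (hf : DifferentiableOn ℂ f HH) :
    ContDiffOn ℂ ∞ (fun z : EuclideanSpace ℂ (Fin (m + 1)) => f (TorusBundle.lst z)) (SH m) :=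
  (hf.contDiffOn asm_isOpen).comp TorusBundle.contDiff_lstC.contDiffOn fun _ hz => hz

lemma asm_mk {f : EuclideanSpace ℂ (Fin (m + 1)) → (Fin m → ℂ)} {g : EuclideanSpace ℂ (Fin (m + 1)) → ℂ}
    {S : Set (EuclideanSpace ℂ (Fin (m + 1)))} (hf : ∀ i, ContDiffOn ℂ ∞ (fun x => f x i) S)
    (hg : ContDiffOn ℂ ∞ g S) : ContDiffOn ℂ ∞ (fun x => TorusBundle.mk (f x) (g x)) S := by
  rw [contDiffOn_piLp]
  intro i
  refine Fin.lastCases ?_ (fun i => ?_) i
  · simpa only [TorusBundle.mk_last] using hg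
  · simp only [TorusBundle.mk_castSucc]; exact hf i

lemma asm_ini (i : Fin m) (S : Set (EuclideanSpace ℂ (Fin (m + 1)))) :
    ContDiffOn ℂ ∞ (fun z : EuclideanSpace ℂ (Fin (m + 1)) => TorusBundle.ini z i) S :=
  ((contDiff_pi.1 TorusBundle.contDiff_iniC) i).contDiffOn

lemma asm_mulVec {n : ℕ} {A : ℂ → Matrix (Fin m) (Fin n) ℂ} {x : ℂ → (Fin n → ℂ)} {f g : ℂ → ℂ}
    (hA : ∀ i j, DifferentiableOn ℂ (fun w => A w i j) HH)
    (hx : ∀ j, DifferentiableOn ℂ (fun w => x w j) HH)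
    (hf : DifferentiableOn ℂ f HH) (hfm : ∀ w ∈ HH, f w ∈ HH)
    (hg : DifferentiableOn ℂ g HH) (hgm : ∀ w ∈ HH, g w ∈ HH) (i : Fin m) :
    DifferentiableOn ℂ (fun w => (A (f w) *ᵥ x (g w)) i) HH := by
  simp only [Matrix.mulVec, dotProduct]
  refine DifferentiableOn.fun_sum fun j _ => DifferentiableOn.mul ?_ ?_
  · exact (hA i j).comp hf hfm
  · exact (hx j).comp hg hgm

/-- The general assembly: a family `L` with scalar automorphy factors on the rows and a smooth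
solution of the cocycle equation give a complex structure. -/
theorem assembly {m : ℕ} (Γ : Subgroup SL(2, ℝ))
    (ρ : Γ →* Matrix (Fin (2 * m)) (Fin (2 * m)) ℝ)
    (L : ℂ → Matrix (Fin m) (Fin (2 * m)) ℂ) (e : Γ → ℂ → Fin m → ℂ)
    (hL : ∀ i j, DifferentiableOn ℂ (fun w => L w i j) HH)
    (he : ∀ γ i, DifferentiableOn ℂ (fun w => e γ w i) HH) (he0 : ∀ γ, ∀ w ∈ HH, ∀ i, e γ w i ≠ 0)
    (hLe : ∀ (γ : Γ) (w : ℍ), L ((γ • w : ℍ) : ℂ) * (ρ γ).map Complex.ofReal =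
        Matrix.diagonal (e γ w) * L w)
    (hnd : ∀ w : ℍ, TorusBundle.ND (L w))
    (a : Γ → ℍ → (Fin (2 * m) → ℝ)) (ha : ∀ γ, Continuous (a γ))
    (ψ : ℍ → (Fin (2 * m) → ℂ)) (s : Γ → ℂ → (Fin (2 * m) → ℂ))
    (hψ : ContMDiff 𝓘(ℝ, ℂ) 𝓘(ℝ, Fin (2 * m) → ℂ) ∞ ψ)
    (hs : ∀ γ i, DifferentiableOn ℂ (fun w => s γ w i) HH)
    (hψs : ∀ (γ : Γ) (w : ℍ), TorusBundle.cv (a γ w) + ψ (γ • w) =
        (ρ γ).map Complex.ofReal *ᵥ ψ w + s γ w)
    (Λ : Set (Fin (2 * m) → ℝ))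
    (M : Type) [TopologicalSpace M] [ChartedSpace (EuclideanSpace ℝ (Fin (2 * (m + 1)))) M]
    [IsManifold (𝓡 (2 * (m + 1))) ∞ M]
    (π : (Fin (2 * m) → ℝ) × ℍ → M)
    (hπ : IsLocalDiffeomorph (𝓘(ℝ, Fin (2 * m) → ℝ).prod 𝓘(ℝ, ℂ)) (𝓡 (2 * (m + 1))) ∞ π)
    (hsur : Function.Surjective π) (R : (Fin (2 * m) → ℝ) × ℍ → (Fin (2 * m) → ℝ) × ℍ → Prop)
    (hR : ∀ p p', R p p' → (∃ u ∈ Λ, p' = (p.1 + u, p.2)) ∨
      (∃ γ : Γ, p' = (ρ γ *ᵥ p.1 + a γ p.2, γ • p.2)))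
    (hR1 : ∀ u ∈ Λ, ∀ v w, R (v, w) (v + u, w))
    (hR2 : ∀ (γ : Γ) v w, R (v, w) (ρ γ *ᵥ v + a γ w, γ • w))
    (hfib : ∀ p p', π p = π p' ↔ Relation.EqvGen R p p') :
    ∃ (N : Type) (_ : TopologicalSpace N) (_ : ChartedSpace (EuclideanSpace ℂ (Fin (m + 1))) N),
      IsManifold 𝓘(ℂ, EuclideanSpace ℂ (Fin (m + 1))) ∞ N ∧
      Nonempty (Diffeomorph (𝓡 (2 * (m + 1))) 𝓘(ℝ, EuclideanSpace ℂ (Fin (m + 1))) M N ∞) := by
  obtain ⟨Φ, hΦs, hΦt, hΦ⟩ := exists_PhiH L hL hnd ψ hψ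
  have hΦt' : Φ.target = SH m := hΦt
  have hright : ∀ z ∈ SH m, Φ (Φ.symm z) = z := fun z hz => Φ.right_inv (by rw [hΦt']; exact hz)
  refine quotient_complex_open π hπ hsur R hfib Φ hΦs ?_
  intro p p' hpp
  rcases hR p p' hpp with ⟨u, hu, rfl⟩ | ⟨γ, rfl⟩
  · -- translations
    have h1 : ∀ x : (Fin (2 * m) → ℝ) × ℍ, π (x.1 + u, x.2) = π x := by
      rintro ⟨v, w⟩
      exact ((hfib _ _).2 (Relation.EqvGen.rel _ _ (hR1 u hu v w))).symm
    have hform : ∀ (u : Fin (2 * m) → ℝ), ∀ z ∈ SH m, Φ ((Φ.symm z).1 + u, (Φ.symm z).2) =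
        TorusBundle.mk (TorusBundle.ini z + L (TorusBundle.lst z) *ᵥ TorusBundle.cv u)
          (TorusBundle.lst z) := by
      intro u z hz
      have h2 := hright z hz
      obtain ⟨⟨v, w⟩, hvw⟩ : ∃ x, x = Φ.symm z := ⟨_, rfl⟩
      rw [← hvw] at h2 ⊢
      rw [← h2, hΦ, hΦ]
      simp only [TorusBundle.ini_mk, TorusBundle.lst_mk]
      rw [TorusBundle.cv_add, ← Matrix.mulVec_add]
      congr 2
      abel
    have hsm : ∀ u : Fin (2 * m) → ℝ, ContDiffOn ℂ ∞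
        (fun z => Φ ((Φ.symm z).1 + u, (Φ.symm z).2)) Φ.target := by
      intro u
      rw [hΦt']
      refine ContDiffOn.congr ?_ (hform u)
      refine asm_mk (fun i => ?_) TorusBundle.contDiff_lstC.contDiffOn
      simp only [Pi.add_apply]
      refine (asm_ini i _).add ?_
      exact asm_lst (f := fun w => (L w *ᵥ TorusBundle.cv u) i)
        (asm_mulVec (x := fun _ => TorusBundle.cv u) hL (fun j => differentiableOn_const _)
          differentiableOn_id (fun _ h => h) differentiableOn_id (fun _ h => h) i)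
    refine ⟨(Homeomorph.addRight u).prodCongr (Homeomorph.refl ℍ), rfl, h1, hsm u, ?_⟩
    have h3 := hsm (-u)
    exact h3
  · -- the action of `γ`
    have hρ1 : ρ γ⁻¹ * ρ γ = 1 := by rw [← map_mul, inv_mul_cancel, map_one]
    have hρ2 : ρ γ * ρ γ⁻¹ = 1 := by rw [← map_mul, mul_inv_cancel, map_one]
    have hcs : ∀ δ : Γ, Continuous (fun w : ℍ => δ • w) := fun δ =>
      continuous_const_smul (δ : SL(2, ℝ))
    let g : Homeomorph ((Fin (2 * m) → ℝ) × ℍ) ((Fin (2 * m) → ℝ) × ℍ) :=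
      { toFun := fun x => (ρ γ *ᵥ x.1 + a γ x.2, γ • x.2)
        invFun := fun x => (ρ γ⁻¹ *ᵥ (x.1 - a γ (γ⁻¹ • x.2)), γ⁻¹ • x.2)
        left_inv := by
          rintro ⟨v, w⟩
          simp only [inv_smul_smul, add_sub_cancel_right, Matrix.mulVec_mulVec, hρ1,
            Matrix.one_mulVec]
        right_inv := by
          rintro ⟨v, w⟩
          simp only [smul_inv_smul, Matrix.mulVec_mulVec, hρ2, Matrix.one_mulVec, sub_add_cancel]
        continuous_toFun := by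
          refine Continuous.prodMk ?_ ((hcs γ).comp continuous_snd)
          exact (continuous_const.matrix_mulVec continuous_fst).add ((ha γ).comp continuous_snd)
        continuous_invFun := by
          refine Continuous.prodMk ?_ ((hcs γ⁻¹).comp continuous_snd)
          exact continuous_const.matrix_mulVec (continuous_fst.sub
            ((ha γ).comp ((hcs γ⁻¹).comp continuous_snd))) }
    have hg : ∀ x, g x = (ρ γ *ᵥ x.1 + a γ x.2, γ • x.2) := fun x => rfl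
    have hform : ∀ (v : Fin (2 * m) → ℝ) (w : ℍ), Φ (g (v, w)) =
        TorusBundle.mk (fun i => e γ w i * TorusBundle.ini (Φ (v, w)) i +
          (L (mf (γ : SL(2, ℝ)) w) *ᵥ s γ w) i) (mf (γ : SL(2, ℝ)) w) := by
      intro v w
      rw [hg, hΦ, hΦ, mf_coe]
      simp only [TorusBundle.ini_mk]
      have e1 : TorusBundle.cv (ρ γ *ᵥ v + a γ w) + ψ (γ • w) =
          (ρ γ).map Complex.ofReal *ᵥ (TorusBundle.cv v + ψ w) + s γ w := by
        rw [TorusBundle.cv_add, TorusBundle.cv_mulVec, add_assoc, hψs, Matrix.mulVec_add]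
        abel
      rw [e1, Matrix.mulVec_add, Matrix.mulVec_mulVec, hLe, ← Matrix.mulVec_mulVec]
      congr 1
      funext i
      rw [Pi.add_apply, Matrix.mulVec_diagonal]
      rfl
    refine ⟨g, rfl, ?_, ?_, ?_⟩
    · rintro ⟨v, w⟩
      exact ((hfib _ _).2 (Relation.EqvGen.rel _ _ (hR2 γ v w))).symm
    · rw [hΦt']
      have hform' : ∀ z ∈ SH m, Φ (g (Φ.symm z)) =
          TorusBundle.mk (fun i => e γ (TorusBundle.lst z) i * TorusBundle.ini z i +
            (L (mf (γ : SL(2, ℝ)) (TorusBundle.lst z)) *ᵥ s γ (TorusBundle.lst z)) i)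
            (mf (γ : SL(2, ℝ)) (TorusBundle.lst z)) := by
        intro z hz
        have h2 := hright z hz
        obtain ⟨⟨v, w⟩, hvw⟩ : ∃ x, x = Φ.symm z := ⟨_, rfl⟩
        rw [← hvw] at h2 ⊢
        have h3 : TorusBundle.lst z = (w : ℂ) := by rw [← h2, hΦ, TorusBundle.lst_mk]
        rw [hform, h2, h3]
      refine ContDiffOn.congr ?_ hform'
      refine asm_mk (fun i => ?_) (asm_lst (differentiableOn_mf _))
      refine ContDiffOn.add (ContDiffOn.mul (asm_lst (he γ i)) (asm_ini i _)) ?_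
      exact asm_lst (f := fun w => (L (mf (γ : SL(2, ℝ)) w) *ᵥ s γ w) i)
        (asm_mulVec hL (hs γ) (differentiableOn_mf _) (fun _ h => mf_mem _ h)
          differentiableOn_id (fun _ h => h) i)
    · rw [hΦt']
      have hform' : ∀ z ∈ SH m, Φ (g.symm (Φ.symm z)) =
          TorusBundle.mk (fun i => (e γ (mf ((γ : SL(2, ℝ))⁻¹) (TorusBundle.lst z)) i)⁻¹ *
            (TorusBundle.ini z i - (L (TorusBundle.lst z) *ᵥ
              s γ (mf ((γ : SL(2, ℝ))⁻¹) (TorusBundle.lst z))) i))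
            (mf ((γ : SL(2, ℝ))⁻¹) (TorusBundle.lst z)) := by
        intro z hz
        have h2 := hright z hz
        obtain ⟨x, hx⟩ : ∃ x, x = Φ.symm z := ⟨_, rfl⟩
        rw [← hx] at h2 ⊢
        obtain ⟨⟨v, w⟩, hvw⟩ : ∃ y, y = g.symm x := ⟨_, rfl⟩
        rw [← hvw]
        have hx' : x = g (v, w) := by rw [hvw]; simp
        rw [hx', hform, mf_coe] at h2
        have h3 : TorusBundle.lst z = ((γ • w : ℍ) : ℂ) := by rw [← h2, TorusBundle.lst_mk]; rfl
        have h4 : ∀ i, TorusBundle.ini z i = e γ w i * TorusBundle.ini (Φ (v, w)) i +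
            (L ((γ • w : ℍ) : ℂ) *ᵥ s γ w) i := by
          intro i; rw [← h2, TorusBundle.ini_mk]; rfl
        have h5 : mf ((γ : SL(2, ℝ))⁻¹) (TorusBundle.lst z) = (w : ℂ) := by
          rw [h3, mf_coe]
          congr 1
          exact inv_smul_smul (γ : SL(2, ℝ)) w
        rw [h5]
        simp only [h4, h3, add_sub_cancel_right]
        have h6 : (fun i => (e γ w i)⁻¹ * (e γ w i * TorusBundle.ini (Φ (v, w)) i)) =
            TorusBundle.ini (Φ (v, w)) := by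
          funext i
          rw [← mul_assoc, inv_mul_cancel₀ (he0 γ _ w.im_pos i), one_mul]
        rw [h6]
        have h7 : (w : ℂ) = TorusBundle.lst (Φ (v, w)) := by rw [hΦ, TorusBundle.lst_mk]
        rw [h7, TorusBundle.mk_ini_lst]
      refine ContDiffOn.congr ?_ hform'
      refine asm_mk (fun i => ?_) (asm_lst (differentiableOn_mf _))
      refine ContDiffOn.mul ?_ (ContDiffOn.sub (asm_ini i _) ?_)
      · refine asm_lst (f := fun w => (e γ (mf ((γ : SL(2, ℝ))⁻¹) w) i)⁻¹) ?_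
        refine DifferentiableOn.inv ((he γ i).comp (differentiableOn_mf _) fun _ h => mf_mem _ h) ?_
        intro w hw
        exact he0 γ _ (mf_mem _ hw) i
      · exact asm_lst (f := fun w => (L w *ᵥ s γ (mf ((γ : SL(2, ℝ))⁻¹) w)) i)
          (asm_mulVec hL (hs γ) differentiableOn_id (fun _ h => h) (differentiableOn_mf _)
            (fun _ h => mf_mem _ h) i)

end Asm

end Pool.Agent.HypBundle
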