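import Mathlib
import Pool.Agent.Lib.MP_1d980c_gt.Hyp.Defs

set_option autoImplicit false
open scoped UpperHalfPlane MatrixGroups Manifold ContDiff Matrix Topology
open Complex ComplexConjugate

namespace Pool.Agent.HypBundle

/-- A matrix whose rows are the standard pencils is nondegenerate. -/
lemma ND_of_rows {m : ℕ} (hm : 2 ≤ m) {p q : ℂ} (h : p ≠ 0 ∨ q ≠ 0)
    (L : Matrix (Fin m) (Fin (2 * m)) ℂ)
    (hL : ∀ i x, L i x = ∑ j ∈ Finset.range (TorusBundle.deg m i + 1),
      (p ^ j * q ^ (TorusBundle.deg m i - j)) * TorusBundle.coef m i j x) :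
    TorusBundle.ND L := by
  intro v hv
  apply TorusBundle.eq_zero_of_zeta
  have hrow : ∀ i : Fin m, ∑ j ∈ Finset.range (TorusBundle.deg m i + 1),
      (p ^ j * q ^ (TorusBundle.deg m i - j)) *
        (∑ x, TorusBundle.coef m i j x * (v x : ℂ)) = 0 := by
    intro i
    have h1 := congrFun hv i
    simp only [Matrix.mulVec, dotProduct, Pi.zero_apply] at h1
    rw [← h1]
    simp only [hL, Finset.sum_mul]
    rw [Finset.sum_comm]
    refine Finset.sum_congr rfl fun j _ => ?_
    rw [Finset.mul_sum]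
    exact Finset.sum_congr rfl fun x _ => by ring
  refine TorusBundle.nondeg hm h (TorusBundle.zeta m v) ?_ ?_ ?_
  · have h1 := hrow ⟨0, by omega⟩
    have hd : TorusBundle.deg m ⟨0, by omega⟩ = 1 := by
      unfold TorusBundle.deg; rw [if_pos (by simp; omega)]
    rw [hd, Finset.sum_range_succ, Finset.sum_range_one] at h1
    have c0 : TorusBundle.coef m ⟨0, by omega⟩ 0 = TorusBundle.Zr m 0 := by
      unfold TorusBundle.coef; rw [if_pos (by simp; omega), if_pos rfl]
    have c1 : TorusBundle.coef m ⟨0, by omega⟩ 1 = TorusBundle.Zb m (m - 1) := by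
      unfold TorusBundle.coef; rw [if_pos (by simp; omega), if_neg (by norm_num), if_pos rfl]
    rw [c0, c1, TorusBundle.Zr_dot (by omega), TorusBundle.Zb_dot (by omega)] at h1
    simpa using h1
  · intro i hi1 hi2
    have h1 := hrow ⟨i, by omega⟩
    have hd : TorusBundle.deg m ⟨i, by omega⟩ = 1 := by
      unfold TorusBundle.deg; rw [if_pos (by simpa using hi2)]
    rw [hd, Finset.sum_range_succ, Finset.sum_range_one] at h1
    have c0 : TorusBundle.coef m ⟨i, by omega⟩ 0 = TorusBundle.Zr m i := by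
      unfold TorusBundle.coef; rw [if_pos (by simpa using hi2), if_pos rfl]
    have c1 : TorusBundle.coef m ⟨i, by omega⟩ 1 = TorusBundle.Zr m (i - 1) := by
      unfold TorusBundle.coef
      rw [if_pos (by simpa using hi2), if_neg (by norm_num), if_neg (by simp; omega)]
    rw [c0, c1, TorusBundle.Zr_dot (by omega), TorusBundle.Zr_dot (by omega)] at h1
    simpa using h1
  · have h1 := hrow ⟨m - 1, by omega⟩
    have hd : TorusBundle.deg m ⟨m - 1, by omega⟩ = m - 1 := by
      unfold TorusBundle.deg; rw [if_neg (by simp; omega)]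
    rw [hd, Nat.sub_add_cancel (by omega), Finset.range_eq_Ico,
      Finset.sum_eq_sum_Ico_succ_bot (by omega)] at h1
    have c0 : TorusBundle.coef m ⟨m - 1, by omega⟩ 0 = TorusBundle.Zr m (m - 1) := by
      unfold TorusBundle.coef; rw [if_neg (by simp; omega), if_pos rfl]
    rw [c0, TorusBundle.Zr_dot (by omega), pow_zero, one_mul, Nat.sub_zero] at h1
    rw [← h1]
    congr 1
    refine Finset.sum_congr rfl fun j hj => ?_
    rw [Finset.mem_Ico] at hj
    have cj : TorusBundle.coef m ⟨m - 1, by omega⟩ j =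
        (-1 : ℂ) ^ j • TorusBundle.Zb m (j - 1) := by
      unfold TorusBundle.coef
      rw [if_neg (by simp; omega), if_neg (by omega)]
      funext x
      simp [Pi.smul_apply]
    have e : ∑ x, TorusBundle.coef m ⟨m - 1, by omega⟩ j x * (v x : ℂ) =
        (-1) ^ j * conj (TorusBundle.zeta m v (j - 1)) := by
      rw [← TorusBundle.Zb_dot (by omega), Finset.mul_sum, cj]
      refine Finset.sum_congr rfl fun x _ => ?_
      rw [Pi.smul_apply, smul_eq_mul]; ring
    rw [e]; ring

/-- The entries of `LB`. -/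
lemma LB_apply (m : ℕ) (P Q : ℂ) (Ep E' : Matrix (Fin (2 * m)) (Fin (2 * m)) ℂ) (i : Fin m)
    (x : Fin (2 * m)) : LB m P Q Ep E' i x =
      Q ^ (TorusBundle.deg m i - 1) * ∑ k, TorusBundle.coef m i 0 k * E' k x +
      ∑ j ∈ Finset.Icc 1 (TorusBundle.deg m i), P ^ (j - 1) * Q ^ (TorusBundle.deg m i - j) *
        ∑ k, TorusBundle.coef m i j k * Ep k x := by
  unfold LB
  rw [Pi.add_apply, Finset.sum_apply]
  rfl

lemma LB_zero {m : ℕ} (hm : 2 ≤ m) (P Q : ℂ) (i : Fin m) (x : Fin (2 * m)) :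
    LB m P Q (P • 1) (Q • 1) i x = ∑ j ∈ Finset.range (TorusBundle.deg m i + 1),
      (P ^ j * Q ^ (TorusBundle.deg m i - j)) * TorusBundle.coef m i j x := by
  have hd := TorusBundle.deg_ne_zero hm i
  have e1 : ∀ (a : ℂ) (j : ℕ), ∑ k, TorusBundle.coef m i j k *
      (a • (1 : Matrix (Fin (2 * m)) (Fin (2 * m)) ℂ)) k x = a * TorusBundle.coef m i j x := by
    intro a j
    rw [Finset.sum_eq_single x]
    · rw [Matrix.smul_apply, Matrix.one_apply_eq, smul_eq_mul]; ring
    · intro k _ hk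
      rw [Matrix.smul_apply, Matrix.one_apply_ne hk, smul_zero, mul_zero]
    · intro h; exact absurd (Finset.mem_univ x) h
  rw [LB_apply, e1, Finset.sum_range_succ', add_comm]
  congr 1
  · rw [← Finset.sum_image (s := Finset.range (TorusBundle.deg m i)) (g := fun j => j + 1)
      (f := fun j => (P ^ j * Q ^ (TorusBundle.deg m i - j)) * TorusBundle.coef m i j x)
      (by intro a _ b _ h; simpa using h)]
    have himg : (Finset.range (TorusBundle.deg m i)).image (fun j => j + 1)
        = Finset.Icc 1 (TorusBundle.deg m i) := by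
      ext j
      rw [Finset.mem_image, Finset.mem_Icc]
      constructor
      · rintro ⟨a, ha, rfl⟩
        rw [Finset.mem_range] at ha
        omega
      · rintro ⟨h1, h2⟩
        exact ⟨j - 1, Finset.mem_range.2 (by omega), by omega⟩
    rw [himg]
    refine Finset.sum_congr rfl fun j hj => ?_
    rw [Finset.mem_Icc] at hj
    rw [e1]
    have : P ^ j = P ^ (j - 1) * P := by rw [← pow_succ]; congr 1; omega
    rw [this]; ring
  · rw [pow_zero, Nat.sub_zero]
    have : Q ^ (TorusBundle.deg m i) = Q ^ (TorusBundle.deg m i - 1) * Q := by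
      rw [← pow_succ]; congr 1; omega
    rw [this]; ring

lemma continuous_det_LB (m : ℕ) :
    Continuous (fun z : ((Fin (2 * m) → Fin (2 * m) → ℂ) × (Fin (2 * m) → Fin (2 * m) → ℂ)) ×
        (ℂ × ℂ) => (TorusBundle.Sf (LB m z.2.1 z.2.2
          (fun i j => z.2.1 * (1 : Matrix (Fin (2 * m)) (Fin (2 * m)) ℂ) i j + z.1.1 i j)
          (fun i j => z.2.2 * (1 : Matrix (Fin (2 * m)) (Fin (2 * m)) ℂ) i j + z.1.2 i j))).det) := by
  have hent : ∀ (i : Fin m) (x : Fin (2 * m)), Continuous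
      (fun z : ((Fin (2 * m) → Fin (2 * m) → ℂ) × (Fin (2 * m) → Fin (2 * m) → ℂ)) × (ℂ × ℂ) =>
        LB m z.2.1 z.2.2
          (fun i j => z.2.1 * (1 : Matrix (Fin (2 * m)) (Fin (2 * m)) ℂ) i j + z.1.1 i j)
          (fun i j => z.2.2 * (1 : Matrix (Fin (2 * m)) (Fin (2 * m)) ℂ) i j + z.1.2 i j) i x) := by
    intro i x
    simp only [LB_apply]
    fun_prop
  refine Continuous.matrix_det (continuous_matrix fun x y => ?_)
  unfold TorusBundle.Sf
  by_cases hx : x.val < m
  · simp only [hx, dif_pos]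
    exact hent ⟨x.val, hx⟩ y
  · simp only [hx, dif_neg, not_false_iff]
    exact Complex.continuous_conj.comp (hent ⟨x.val - m, by omega⟩ y)

theorem ND_LB {m : ℕ} (hm : 2 ≤ m) {c C : ℝ} (hc : 0 < c) :
    ∃ ε : ℝ, 0 < ε ∧ ∀ (P Q : ℂ) (Ep Eq : Matrix (Fin (2 * m)) (Fin (2 * m)) ℂ),
      c ≤ max ‖P‖ ‖Q‖ → ‖P‖ ≤ C → ‖Q‖ ≤ C →
      (∀ i j, ‖Ep i j - P * (1 : Matrix (Fin (2 * m)) (Fin (2 * m)) ℂ) i j‖ ≤ ε) →
      (∀ i j, ‖Eq i j - Q * (1 : Matrix (Fin (2 * m)) (Fin (2 * m)) ℂ) i j‖ ≤ ε) →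
      TorusBundle.ND (LB m P Q Ep Eq) := by
  set K : Set (ℂ × ℂ) := {z | c ≤ max ‖z.1‖ ‖z.2‖ ∧ ‖z.1‖ ≤ C ∧ ‖z.2‖ ≤ C} with hK
  have hKc : IsCompact K := by
    have hsub : K ⊆ Metric.closedBall (0 : ℂ) C ×ˢ Metric.closedBall (0 : ℂ) C := by
      rintro ⟨a, b⟩ ⟨-, h1, h2⟩
      exact ⟨mem_closedBall_zero_iff.2 h1, mem_closedBall_zero_iff.2 h2⟩
    refine IsCompact.of_isClosed_subset
      ((isCompact_closedBall (0 : ℂ) C).prod (isCompact_closedBall (0 : ℂ) C)) ?_ hsub
    have hn1 : Continuous fun z : ℂ × ℂ => ‖z.1‖ := continuous_fst.norm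
    have hn2 : Continuous fun z : ℂ × ℂ => ‖z.2‖ := continuous_snd.norm
    exact (isClosed_le continuous_const (hn1.max hn2)).inter
      ((isClosed_le hn1 continuous_const).inter (isClosed_le hn2 continuous_const))
  have hev := hKc.eventually_forall_of_forall_eventually
    (x₀ := (0 : (Fin (2 * m) → Fin (2 * m) → ℂ) × (Fin (2 * m) → Fin (2 * m) → ℂ)))
    (P := fun X z => (TorusBundle.Sf (LB m z.1 z.2
          (fun i j => z.1 * (1 : Matrix (Fin (2 * m)) (Fin (2 * m)) ℂ) i j + X.1 i j)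
          (fun i j => z.2 * (1 : Matrix (Fin (2 * m)) (Fin (2 * m)) ℂ) i j + X.2 i j))).det ≠ 0)
    (fun z hz => by
      refine (continuous_det_LB m).continuousAt.eventually_ne ?_
      apply TorusBundle.det_of_ND
      have hz0 : z.1 ≠ 0 ∨ z.2 ≠ 0 := by
        by_contra hcon
        push Not at hcon
        have := hz.1
        rw [hcon.1, hcon.2] at this
        simp at this
        linarith
      refine ND_of_rows hm hz0 _ fun i x => ?_
      have := LB_zero hm z.1 z.2 i x
      rw [← this]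
      congr 2
      · funext i j; simp
      · funext i j; simp)
  rw [Metric.eventually_nhds_iff] at hev
  obtain ⟨ε, hε, hεP⟩ := hev
  refine ⟨ε / 2, by positivity, fun P Q Ep E' h1 h2 h3 h4 h5 => ?_⟩
  apply TorusBundle.ND_of_det
  have hd : dist ((fun i j => Ep i j - P * (1 : Matrix (Fin (2 * m)) (Fin (2 * m)) ℂ) i j,
      fun i j => E' i j - Q * (1 : Matrix (Fin (2 * m)) (Fin (2 * m)) ℂ) i j) :
      (Fin (2 * m) → Fin (2 * m) → ℂ) × (Fin (2 * m) → Fin (2 * m) → ℂ)) 0 < ε := by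
    rw [Prod.dist_eq, max_lt_iff]
    constructor
    · rw [dist_pi_lt_iff hε]
      intro i
      rw [dist_pi_lt_iff hε]
      intro j
      rw [dist_eq_norm]
      have := h4 i j
      simp only [Prod.fst_zero, Pi.zero_apply, sub_zero]
      linarith
    · rw [dist_pi_lt_iff hε]
      intro i
      rw [dist_pi_lt_iff hε]
      intro j
      rw [dist_eq_norm]
      have := h5 i j
      simp only [Prod.snd_zero, Pi.zero_apply, sub_zero]
      linarith
  have hfin := hεP hd (P, Q) ⟨h1, h2, h3⟩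
  simp only [add_sub_cancel] at hfin
  exact hfin

theorem LB_smul_mul {m : ℕ} (h P Q : ℂ) (Ep Eq X : Matrix (Fin (2 * m)) (Fin (2 * m)) ℂ) (hm : 2 ≤ m) :
    LB m (h * P) (h * Q) (h • (Ep * X)) (h • (Eq * X)) =
      Matrix.diagonal (fun i => h ^ TorusBundle.deg m i) * (LB m P Q Ep Eq * X) := by
  funext i
  have hd := TorusBundle.deg_ne_zero hm i
  have e1 : (Matrix.diagonal (fun i => h ^ TorusBundle.deg m i) * (LB m P Q Ep Eq * X)) i
      = h ^ TorusBundle.deg m i • (LB m P Q Ep Eq i ᵥ* X) := by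
    funext x
    rw [Matrix.diagonal_mul, Pi.smul_apply, smul_eq_mul]
    rfl
  rw [e1]
  unfold LB
  rw [Matrix.add_vecMul, Matrix.sum_vecMul, smul_add, Finset.smul_sum]
  congr 1
  · rw [Matrix.vecMul_smul, Matrix.smul_vecMul, Matrix.vecMul_vecMul, smul_smul, smul_smul]
    congr 1
    have : h ^ TorusBundle.deg m i = h ^ (TorusBundle.deg m i - 1) * h := by
      rw [← pow_succ]; congr 1; omega
    rw [this, mul_pow]; ring
  · refine Finset.sum_congr rfl fun j hj => ?_
    rw [Finset.mem_Icc] at hj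
    rw [Matrix.vecMul_smul, Matrix.smul_vecMul, Matrix.vecMul_vecMul, smul_smul, smul_smul]
    congr 1
    have : h ^ TorusBundle.deg m i = h ^ (j - 1) * h ^ (TorusBundle.deg m i - j) * h := by
      rw [← pow_add, ← pow_succ]; congr 1; omega
    rw [this, mul_pow, mul_pow]; ring

end Pool.Agent.HypBundle
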