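import Mathlib
import Pool.Agent.Lib.MP_1d980c_gt.Hyp.Pencil
import Pool.Agent.Lib.MP_1d980c_gt.Hyp.Growth
import Pool.Agent.Lib.MP_1d980c_gt.Hyp.Net
import Pool.Agent.Lib.MP_1d980c_gt.Hyp.NDLB
import Pool.Agent.Lib.MP_1d980c_gt.ExistsL

set_option autoImplicit false
open scoped UpperHalfPlane MatrixGroups Manifold ContDiff Matrix Topology
open Complex ComplexConjugate

namespace Pool.Agent.HypBundle

section Twist

variable {n : ℕ} {Γ : Subgroup SL(2, ℝ)} {N : ℕ} {O : Finset ℍ}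
  (ρ : Γ →* Matrix (Fin n) (Fin n) ℝ) (V : ℍ → Matrix (Fin n) (Fin n) ℝ)

/-- the coefficients of the twisted series -/
noncomputable def VA (a : ℍ → ℂ) (i j : Fin n) : ℍ → Γ → ℂ :=
  fun o γ => a o * (((V o * ρ γ) i j : ℝ) : ℂ)

/-- the twisted series -/
noncomputable def PV (N : ℕ) (O : Finset ℍ) (a : ℍ → ℂ) (w : ℂ) : Matrix (Fin n) (Fin n) ℂ :=
  fun i j => PS Γ N O (VA ρ V a i j) w

variable {ρ V}

lemma rho_eq (hVu : ∀ w, IsUnit (V w)) (hVe : ∀ (γ : Γ) (w : ℍ), V (γ • w) * ρ γ = V w)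
    (γ : Γ) (w : ℍ) : ρ γ = (V (γ • w))⁻¹ * V w := by
  rw [← hVe γ w, ← Matrix.mul_assoc, Matrix.nonsing_inv_mul _
    ((Matrix.isUnit_iff_isUnit_det _).1 (hVu _)), Matrix.one_mul]

lemma VA_bound (hVu : ∀ w, IsUnit (V w)) (hVe : ∀ (γ : Γ) (w : ℍ), V (γ • w) * ρ γ = V w)
    {C : ℝ} (hC : 0 ≤ C)
    (hG : ∀ x w : ℍ, ∀ i j, |(V x * (V w)⁻¹) i j| ≤ C * Real.exp (C * dist x w))
    {a : ℍ → ℂ} (ha : ∀ o, ‖a o‖ ≤ 2) (i j : Fin n) (w : ℍ) (o : ℍ) (γ : Γ) :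
    ‖VA ρ V a i j o γ‖ ≤ (2 * ∑ k, C * |V w k j|) * Real.exp (C * dist o (γ • w)) := by
  unfold VA
  rw [norm_mul, Complex.norm_real, Real.norm_eq_abs, rho_eq hVu hVe γ w, ← Matrix.mul_assoc,
    Matrix.mul_apply, mul_assoc 2]
  refine mul_le_mul (ha o) ?_ (abs_nonneg _) (by norm_num)
  rw [Finset.sum_mul]
  refine (Finset.abs_sum_le_sum_abs _ _).trans (Finset.sum_le_sum fun k _ => ?_)
  rw [abs_mul]
  calc |(V o * (V (γ • w))⁻¹) i k| * |V w k j|
      ≤ (C * Real.exp (C * dist o (γ • w))) * |V w k j| :=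
        mul_le_mul_of_nonneg_right (hG _ _ _ _) (abs_nonneg _)
    _ = _ := by ring

lemma PS_sum_mul {ι : Type} (s : Finset ι) (A : ι → ℍ → Γ → ℂ) (x : ι → ℂ) (w : ℂ)
    (h : ∀ k ∈ s, ∀ o ∈ O, Summable (fun γ : Γ => ph N o (γ : SL(2, ℝ)) w * A k o γ)) :
    ∑ k ∈ s, PS Γ N O (A k) w * x k = PS Γ N O (fun o γ => ∑ k ∈ s, A k o γ * x k) w := by
  unfold PS
  simp only [Finset.sum_mul]
  rw [Finset.sum_comm]
  refine Finset.sum_congr rfl fun o ho => ?_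
  simp only [← tsum_mul_right]
  rw [← Summable.tsum_finsetSum (fun k hk => (h k hk o ho).mul_right (x k))]
  congr 1
  funext γ
  rw [Finset.mul_sum]
  exact Finset.sum_congr rfl fun k _ => by ring

section Fix

variable (hVu : ∀ w, IsUnit (V w)) (hVe : ∀ (γ : Γ) (w : ℍ), V (γ • w) * ρ γ = V w)
    {C : ℝ} (hC : 0 ≤ C)
    (hG : ∀ x w : ℍ, ∀ i j, |(V x * (V w)⁻¹) i j| ≤ C * Real.exp (C * dist x w))
    {a : ℍ → ℂ} (ha : ∀ o, ‖a o‖ ≤ 2)
    (hN : 256 ≤ N) (hO : IsNet Γ (1 / Real.sqrt N) O) (hC2 : 2 * C ≤ Real.sqrt N)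

include hVu hVe hC hG ha hN hO hC2

lemma PV_summable (i j : Fin n) (w : ℍ) {o : ℍ} (ho : o ∈ O) :
    Summable (fun γ : Γ => ph N o (γ : SL(2, ℝ)) w * VA ρ V a i j o γ) :=
  summable_PS hN hO hC hC2 w (fun o _ γ => VA_bound hVu hVe hC hG ha i j w o γ) ho

lemma PV_diff (i j : Fin n) : DifferentiableOn ℂ (fun w => PV ρ V N O a w i j) HH :=
  differentiableOn_PS hN hO hC hC2 UpperHalfPlane.I
    (fun o _ γ => VA_bound hVu hVe hC hG ha i j UpperHalfPlane.I o γ)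

/-- automorphy -/
lemma PV_smul (δ : Γ) (w : ℍ) :
    PV ρ V N O a ((δ • w : ℍ) : ℂ) * (ρ δ).map Complex.ofReal =
      jf (δ : SL(2, ℝ)) w ^ N • PV ρ V N O a w := by
  ext i j
  rw [Matrix.mul_apply, Matrix.smul_apply, smul_eq_mul]
  unfold PV
  have h1 : ∀ k, PS Γ N O (VA ρ V a i k) ((δ • w : ℍ) : ℂ) = PS Γ N O (VA ρ V a i k) ((δ • w : ℍ) : ℂ) :=
    fun k => rfl
  have h2 : ∀ k, PS Γ N O (VA ρ V a i k) ((δ • w : ℍ) : ℂ) * ((ρ δ).map Complex.ofReal) k j =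
      PS Γ N O (VA ρ V a i k) ((δ • w : ℍ) : ℂ) * (((ρ δ) k j : ℝ) : ℂ) := fun k => rfl
  simp only [h2]
  rw [PS_sum_mul Finset.univ (fun k => VA ρ V a i k) (fun k => (((ρ δ) k j : ℝ) : ℂ)) _
    (fun k _ o ho => PV_summable hVu hVe hC hG ha hN hO hC2 i k (δ • w) ho), PS_smul]
  congr 1
  congr 1
  funext o γ
  unfold VA
  have e : (V o * ρ γ) i j = ∑ k, (V o * ρ (γ * δ⁻¹)) i k * (ρ δ) k j := by
    rw [← Matrix.mul_apply, Matrix.mul_assoc, ← map_mul, inv_mul_cancel_right]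
  rw [e]
  push_cast
  rw [Finset.mul_sum]
  exact Finset.sum_congr rfl fun k _ => by ring

/-- the twisted series is close to the untwisted one -/
lemma PV_close {ε η : ℝ} (hε : 0 ≤ ε) (hη : 0 ≤ η) (hC4 : 4 * C ≤ Real.sqrt N)
    (hcl : ∀ x w : ℍ, dist x w ≤ η → ∀ i j, |(V x * (V w)⁻¹) i j - (1 : Matrix (Fin n) (Fin n) ℝ) i j| ≤ ε)
    (w : ℍ) (i j : Fin n) :
    ‖((PV ρ V N O a w) * ((V w)⁻¹).map Complex.ofReal) i j -
      PS Γ N O (fun o _ => a o) w * (1 : Matrix (Fin n) (Fin n) ℂ) i j‖ * Real.sqrt w.im ^ N ≤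
      CE * (2 * ε + (2 * (C + 1)) * Real.exp (-(Real.sqrt N / 4) * η)) := by
  have e1 : ((PV ρ V N O a w) * ((V w)⁻¹).map Complex.ofReal) i j -
      PS Γ N O (fun o _ => a o) w * (1 : Matrix (Fin n) (Fin n) ℂ) i j =
      PS Γ N O (fun o γ => a o * ((((V o * (V (γ • w))⁻¹) i j -
        (1 : Matrix (Fin n) (Fin n) ℝ) i j : ℝ)) : ℂ)) w := by
    rw [Matrix.mul_apply]
    unfold PV
    have h2 : ∀ k, PS Γ N O (VA ρ V a i k) (w : ℂ) * (((V w)⁻¹).map Complex.ofReal) k j =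
      PS Γ N O (VA ρ V a i k) (w : ℂ) * ((((V w)⁻¹) k j : ℝ) : ℂ) := fun k => rfl
    simp only [h2]
    rw [PS_sum_mul Finset.univ (fun k => VA ρ V a i k) (fun k => ((((V w)⁻¹) k j : ℝ) : ℂ)) _
      (fun k _ o ho => PV_summable hVu hVe hC hG ha hN hO hC2 i k w ho)]
    have h3 := PS_sum_mul (N := N) (O := O) (Finset.univ : Finset (Fin 2))
      (fun k => if k = 0 then (fun o γ => ∑ k, VA ρ V a i k o γ * ((((V w)⁻¹) k j : ℝ) : ℂ))
        else (fun (o : ℍ) (_ : Γ) => a o))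
      (fun k => if k = 0 then 1 else -(1 : Matrix (Fin n) (Fin n) ℂ) i j) (w : ℂ) ?_
    · simp only [Fin.sum_univ_two, if_pos, if_neg one_ne_zero, mul_one, mul_neg] at h3
      rw [sub_eq_add_neg]
      refine h3.trans ?_
      congr 1
      funext o γ
      have e : (V o * (V (γ • w))⁻¹) i j = ∑ k, (V o * ρ γ) i k * ((V w)⁻¹) k j := by
        rw [← Matrix.mul_apply, rho_eq hVu hVe γ w, Matrix.mul_assoc, Matrix.mul_assoc,
          Matrix.mul_nonsing_inv _ ((Matrix.isUnit_iff_isUnit_det _).1 (hVu _)), Matrix.mul_one]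
      rw [e]
      unfold VA
      have e3 : (((1 : Matrix (Fin n) (Fin n) ℝ) i j : ℝ) : ℂ) = (1 : Matrix (Fin n) (Fin n) ℂ) i j := by
        rw [Matrix.one_apply, Matrix.one_apply]; split_ifs <;> simp
      push_cast
      rw [e3, mul_sub, Finset.mul_sum, sub_eq_add_neg]
      congr 1
      exact Finset.sum_congr rfl fun k _ => by ring
    · intro k _ o ho
      fin_cases k
      · simp only [Fin.zero_eta, if_pos, Finset.mul_sum]
        refine summable_sum fun k _ => ?_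
        have := (PV_summable hVu hVe hC hG ha hN hO hC2 i k w ho).mul_right ((((V w)⁻¹) k j : ℝ) : ℂ)
        refine this.congr fun γ => ?_
        ring
      · simp only [Fin.mk_one, if_neg one_ne_zero]
        exact pen_summable (A := fun o _ => a o) hN hO (fun o _ => ha o) w ho
  rw [e1]
  refine norm_PS_le_small hN hO (by linarith) (by linarith) hη hC hC4 w ?_ ?_
  · intro o _ γ
    rw [norm_mul, Complex.norm_real, Real.norm_eq_abs, mul_assoc]
    refine mul_le_mul (ha o) ?_ (abs_nonneg _) (by norm_num)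
    have h1 : |(1 : Matrix (Fin n) (Fin n) ℝ) i j| ≤ 1 := by
      rw [Matrix.one_apply]; split_ifs <;> simp
    have h2 : 1 ≤ Real.exp (C * dist o (γ • w)) := Real.one_le_exp (by positivity)
    calc |(V o * (V (γ • w))⁻¹) i j - (1 : Matrix (Fin n) (Fin n) ℝ) i j|
        ≤ |(V o * (V (γ • w))⁻¹) i j| + |(1 : Matrix (Fin n) (Fin n) ℝ) i j| := abs_sub _ _
      _ ≤ C * Real.exp (C * dist o (γ • w)) + 1 := add_le_add (hG _ _ _ _) h1
      _ ≤ (C + 1) * Real.exp (C * dist o (γ • w)) := by nlinarith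
  · intro o _ γ hd
    rw [norm_mul, Complex.norm_real, Real.norm_eq_abs]
    exact mul_le_mul (ha o) (hcl _ _ hd i j) (abs_nonneg _) (by norm_num)

end Fix

end Twist

lemma LB_diff {m : ℕ} {P Q : ℂ → ℂ} {Ep E' : ℂ → Matrix (Fin (2 * m)) (Fin (2 * m)) ℂ}
    (hP : DifferentiableOn ℂ P HH) (hQ : DifferentiableOn ℂ Q HH)
    (hEp : ∀ i j, DifferentiableOn ℂ (fun w => Ep w i j) HH)
    (hEq : ∀ i j, DifferentiableOn ℂ (fun w => E' w i j) HH) (i : Fin m) (j : Fin (2 * m)) :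
    DifferentiableOn ℂ (fun w => LB m (P w) (Q w) (Ep w) (E' w) i j) HH := by
  unfold LB
  simp only [Pi.add_apply, Pi.smul_apply, Finset.sum_apply, smul_eq_mul, Matrix.vecMul, dotProduct]
  refine DifferentiableOn.add ((hQ.pow _).mul ?_) ?_
  · exact DifferentiableOn.fun_sum fun k _ => (hEq k j).const_mul _
  · refine DifferentiableOn.fun_sum fun l _ => ?_
    refine ((hP.pow _).mul (hQ.pow _)).mul ?_
    exact DifferentiableOn.fun_sum fun k _ => (hEp k j).const_mul _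

theorem exists_LH (m : ℕ) (hm : 2 ≤ m) (Γ : Subgroup SL(2, ℝ)) [DiscreteTopology Γ]
    (hfree : ∀ γ : Γ, γ ≠ 1 → ∀ w : ℍ, γ • w ≠ w)
    (hcoc : ∃ K : Set ℍ, IsCompact K ∧ ∀ w : ℍ, ∃ γ : Γ, γ • w ∈ K)
    (ρ : Γ →* Matrix (Fin (2 * m)) (Fin (2 * m)) ℝ) (V : ℍ → Matrix (Fin (2 * m)) (Fin (2 * m)) ℝ)
    (hV : Continuous V) (hVu : ∀ w, IsUnit (V w))
    (hVe : ∀ (γ : Γ) (w : ℍ), V (γ • w) * ρ γ = V w) :
    ∃ (L : ℂ → Matrix (Fin m) (Fin (2 * m)) ℂ) (k : Fin m → ℕ),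
      (∀ i j, DifferentiableOn ℂ (fun w => L w i j) HH) ∧
      (∀ (γ : Γ) (w : ℍ), L ((γ • w : ℍ) : ℂ) * (ρ γ).map Complex.ofReal =
        Matrix.diagonal (fun i => jf (γ : SL(2, ℝ)) w ^ k i) * L w) ∧
      ∀ w : ℍ, TorusBundle.ND (L w) := by
  obtain ⟨ι₀, hι0, hι⟩ := exists_inj Γ hfree hcoc
  obtain ⟨c, N₁, hc, hpen⟩ := pencils Γ hι0 hι
  have hCE := CE_pos
  obtain ⟨ε, hε, hND⟩ := ND_LB hm (c := c) (C := CE * 2) hc
  obtain ⟨C, hC0, hG⟩ := V_growth Γ hcoc ρ V hV hVu hVe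
  obtain ⟨ε', hε'⟩ : ∃ ε', ε' = ε / (4 * CE) := ⟨_, rfl⟩
  have hε'0 : 0 < ε' := by rw [hε']; positivity
  obtain ⟨η, hη, hcl⟩ := V_close Γ hcoc ρ V hV hVu hVe hε'0
  -- the choice of `N`
  have hlim : Filter.Tendsto (fun N : ℕ => CE * (2 * (C + 1)) * Real.exp (-(Real.sqrt N / 4) * η))
      Filter.atTop (𝓝 (CE * (2 * (C + 1)) * 0)) := by
    refine Filter.Tendsto.const_mul _ ?_
    have h1 : Filter.Tendsto (fun N : ℕ => Real.sqrt N) Filter.atTop Filter.atTop :=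
      Real.tendsto_sqrt_atTop.comp tendsto_natCast_atTop_atTop
    have h2 : Filter.Tendsto (fun N : ℕ => Real.sqrt N / 4 * η) Filter.atTop Filter.atTop :=
      (h1.atTop_div_const (by norm_num)).atTop_mul_const hη
    refine (Real.tendsto_exp_neg_atTop_nhds_zero.comp h2).congr fun N => ?_
    simp only [Function.comp_apply, neg_mul]
  rw [mul_zero] at hlim
  have hev := hlim.eventually (ge_mem_nhds (show (0 : ℝ) < ε / 2 by positivity))
  have hsq : Filter.Tendsto (fun N : ℕ => Real.sqrt N) Filter.atTop Filter.atTop :=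
    Real.tendsto_sqrt_atTop.comp tendsto_natCast_atTop_atTop
  obtain ⟨N, ⟨⟨⟨⟨hNε, hN1⟩, hN256⟩, hN4⟩, hNι⟩⟩ := ((((hev.and (Filter.eventually_ge_atTop N₁)).and
    (Filter.eventually_ge_atTop 256)).and (hsq.eventually_ge_atTop (4 * C))).and
    (hsq.eventually_ge_atTop (1 / ι₀))).exists
  have hs16 := e2_sqrt hN256
  have hr0 : 0 < 1 / Real.sqrt N := by positivity
  have hrι : 1 / Real.sqrt N ≤ ι₀ := by
    rw [div_le_iff₀ (by positivity)]
    rw [div_le_iff₀ hι0] at hNι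
    linarith
  obtain ⟨O, hO⟩ := exists_net Γ hcoc hι hr0 hrι
  obtain ⟨a, b, ha, hb, hab⟩ := hpen N hN1 O hO
  have hC2 : 2 * C ≤ Real.sqrt N := by linarith
  -- the family
  refine ⟨fun w => LB m (PS Γ N O (fun o _ => a o) w) (PS Γ N O (fun o _ => b o) w)
    (PV ρ V N O a w) (PV ρ V N O b w), fun i => N * TorusBundle.deg m i, ?_, ?_, ?_⟩
  · have hconst : ∀ {a : ℍ → ℂ}, (∀ o, ‖a o‖ ≤ 2) →
        DifferentiableOn ℂ (PS Γ N O (fun o _ => a o)) HH := by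
      intro a ha
      refine differentiableOn_PS (B := 2) (C := 0) hN256 hO le_rfl (by simp) UpperHalfPlane.I ?_
      intro o _ γ
      rw [zero_mul, Real.exp_zero, mul_one]
      exact ha o
    exact LB_diff (hconst ha) (hconst hb) (PV_diff hVu hVe hC0.le hG ha hN256 hO hC2)
      (PV_diff hVu hVe hC0.le hG hb hN256 hO hC2)
  · intro γ w
    have h1 := LB_smul_mul (m := m) 1 (PS Γ N O (fun o _ => a o) ((γ • w : ℍ) : ℂ))
      (PS Γ N O (fun o _ => b o) ((γ • w : ℍ) : ℂ)) (PV ρ V N O a ((γ • w : ℍ) : ℂ))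
      (PV ρ V N O b ((γ • w : ℍ) : ℂ)) ((ρ γ).map Complex.ofReal) hm
    simp only [one_mul, one_smul, one_pow, Matrix.diagonal_one, Matrix.one_mul] at h1
    have h2 := LB_smul_mul (m := m) (jf (γ : SL(2, ℝ)) w ^ N) (PS Γ N O (fun o _ => a o) w)
      (PS Γ N O (fun o _ => b o) w) (PV ρ V N O a w) (PV ρ V N O b w) 1 hm
    simp only [Matrix.mul_one, ← pow_mul] at h2
    rw [← h1, PV_smul hVu hVe hC0.le hG ha hN256 hO hC2, PV_smul hVu hVe hC0.le hG hb hN256 hO hC2,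
      PS_smul, PS_smul]
    exact h2
  · intro w
    obtain ⟨h, hh⟩ : ∃ h : ℝ, h = Real.sqrt w.im ^ N := ⟨_, rfl⟩
    have hh0 : 0 < h := by rw [hh]; exact pow_pos (Real.sqrt_pos.2 w.im_pos) N
    have hnorm : ∀ z : ℂ, ‖(h : ℂ) * z‖ = ‖z‖ * h := by
      intro z
      rw [norm_mul, Complex.norm_real, Real.norm_eq_abs, abs_of_pos hh0, mul_comm]
    have hup : ∀ {a : ℍ → ℂ}, (∀ o, ‖a o‖ ≤ 2) → ‖(h : ℂ) * PS Γ N O (fun o _ => a o) w‖ ≤ CE * 2 := by
      intro a ha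
      rw [hnorm, hh]
      refine norm_PS_le (B := 2) (C := 0) hN256 hO (by norm_num) le_rfl (by simp) w ?_
      intro o _ γ
      rw [zero_mul, Real.exp_zero, mul_one]
      exact ha o
    have hclose : ∀ {a : ℍ → ℂ}, (∀ o, ‖a o‖ ≤ 2) → ∀ i j,
        ‖((h : ℂ) • (PV ρ V N O a w * ((V w)⁻¹).map Complex.ofReal)) i j -
          (h : ℂ) * PS Γ N O (fun o _ => a o) w * (1 : Matrix (Fin (2 * m)) (Fin (2 * m)) ℂ) i j‖ ≤ ε := by
      intro a ha i j
      rw [Matrix.smul_apply, smul_eq_mul, mul_assoc, ← mul_sub, hnorm, hh]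
      refine (PV_close hVu hVe hC0.le hG ha hN256 hO hC2 hε'0.le hη.le hN4 hcl w i j).trans ?_
      rw [mul_add]
      have e1 : CE * (2 * ε') = ε / 2 := by rw [hε']; field_simp; norm_num
      rw [e1, ← mul_assoc]
      linarith
    have hlow : c ≤ max ‖(h : ℂ) * PS Γ N O (fun o _ => a o) w‖ ‖(h : ℂ) * PS Γ N O (fun o _ => b o) w‖ := by
      rw [hnorm, hnorm, hh]
      exact hab w
    have h1 := hND _ _ _ _ hlow (hup ha) (hup hb) (hclose ha) (hclose hb)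
    rw [LB_smul_mul _ _ _ _ _ _ hm] at h1
    set L := LB m (PS Γ N O (fun o _ => a o) w) (PS Γ N O (fun o _ => b o) w)
      (PV ρ V N O a w) (PV ρ V N O b w) with hL
    have hhc : (h : ℂ) ≠ 0 := Complex.ofReal_ne_zero.2 hh0.ne'
    have h2 := TorusBundle.ND_diagonal h1 (d := fun i => ((h : ℂ) ^ TorusBundle.deg m i)⁻¹)
      (fun i => inv_ne_zero (pow_ne_zero _ hhc))
    rw [← Matrix.mul_assoc, Matrix.diagonal_mul_diagonal] at h2
    have e2 : (fun i : Fin m => ((h : ℂ) ^ TorusBundle.deg m i)⁻¹ * (h : ℂ) ^ TorusBundle.deg m i) =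
        fun _ => 1 := by
      funext i
      exact inv_mul_cancel₀ (pow_ne_zero _ hhc)
    rw [e2, Matrix.diagonal_one, Matrix.one_mul] at h2
    have h3 := TorusBundle.ND_mul_real h2 (hVu w)
    have e3 : ((V w)⁻¹).map Complex.ofReal * (V w).map Complex.ofReal = 1 := by
      have h4 := Matrix.nonsing_inv_mul (V w) ((Matrix.isUnit_iff_isUnit_det _).1 (hVu w))
      have h5 : ((V w)⁻¹ * V w).map Complex.ofReal =
          (1 : Matrix (Fin (2 * m)) (Fin (2 * m)) ℝ).map Complex.ofReal :=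
        congrArg (fun M => Matrix.map M Complex.ofReal) h4
      rw [Matrix.map_one _ (by simp) (by simp)] at h5
      rw [← h5]
      exact (Matrix.map_mul (f := Complex.ofRealHom)).symm
    rw [Matrix.mul_assoc, e3, Matrix.mul_one] at h3
    exact h3

end Pool.Agent.HypBundle
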